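import Pool.Agent.WFP.Defs

/-!
# WFP/ANG: three angles with the right signs
-/

set_option autoImplicit false

namespace Pool.Agent.WFP

/-- For three different odd primes there are multiples b_l of 2 pi / p_l such that the four sines
have the same sign. -/
theorem exists_angles (p : Fin 3 → ℕ) (hp : ∀ l, (p l).Prime) (hodd : ∀ l, Odd (p l))
    (hinj : Function.Injective p) :
    ∃ c : Fin 3 → ℤ, (∀ l, ¬ ((p l : ℤ) ∣ c l)) ∧ ∃ κ : ℝ, (κ = 1 ∨ κ = -1) ∧
      ∀ b : Fin 3 → ℝ, (∀ l, b l = 2 * Real.pi * c l / p l) →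
        0 < κ * Real.sin (b 0 + b 1 + b 2) ∧ 0 < κ * Real.sin (-b 0 + b 1 + b 2) ∧
        0 < κ * Real.sin (b 0 - b 1 + b 2) ∧ 0 < κ * Real.sin (b 0 + b 1 - b 2) := by
  -- the integers
  have hl : ∀ l, ∃ (d c e : ℤ), (p l : ℤ) < 6 * d ∧ 3 * d ≤ p l ∧ (3 * d = p l → p l = 3) ∧
      2 * c = d - e * p l ∧ (e = 0 ∨ e = 1) := by
    intro l
    have h3 : 3 ≤ p l := by
      have h2 := (hp l).two_le
      obtain ⟨k, hk⟩ := hodd l
      omega
    have h4 : p l ≠ 4 := by
      obtain ⟨k, hk⟩ := hodd l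
      omega
    have h6 : p l ≠ 6 := by
      obtain ⟨k, hk⟩ := hodd l
      omega
    have hd1 : (p l : ℤ) < 6 * ((p l / 6 + 1 : ℕ) : ℤ) := by
      push_cast
      omega
    have hd2 : 3 * ((p l / 6 + 1 : ℕ) : ℤ) ≤ p l := by
      push_cast
      omega
    have hd3 : 3 * ((p l / 6 + 1 : ℕ) : ℤ) = p l → p l = 3 := by
      intro h
      have h' : 3 * (p l / 6 + 1) = p l := by exact_mod_cast h
      have : 3 ∣ p l := ⟨_, h'.symm⟩
      exact ((Nat.prime_dvd_prime_iff_eq Nat.prime_three (hp l)).1 this).symm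
    rcases Nat.even_or_odd (p l / 6 + 1) with ⟨k, hk⟩ | ⟨k, hk⟩
    · refine ⟨((p l / 6 + 1 : ℕ) : ℤ), k, 0, hd1, hd2, hd3, ?_, Or.inl rfl⟩
      rw [hk]
      push_cast
      ring
    · obtain ⟨k', hk'⟩ := hodd l
      refine ⟨((p l / 6 + 1 : ℕ) : ℤ), (k : ℤ) - k', 1, hd1, hd2, hd3, ?_, Or.inr rfl⟩
      have e1 : ((p l / 6 + 1 : ℕ) : ℤ) = 2 * k + 1 := by exact_mod_cast hk
      have e2 : (p l : ℤ) = 2 * k' + 1 := by exact_mod_cast hk'
      rw [e1, e2]
      ring
  choose d c e h1 h2 h3 h4 h5 using hl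
  have hpos : ∀ l, (0 : ℝ) < p l := fun l => by exact_mod_cast (hp l).pos
  refine ⟨c, fun l hdvd => ?_, (-1 : ℝ) ^ (e 0 + e 1 + e 2), ?_, fun b hb => ?_⟩
  · obtain ⟨k, hk⟩ := hdvd
    have h6 : d l = p l * (2 * k + e l) := by
      have := h4 l
      rw [hk] at this
      linear_combination -this
    have hp0 : (0 : ℤ) < p l := by exact_mod_cast (hp l).pos
    have h7 := h1 l
    have h8 := h2 l
    rw [h6] at h7 h8
    have h9 : 0 < 2 * k + e l := by
      by_contra hc
      have : (p l : ℤ) * (2 * k + e l) ≤ 0 := mul_nonpos_of_nonneg_of_nonpos hp0.le (not_lt.1 hc)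
      linarith
    have h10 : (p l : ℤ) * 1 ≤ p l * (2 * k + e l) := mul_le_mul_of_nonneg_left (by omega) hp0.le
    linarith
  · rcases Int.even_or_odd (e 0 + e 1 + e 2) with h | h
    · exact Or.inl h.neg_one_zpow
    · exact Or.inr h.neg_one_zpow
  · -- the angles
    have hbl : ∀ l, b l = Real.pi * ((d l : ℝ) / p l) - (e l : ℝ) * Real.pi := by
      intro l
      have hc : (2 : ℝ) * c l = d l - e l * p l := by exact_mod_cast h4 l
      rw [hb l]
      have : 2 * Real.pi * c l / p l = Real.pi * (2 * c l) / p l := by ring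
      rw [this, hc]
      have := (hpos l).ne'
      field_simp
    have lo : ∀ l, (1 : ℝ) / 6 < (d l : ℝ) / p l := by
      intro l
      rw [lt_div_iff₀ (hpos l)]
      have : (p l : ℝ) < 6 * d l := by exact_mod_cast h1 l
      linarith
    have hi : ∀ l, (d l : ℝ) / p l ≤ 1 / 3 := by
      intro l
      rw [div_le_iff₀ (hpos l)]
      have : 3 * (d l : ℝ) ≤ p l := by exact_mod_cast h2 l
      linarith
    have heq : ∀ l, (d l : ℝ) / p l = 1 / 3 → p l = 3 := by
      intro l hl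
      rw [div_eq_iff (hpos l).ne'] at hl
      apply h3 l
      have : (3 : ℝ) * d l = p l := by linarith
      exact_mod_cast this
    have hsum : (d 0 : ℝ) / p 0 + (d 1 : ℝ) / p 1 + (d 2 : ℝ) / p 2 < 1 := by
      have a0 := hi 0
      have a1 := hi 1
      have a2 := hi 2
      by_contra hc
      have e0 : (d 0 : ℝ) / p 0 = 1 / 3 := by linarith
      have e1 : (d 1 : ℝ) / p 1 = 1 / 3 := by linarith
      have := hinj ((heq 0 e0).trans (heq 1 e1).symm)
      exact absurd this (by decide)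
    have l0 := lo 0
    have l1 := lo 1
    have l2 := lo 2
    have u0 := hi 0
    have u1 := hi 1
    have u2 := hi 2
    have key : ∀ (N : ℤ) (y : ℝ), Even (e 0 + e 1 + e 2 + N) → 0 < y → y < 1 →
        0 < (-1 : ℝ) ^ (e 0 + e 1 + e 2) * Real.sin (Real.pi * y - N * Real.pi) := by
      intro N y hN hy0 hy1
      rw [Real.sin_sub_int_mul_pi, ← mul_assoc, ← zpow_add₀ (by norm_num), hN.neg_one_zpow, one_mul]
      refine Real.sin_pos_of_pos_of_lt_pi (by positivity) ?_
      have := Real.pi_pos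
      nlinarith
    have hb0 := hbl 0
    have hb1 := hbl 1
    have hb2 := hbl 2
    set x0 : ℝ := (d 0 : ℝ) / p 0
    set x1 : ℝ := (d 1 : ℝ) / p 1
    set x2 : ℝ := (d 2 : ℝ) / p 2
    refine ⟨?_, ?_, ?_, ?_⟩
    · have := key (e 0 + e 1 + e 2) (x0 + x1 + x2) ⟨e 0 + e 1 + e 2, by ring⟩ (by linarith) hsum
      rw [hb0, hb1, hb2]
      convert this using 3
      push_cast
      ring
    · have := key (-e 0 + e 1 + e 2) (-x0 + x1 + x2) ⟨e 1 + e 2, by ring⟩ (by linarith) (by linarith)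
      rw [hb0, hb1, hb2]
      convert this using 3
      push_cast
      ring
    · have := key (e 0 - e 1 + e 2) (x0 - x1 + x2) ⟨e 0 + e 2, by ring⟩ (by linarith) (by linarith)
      rw [hb0, hb1, hb2]
      convert this using 3
      push_cast
      ring
    · have := key (e 0 + e 1 - e 2) (x0 + x1 - x2) ⟨e 0 + e 1, by ring⟩ (by linarith) (by linarith)
      rw [hb0, hb1, hb2]
      convert this using 3
      push_cast
      ring

end Pool.Agent.WFP
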