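import Pool.Agent.WFP.GRD

/-!
# WFP/BOX: summation over boxes, Stokes formula for admissible functions, pairing
-/

set_option autoImplicit false

namespace Pool.Agent.WFP

theorem mem_box {ι : Type} [DecidableEq ι] [Fintype ι] {N : ι → ℕ} {x : ι → ℤ} :
    x ∈ box N ↔ ∀ d, 0 ≤ x d ∧ x d < N d := by
  simp [box, Fintype.mem_piFinset, Finset.mem_Ico]

theorem add_smul_st_self {ι : Type} [DecidableEq ι] (x : ι → ℤ) (d : ι) (t : ℤ) :
    (x + t • st d) d = x d + t := by
  simp [st]

theorem add_smul_st_ne {ι : Type} [DecidableEq ι] (x : ι → ℤ) {d i : ι} (t : ℤ) (h : i ≠ d) :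
    (x + t • st d) i = x i := by
  simp [st, h]

theorem tele_range (h : ℤ → ZMod 2) (n : ℕ) :
    ∑ t ∈ Finset.range n, (h ((t : ℤ) + 1) + h t) = h n + h 0 := by
  induction n with
  | zero => simp [z2_add_self]
  | succ n ih =>
    rw [Finset.sum_range_succ, ih]
    push_cast
    linear_combination z2_add_self (h n)

theorem sum_box_fiber {ι : Type} [DecidableEq ι] [Fintype ι] (N : ι → ℕ) (d : ι)
    (F : (ι → ℤ) → ZMod 2) :
    ∑ x ∈ box N, F x = ∑ x ∈ (box N).filter (fun x => x d = 0),
      ∑ t ∈ Finset.range (N d), F (x + (t : ℤ) • st d) := by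
  rw [← Finset.sum_product' ((box N).filter (fun x => x d = 0)) (Finset.range (N d))
    (fun x t => F (x + (t : ℤ) • st d))]
  symm
  refine Finset.sum_nbij' (fun p => p.1 + (p.2 : ℤ) • st d)
    (fun y => (Function.update y d 0, (y d).toNat)) ?_ ?_ ?_ ?_ ?_
  · rintro ⟨x, t⟩ hp
    simp only [Finset.mem_product, Finset.mem_filter, Finset.mem_range, mem_box] at hp ⊢
    intro i
    by_cases hi : i = d
    · subst hi
      rw [add_smul_st_self, hp.1.2]
      have := hp.2
      constructor <;> omega
    · rw [add_smul_st_ne _ _ hi]
      exact hp.1.1 i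
  · intro y hy
    rw [mem_box] at hy
    simp only [Finset.mem_product, Finset.mem_filter, Finset.mem_range, mem_box]
    have hd := hy d
    refine ⟨⟨?_, ?_⟩, ?_⟩
    · intro i
      by_cases hi : i = d
      · subst hi
        rw [Function.update_self]
        constructor
        · exact le_rfl
        · omega
      · rw [Function.update_of_ne hi]
        exact hy i
    · rw [Function.update_self]
    · omega
  · rintro ⟨x, t⟩ hp
    simp only [Finset.mem_product, Finset.mem_filter, Finset.mem_range] at hp
    simp only [Prod.mk.injEq]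
    constructor
    · funext i
      by_cases hi : i = d
      · subst hi
        rw [Function.update_self, hp.1.2]
      · rw [Function.update_of_ne hi, add_smul_st_ne _ _ hi]
    · rw [add_smul_st_self, hp.1.2]
      omega
  · intro y hy
    rw [mem_box] at hy
    have hd := hy d
    funext i
    by_cases hi : i = d
    · subst hi
      simp only
      rw [add_smul_st_self, Function.update_self]
      omega
    · simp only
      rw [add_smul_st_ne _ _ hi, Function.update_of_ne hi]
  · rintro ⟨x, t⟩ _
    rfl

/-- Telescoping in one direction. -/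
theorem sum_box_tele {ι : Type} [DecidableEq ι] [Fintype ι] (N : ι → ℕ) (d : ι)
    (g : (ι → ℤ) → ZMod 2) :
    ∑ x ∈ box N, (g (x + st d) + g x) =
      ∑ x ∈ (box N).filter (fun x => x d = 0), (g (x + (N d : ℤ) • st d) + g x) := by
  rw [sum_box_fiber N d]
  refine Finset.sum_congr rfl fun x _ => ?_
  have h := tele_range (fun t => g (x + t • st d)) (N d)
  simp only [zero_smul, add_zero] at h
  rw [← h]
  refine Finset.sum_congr rfl fun t _ => ?_
  rw [add_smul, one_smul, add_assoc]

/-- The translations which do not change a function. -/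
def periods {ι : Type} (g : (ι → ℤ) → ZMod 2) : AddSubgroup (ι → ℤ) where
  carrier := {v | ∀ x, g (x + v) = g x}
  zero_mem' := fun x => by rw [add_zero]
  add_mem' := fun {a b} ha hb x => by rw [← add_assoc, hb, ha]
  neg_mem' := fun {a} ha x => by
    have := ha (x + -a)
    rw [neg_add_cancel_right] at this
    exact this.symm

theorem mem_periods {ι : Type} {g : (ι → ℤ) → ZMod 2} {v : ι → ℤ} :
    v ∈ periods g ↔ ∀ x, g (x + v) = g x := Iff.rfl

/-- Two points which differ by a period. -/
theorem eq_of_sub_mem_periods {ι : Type} {g : (ι → ℤ) → ZMod 2} {x y : ι → ℤ}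
    (h : y - x ∈ periods g) : g y = g x := by
  have := mem_periods.1 h x
  rwa [add_sub_cancel] at this

/-- Rotation of one coordinate by half of the period. -/
def rot {ι : Type} [DecidableEq ι] (n : ℕ) (d : ι) (x : ι → ℤ) : ι → ℤ :=
  Function.update x d ((x d + n) % (2 * n))

theorem half_rot_rot {n : ℕ} {a : ℤ} (h0 : 0 ≤ a) (h1 : a < 2 * n) :
    ((a + n) % (2 * n) + n) % (2 * n) = a := by
  rcases lt_or_ge a n with h | h
  · have e : (a + n) % (2 * n) = a + n := Int.emod_eq_of_lt (by omega) (by omega)
    rw [e]
    have : a + n + n = a + 2 * n := by ring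
    rw [this, Int.add_emod_right]
    exact Int.emod_eq_of_lt h0 h1
  · have e : (a + n) % (2 * n) = a - n := by
      have : a + n = (a - n) + 2 * n := by ring
      rw [this, Int.add_emod_right]
      exact Int.emod_eq_of_lt (by omega) (by omega)
    rw [e, sub_add_cancel]
    exact Int.emod_eq_of_lt h0 h1

theorem half_rot_mem {n : ℕ} {a : ℤ} (h0 : 0 ≤ a) (h1 : a < 2 * n) :
    0 ≤ (a + n) % (2 * n) ∧ (a + n) % (2 * n) < 2 * n := by
  have hn : (0 : ℤ) < 2 * n := lt_of_le_of_lt h0 h1
  exact ⟨Int.emod_nonneg _ hn.ne', Int.emod_lt_of_pos _ hn⟩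

theorem sub_rot {ι : Type} [DecidableEq ι] (n : ℕ) (d : ι) (x : ι → ℤ) :
    rot n d x - (x + (n : ℤ) • st d) = (-((x d + n) / (2 * n))) • ((2 * n : ℤ) • st d) := by
  funext i
  by_cases hi : i = d
  · subst hi
    have := Int.emod_add_mul_ediv (x i + n) (2 * n)
    simp only [rot, Pi.sub_apply, Function.update_self, Pi.add_apply, Pi.smul_apply, st,
      Pi.single_eq_same, smul_eq_mul, mul_one]
    linarith
  · simp [rot, st, hi]

/-- Rotation of a periodic direction. -/
theorem sum_rot {ι : Type} [DecidableEq ι] [Fintype ι] (N : ι → ℕ) (n : ℕ) (a b : ι) (hab : a ≠ b)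
    (hb : N b = 2 * n) (k : (ι → ℤ) → ZMod 2) (hk : ∀ x, k (x + (2 * n : ℤ) • st b) = k x) :
    ∑ x ∈ (box N).filter (fun x => x a = 0), k (x + (n : ℤ) • st b) =
      ∑ x ∈ (box N).filter (fun x => x a = 0), k x := by
  have hmem : ∀ x ∈ (box N).filter (fun x => x a = 0),
      rot n b x ∈ (box N).filter (fun x => x a = 0) := by
    intro x hx
    simp only [Finset.mem_filter, mem_box] at hx ⊢
    constructor
    · intro i
      by_cases hi : i = b
      · subst hi
        have h := hx.1 i
        rw [hb] at h ⊢
        push_cast at h ⊢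
        simp only [rot, Function.update_self]
        exact half_rot_mem h.1 h.2
      · simp only [rot, Function.update_of_ne hi]
        exact hx.1 i
    · simp only [rot, Function.update_of_ne hab]
      exact hx.2
  have hinv : ∀ x ∈ (box N).filter (fun x => x a = 0), rot n b (rot n b x) = x := by
    intro x hx
    simp only [Finset.mem_filter, mem_box] at hx
    funext i
    by_cases hi : i = b
    · subst hi
      have h := hx.1 i
      rw [hb] at h
      push_cast at h
      simp only [rot, Function.update_self]
      exact half_rot_rot h.1 h.2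
    · simp only [rot, Function.update_of_ne hi]
  refine Finset.sum_nbij' (rot n b) (rot n b) hmem hmem hinv hinv ?_
  intro x _
  symm
  apply eq_of_sub_mem_periods
  rw [sub_rot]
  exact AddSubgroup.zsmul_mem _ (mem_periods.2 hk) _

/-- Stokes formula: the faces in the directions of the slices are the only ones which
contribute. -/
theorem stokes_Adm (n m : ℕ) (f₀ : (Option (Dir m) → ℤ) → ZMod 2)
    (l : List ((Option (Dir m) → ℤ) → ZMod 2)) (h₀ : Adm n m f₀ 0)
    (hl : ∀ f ∈ l, ∃ c, Adm n m f c) :
    ∑ x ∈ box (NszS n m), J (f₀ :: l) Finset.univ x =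
      ∑ x ∈ box (Nsz n m), (slice n f₀ x * J (l.map (slice n)) Finset.univ x) +
      ∑ x ∈ box (Nsz n m), (slice 0 f₀ x * J (l.map (slice 0)) Finset.univ x) := by
  -- the boundary function in the direction `d`
  set h : Option (Dir m) → (Option (Dir m) → ℤ) → ZMod 2 :=
    fun d x => f₀ x * J l (Finset.univ.erase d) x with hh
  have hstokes : ∀ x, J (f₀ :: l) Finset.univ x = ∑ d, (h d (x + st d) + h d x) := by
    intro x
    rw [J_stokes]
  have hsum : ∑ x ∈ box (NszS n m), J (f₀ :: l) Finset.univ x
      = ∑ d, ∑ x ∈ (box (NszS n m)).filter (fun x => x d = 0),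
        (h d (x + (NszS n m d : ℤ) • st d) + h d x) := by
    rw [Finset.sum_congr rfl (fun x _ => hstokes x), Finset.sum_comm]
    refine Finset.sum_congr rfl fun d _ => ?_
    exact sum_box_tele (NszS n m) d (h d)
  rw [hsum, Fintype.sum_option]
  -- shift invariance of `J l`
  have hJper : ∀ (D : Finset (Option (Dir m))) (x v : Option (Dir m) → ℤ),
      (∀ f ∈ l, ∀ c, Adm n m f c → ∀ y, f (y + v) = f y) → J l D (x + v) = J l D x := by
    intro D x v hv
    apply J_shift
    intro f hf
    obtain ⟨c, hc⟩ := hl f hf
    exact ⟨0, fun y => by rw [hv f hf c hc y, add_zero]⟩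
  -- the other directions
  have hother : ∀ d : Dir m, ∑ x ∈ (box (NszS n m)).filter (fun x => x (some d) = 0),
      (h (some d) (x + (NszS n m (some d) : ℤ) • st (some d)) + h (some d) x) = 0 := by
    intro d
    rcases d with i | ⟨j, i⟩
    · fin_cases i
      · -- theta
        refine Finset.sum_eq_zero fun x hx => ?_
        have hx0 : x (some (Sum.inl 0)) = 0 := (Finset.mem_filter.1 hx).2
        have e1 : J l (Finset.univ.erase (some (Sum.inl 0))) x = 0 := by
          refine J_flat l _ x (some (Sum.inl 0)) (some (Sum.inl 1)) 0 ?_ hx0 ?_ ?_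
          · intro f hf y hy
            obtain ⟨c, hc⟩ := hl f hf
            exact hc.pole y (Or.inl hy)
          · simp
          · simp
        have e2 : J l (Finset.univ.erase (some (Sum.inl 0)))
            (x + (NszS n m (some (Sum.inl 0)) : ℤ) • st (some (Sum.inl 0))) = 0 := by
          refine J_flat l _ _ (some (Sum.inl 0)) (some (Sum.inl 1)) n ?_ ?_ ?_ ?_
          · intro f hf y hy
            obtain ⟨c, hc⟩ := hl f hf
            exact hc.pole y (Or.inr hy)
          · rw [add_smul_st_self, hx0]
            simp [NszS, Nsz]
          · simp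
          · simp
        change f₀ _ * J l (Finset.univ.erase (some (Sum.inl 0))) _
          + f₀ _ * J l (Finset.univ.erase (some (Sum.inl 0))) _ = 0
        rw [e1]
        erw [e2]
        simp
      · -- phi
        refine Finset.sum_eq_zero fun x _ => ?_
        have hN : (NszS n m (some (Sum.inl 1)) : ℤ) = 2 * n := by simp [NszS, Nsz]
        change h (some (Sum.inl 1)) (x + (NszS n m (some (Sum.inl 1)) : ℤ) • st (some (Sum.inl 1)))
          + h (some (Sum.inl 1)) x = 0
        rw [hN]
        have : h (some (Sum.inl 1)) (x + (2 * n : ℤ) • st (some (Sum.inl 1)))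
            = h (some (Sum.inl 1)) x := by
          simp only [hh]
          rw [h₀.perphi, hJper _ _ _ (fun f _ c hc y => hc.perphi y)]
        rw [this]
        exact z2_add_self _
    · fin_cases i
      · -- psi
        refine Finset.sum_eq_zero fun x hx => ?_
        have hx0 : x (some (Sum.inr (j, 0))) = 0 := (Finset.mem_filter.1 hx).2
        have e1 : J l (Finset.univ.erase (some (Sum.inr (j, 0)))) x = 0 := by
          refine J_flat l _ x (some (Sum.inr (j, 0))) (some (Sum.inr (j, 2))) 0 ?_ hx0 ?_ ?_
          · intro f hf y hy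
            obtain ⟨c, hc⟩ := hl f hf
            exact hc.psi0 j y hy
          · simp
          · simp
        have e2 : J l (Finset.univ.erase (some (Sum.inr (j, 0))))
            (x + (NszS n m (some (Sum.inr (j, 0))) : ℤ) • st (some (Sum.inr (j, 0)))) = 0 := by
          refine J_flat l _ _ (some (Sum.inr (j, 0))) (some (Sum.inr (j, 1))) n ?_ ?_ ?_ ?_
          · intro f hf y hy
            obtain ⟨c, hc⟩ := hl f hf
            exact hc.psi1 j y hy
          · rw [add_smul_st_self, hx0]
            simp [NszS, Nsz]
          · simp
          · simp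
        change f₀ _ * J l (Finset.univ.erase (some (Sum.inr (j, 0)))) _
          + f₀ _ * J l (Finset.univ.erase (some (Sum.inr (j, 0)))) _ = 0
        rw [e1]
        erw [e2]
        simp
      · -- alpha
        have hN : (NszS n m (some (Sum.inr (j, 1))) : ℤ) = n := by simp [NszS, Nsz]
        change ∑ x ∈ (box (NszS n m)).filter (fun x => x (some (Sum.inr (j, 1))) = 0),
          (h (some (Sum.inr (j, 1)))
            (x + (NszS n m (some (Sum.inr (j, 1))) : ℤ) • st (some (Sum.inr (j, 1))))
            + h (some (Sum.inr (j, 1))) x) = 0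
        rw [hN, Finset.sum_add_distrib]
        have hrot := sum_rot (NszS n m) n (some (Sum.inr (j, 1))) (some (Sum.inr (j, 2)))
          (by simp) (by simp [NszS, Nsz])
          (fun x => h (some (Sum.inr (j, 1))) (x + (n : ℤ) • st (some (Sum.inr (j, 1)))))
          (by
            intro x
            simp only [hh]
            rw [add_right_comm, h₀.perbeta, hJper _ _ _ (fun f _ c hc y => hc.perbeta j y)])
        rw [← hrot]
        have : ∀ x, h (some (Sum.inr (j, 1)))
            (x + (n : ℤ) • st (some (Sum.inr (j, 2))) + (n : ℤ) • st (some (Sum.inr (j, 1))))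
            = h (some (Sum.inr (j, 1))) x := by
          intro x
          rw [add_right_comm]
          simp only [hh]
          rw [h₀.eta, Pi.zero_apply, add_zero, add_assoc]
          congr 1
          apply J_shift
          intro f hf
          obtain ⟨c, hc⟩ := hl f hf
          exact ⟨c j, fun y => by rw [← add_assoc, hc.eta]⟩
        simp only [this]
        exact z2_add_self _
      · -- beta
        refine Finset.sum_eq_zero fun x _ => ?_
        have hN : (NszS n m (some (Sum.inr (j, 2))) : ℤ) = 2 * n := by simp [NszS, Nsz]
        change h (some (Sum.inr (j, 2)))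
          (x + (NszS n m (some (Sum.inr (j, 2))) : ℤ) • st (some (Sum.inr (j, 2))))
          + h (some (Sum.inr (j, 2))) x = 0
        rw [hN]
        have : h (some (Sum.inr (j, 2))) (x + (2 * n : ℤ) • st (some (Sum.inr (j, 2))))
            = h (some (Sum.inr (j, 2))) x := by
          simp only [hh]
          rw [h₀.perbeta, hJper _ _ _ (fun f _ c hc y => hc.perbeta j y)]
        rw [this]
        exact z2_add_self _
  rw [Finset.sum_congr rfl (fun d _ => hother d), Finset.sum_const_zero, add_zero]
  -- the slices
  have hN : (NszS n m none : ℤ) = n := by simp [NszS]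
  rw [hN]
  have herase : (Finset.univ : Finset (Option (Dir m))).erase none
      = (Finset.univ : Finset (Dir m)).map Function.Embedding.some := by
    ext o
    cases o <;> simp
  have hslice : ∀ (c : ℤ) (x : Dir m → ℤ), h none (consO c x)
      = slice c f₀ x * J (l.map (slice c)) Finset.univ x := by
    intro c x
    simp only [hh]
    rw [herase, J_slice]
    rfl
  rcases Nat.eq_zero_or_pos n with hn | hn
  · -- the empty box
    subst hn
    have e1 : (box (NszS 0 m)) = ∅ := by
      apply Finset.eq_empty_of_forall_notMem
      intro x hx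
      have := mem_box.1 hx none
      simp [NszS] at this
      omega
    have e2 : (box (Nsz 0 m)) = ∅ := by
      apply Finset.eq_empty_of_forall_notMem
      intro x hx
      have := mem_box.1 hx (Sum.inl 0)
      simp [Nsz] at this
      omega
    simp [e1, e2]
  rw [← Finset.sum_add_distrib]
  refine Finset.sum_nbij' (fun x d => x (some d)) (fun x => consO 0 x) ?_ ?_ ?_ ?_ ?_
  · intro x hx
    simp only [Finset.mem_filter, mem_box] at hx ⊢
    intro d
    exact hx.1 (some d)
  · intro x hx
    simp only [Finset.mem_filter, mem_box] at hx ⊢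
    refine ⟨?_, rfl⟩
    intro o
    cases o with
    | none =>
      change (0 : ℤ) ≤ 0 ∧ (0 : ℤ) < (n : ℕ)
      exact ⟨le_rfl, by exact_mod_cast hn⟩
    | some d => exact hx d
  · intro x hx
    have hx0 : x none = 0 := (Finset.mem_filter.1 hx).2
    funext o
    cases o with
    | none => exact hx0.symm
    | some d => rfl
  · intro x _
    rfl
  · intro x hx
    have hx0 : x none = 0 := (Finset.mem_filter.1 hx).2
    have e0 : x = consO 0 (fun d => x (some d)) := by
      funext o
      cases o with
      | none => exact hx0
      | some d => rfl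
    have en : x + (n : ℤ) • st none = consO n (fun d => x (some d)) := by
      funext o
      cases o with
      | none => rw [add_smul_st_self, hx0, zero_add]; rfl
      | some d => rw [add_smul_st_ne _ _ (by simp)]; rfl
    rw [← hslice, ← hslice, ← en, ← e0]

/-- The involution of the box. -/
def rotAll (n m : ℕ) (x : Option (Dir m) → ℤ) : Option (Dir m) → ℤ
  | none => x none
  | some (Sum.inl i) =>
      if i = 1 then (x (some (Sum.inl i)) + n) % (2 * n) else x (some (Sum.inl i))
  | some (Sum.inr q) =>
      if q.2 = 2 then (x (some (Sum.inr q)) + n) % (2 * n) else x (some (Sum.inr q))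

/-- Pairing under the translation `vtau`. -/
theorem pair_box (n m : ℕ) (g : (Option (Dir m) → ℤ) → ZMod 2)
    (hβ : ∀ j x, g (x + (2 * n : ℤ) • st (some (Sum.inr (j, 2)))) = g x)
    (hτ : ∀ x ∈ box (NszS n m), g (x + vtau n m) = g x) :
    ∑ x ∈ box (NszS n m), g x = 0 := by
  have hmem : ∀ x ∈ box (NszS n m), rotAll n m x ∈ box (NszS n m) := by
    intro x hx
    rw [mem_box] at hx ⊢
    intro o
    have ho := hx o
    rcases o with _ | i | q
    · exact ho
    · by_cases hi : i = 1
      · simp only [rotAll, if_pos hi]
        simp only [NszS, Option.elim, Nsz, if_pos hi] at ho ⊢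
        push_cast at ho ⊢
        exact half_rot_mem ho.1 ho.2
      · simp only [rotAll, if_neg hi]
        exact ho
    · by_cases hi : q.2 = 2
      · simp only [rotAll, if_pos hi]
        simp only [NszS, Option.elim, Nsz, if_pos hi] at ho ⊢
        push_cast at ho ⊢
        exact half_rot_mem ho.1 ho.2
      · simp only [rotAll, if_neg hi]
        exact ho
  have hinv : ∀ x ∈ box (NszS n m), rotAll n m (rotAll n m x) = x := by
    intro x hx
    rw [mem_box] at hx
    funext o
    have ho := hx o
    rcases o with _ | i | q
    · rfl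
    · by_cases hi : i = 1
      · simp only [rotAll, if_pos hi]
        simp only [NszS, Option.elim, Nsz, if_pos hi] at ho
        push_cast at ho
        exact half_rot_rot ho.1 ho.2
      · simp only [rotAll, if_neg hi]
    · by_cases hi : q.2 = 2
      · simp only [rotAll, if_pos hi]
        simp only [NszS, Option.elim, Nsz, if_pos hi] at ho
        push_cast at ho
        exact half_rot_rot ho.1 ho.2
      · simp only [rotAll, if_neg hi]
  have hφ : ∀ x ∈ box (NszS n m), 0 ≤ x (some (Sum.inl 1)) ∧ x (some (Sum.inl 1)) < 2 * n := by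
    intro x hx
    have := mem_box.1 hx (some (Sum.inl 1))
    simpa [NszS, Nsz] using this
  -- half of the box
  have hhalf : ∀ x ∈ box (NszS n m), x (some (Sum.inl 1)) < n → g (rotAll n m x) = g x := by
    intro x hx hlt
    rw [← hτ x hx]
    apply eq_of_sub_mem_periods
    have e : rotAll n m x - (x + vtau n m)
        = ∑ j : Fin m, (-((x (some (Sum.inr (j, 2))) + n) / (2 * n))) •
            ((2 * n : ℤ) • st (some (Sum.inr (j, 2)))) := by
      funext o
      rw [Finset.sum_apply]
      rcases o with _ | i | ⟨j, i⟩
      · simp [rotAll, vtau, st]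
      · have h2 := hφ x hx
        by_cases hi : i = 1
        · subst hi
          have e1 : (x (some (Sum.inl 1)) + n) % (2 * n) = x (some (Sum.inl 1)) + n :=
            Int.emod_eq_of_lt (by omega) (by omega)
          simp [rotAll, vtau, st, e1]
        · simp [rotAll, vtau, st, hi]
      · by_cases hi : i = 2
        · subst hi
          rw [Finset.sum_eq_single j]
          · have := Int.emod_add_mul_ediv (x (some (Sum.inr (j, 2))) + n) (2 * n)
            simp only [rotAll, vtau, Pi.sub_apply, Pi.add_apply, Pi.smul_apply, st,
              Pi.single_eq_same, smul_eq_mul, mul_one, if_true]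
            linarith
          · intro j' _ hj'
            have : (some (Sum.inr (j, 2)) : Option (Dir m)) ≠ some (Sum.inr (j', 2)) := by
              simp [hj'.symm]
            simp [st, this]
          · intro hj
            exact absurd (Finset.mem_univ j) hj
        · have hz : ∀ j' : Fin m, ((-((x (some (Sum.inr (j', 2))) + n) / (2 * n))) •
            ((2 * n : ℤ) • st (some (Sum.inr (j', 2)) : Option (Dir m)))) (some (Sum.inr (j, i)))
              = 0 := by
            intro j'
            have : (some (Sum.inr (j, i)) : Option (Dir m)) ≠ some (Sum.inr (j', 2)) := by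
              simp [hi]
            simp [st, this]
          rw [Finset.sum_eq_zero (fun j' _ => hz j')]
          simp [rotAll, vtau, hi]
    rw [e]
    refine AddSubgroup.sum_mem _ fun j _ => ?_
    exact AddSubgroup.zsmul_mem _ (mem_periods.2 (hβ j)) _
  have hall : ∀ x ∈ box (NszS n m), g (rotAll n m x) = g x := by
    intro x hx
    have h2 := hφ x hx
    rcases lt_or_ge (x (some (Sum.inl 1))) n with hlt | hge
    · exact hhalf x hx hlt
    · have e : rotAll n m x (some (Sum.inl 1)) = x (some (Sum.inl 1)) - n := by
        simp only [rotAll, if_true]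
        have : x (some (Sum.inl 1)) + n = (x (some (Sum.inl 1)) - n) + 2 * n := by ring
        rw [this, Int.add_emod_right]
        exact Int.emod_eq_of_lt (by omega) (by omega)
      have h3 := hhalf (rotAll n m x) (hmem x hx) (by rw [e]; omega)
      rw [hinv x hx] at h3
      exact h3.symm
  refine Finset.sum_involution (fun x _ => rotAll n m x) ?_ ?_ hmem hinv
  · intro x hx
    rw [hall x hx]
    exact z2_add_self _
  · intro x hx _ he
    have h2 := hφ x hx
    have e := congrFun he (some (Sum.inl 1))
    simp only [rotAll, if_true] at e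
    rcases lt_or_ge (x (some (Sum.inl 1))) n with hlt | hge
    · rw [Int.emod_eq_of_lt (by omega) (by omega)] at e
      omega
    · have : x (some (Sum.inl 1)) + n = (x (some (Sum.inl 1)) - n) + 2 * n := by ring
      rw [this, Int.add_emod_right, Int.emod_eq_of_lt (by omega) (by omega)] at e
      omega

end Pool.Agent.WFP
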