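import Pool.Agent.WFP.Defs

/-!
# WFP/NIE: Nielsen transformations normalize a tuple of m+1 elements over Z^m
-/

set_option autoImplicit false

namespace Pool.Agent.WFP

open Subgroup

theorem nie_closure_update {Q ι : Type} [Group Q] [DecidableEq ι] (r : ι → Q) (i j : ι)
    (hij : i ≠ j) (k : ℤ) :
    Subgroup.closure (Set.range (Function.update r i (r i * r j ^ k))) = Subgroup.closure (Set.range r) := by
  refine le_antisymm ?_ ?_
  · rw [Subgroup.closure_le]
    rintro _ ⟨l, rfl⟩
    by_cases hl : l = i
    · subst hl
      rw [Function.update_self]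
      have h1 : r l ∈ Subgroup.closure (Set.range r) := Subgroup.subset_closure ⟨l, rfl⟩
      have h2 : r j ∈ Subgroup.closure (Set.range r) := Subgroup.subset_closure ⟨j, rfl⟩
      exact mul_mem h1 (zpow_mem h2 k)
    · rw [Function.update_of_ne hl]
      exact Subgroup.subset_closure ⟨l, rfl⟩
  · rw [Subgroup.closure_le]
    rintro _ ⟨l, rfl⟩
    by_cases hl : l = i
    · subst hl
      have h1 : r l * r j ^ k ∈ Subgroup.closure (Set.range (Function.update r l (r l * r j ^ k))) :=
        Subgroup.subset_closure ⟨l, by rw [Function.update_self]⟩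
      have h2 : r j ∈ Subgroup.closure (Set.range (Function.update r l (r l * r j ^ k))) :=
        Subgroup.subset_closure ⟨j, by rw [Function.update_of_ne (Ne.symm hij)]⟩
      have h3 := mul_mem h1 (inv_mem (zpow_mem h2 k))
      rwa [mul_inv_cancel_right] at h3
    · exact Subgroup.subset_closure ⟨l, by rw [Function.update_of_ne hl]⟩

theorem nie_closure_inv {Q ι : Type} [Group Q] [DecidableEq ι] (r : ι → Q) (i : ι) :
    Subgroup.closure (Set.range (Function.update r i (r i)⁻¹)) = Subgroup.closure (Set.range r) := by
  refine le_antisymm ?_ ?_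
  · rw [Subgroup.closure_le]
    rintro _ ⟨l, rfl⟩
    by_cases hl : l = i
    · subst hl
      rw [Function.update_self]
      exact inv_mem (Subgroup.subset_closure ⟨l, rfl⟩)
    · rw [Function.update_of_ne hl]
      exact Subgroup.subset_closure ⟨l, rfl⟩
  · rw [Subgroup.closure_le]
    rintro _ ⟨l, rfl⟩
    by_cases hl : l = i
    · subst hl
      have h1 : (r l)⁻¹ ∈ Subgroup.closure (Set.range (Function.update r l (r l)⁻¹)) :=
        Subgroup.subset_closure ⟨l, by rw [Function.update_self]⟩
      have h3 := inv_mem h1
      rwa [inv_inv] at h3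
    · exact Subgroup.subset_closure ⟨l, by rw [Function.update_of_ne hl]⟩

theorem nie_arith {x y : ℤ} (hx : x ≠ 0) (hy : y ≠ 0) (h : y.natAbs ≤ x.natAbs) :
    ∃ k : ℤ, (x + k * y).natAbs < x.natAbs := by
  rcases lt_or_gt_of_ne hx with h1 | h1 <;> rcases lt_or_gt_of_ne hy with h2 | h2
  · exact ⟨-1, by omega⟩
  · exact ⟨1, by omega⟩
  · exact ⟨1, by omega⟩
  · exact ⟨-1, by omega⟩

/-- Euclid's algorithm for a homomorphism to the integers. -/
theorem nie_euclid {Q ι : Type} [Group Q] [Fintype ι] [DecidableEq ι]
    (lam : Q →* Multiplicative ℤ) (r : ι → Q) (i1 : ι)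
    (hgen : Subgroup.closure (Set.range fun i => lam (r i)) = ⊤) :
    ∃ r' : ι → Q, Subgroup.closure (Set.range r') = Subgroup.closure (Set.range r) ∧
      lam (r' i1) = Multiplicative.ofAdd 1 ∧ ∀ i, i ≠ i1 → lam (r' i) = 1 := by
  classical
  -- a minimal tuple
  let S : Set ℕ := {n | ∃ r' : ι → Q, Subgroup.closure (Set.range r') = Subgroup.closure (Set.range r) ∧
    n = ∑ i, (Multiplicative.toAdd (lam (r' i))).natAbs}
  have hS : S.Nonempty := ⟨_, r, rfl, rfl⟩
  obtain ⟨r', hr', hmin⟩ := Nat.sInf_mem hS
  have hmin' : ∀ r'' : ι → Q, Subgroup.closure (Set.range r'') = Subgroup.closure (Set.range r) →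
      ∑ i, (Multiplicative.toAdd (lam (r' i))).natAbs ≤
        ∑ i, (Multiplicative.toAdd (lam (r'' i))).natAbs := by
    intro r'' h
    rw [← hmin]
    exact Nat.sInf_le ⟨r'', h, rfl⟩
  -- at most one nonzero value
  have hkey : ∀ i j, i ≠ j → Multiplicative.toAdd (lam (r' i)) ≠ 0 →
      Multiplicative.toAdd (lam (r' j)) ≠ 0 →
      (Multiplicative.toAdd (lam (r' j))).natAbs ≤ (Multiplicative.toAdd (lam (r' i))).natAbs →
      False := by
    intro i j hij hi hj hle
    obtain ⟨k, hk⟩ := nie_arith hi hj hle
    have h1 := hmin' (Function.update r' i (r' i * r' j ^ k))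
      ((nie_closure_update r' i j hij k).trans hr')
    have h2 : ∑ l, (Multiplicative.toAdd (lam (Function.update r' i (r' i * r' j ^ k) l))).natAbs <
        ∑ l, (Multiplicative.toAdd (lam (r' l))).natAbs := by
      refine Finset.sum_lt_sum ?_ ⟨i, Finset.mem_univ i, ?_⟩
      · intro l _
        by_cases hl : l = i
        · subst hl
          rw [Function.update_self, map_mul, map_zpow, toAdd_mul, toAdd_zpow, smul_eq_mul]
          exact hk.le
        · rw [Function.update_of_ne hl]
      · rw [Function.update_self, map_mul, map_zpow, toAdd_mul, toAdd_zpow, smul_eq_mul]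
        exact hk
    omega
  have hone : ∀ i j, Multiplicative.toAdd (lam (r' i)) ≠ 0 →
      Multiplicative.toAdd (lam (r' j)) ≠ 0 → i = j := by
    intro i j hi hj
    by_contra hij
    rcases le_total (Multiplicative.toAdd (lam (r' j))).natAbs
      (Multiplicative.toAdd (lam (r' i))).natAbs with h | h
    · exact hkey i j hij hi hj h
    · exact hkey j i (Ne.symm hij) hj hi h
  -- the values still generate
  have hgen' : Subgroup.closure (Set.range fun i => lam (r' i)) = ⊤ := by
    have h1 : (Set.range fun i => lam (r' i)) = lam '' (Set.range r') := by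
      rw [← Set.range_comp]; rfl
    have h2 : (Set.range fun i => lam (r i)) = lam '' (Set.range r) := by
      rw [← Set.range_comp]; rfl
    rw [h1, ← MonoidHom.map_closure, hr', MonoidHom.map_closure, ← h2]
    exact hgen
  -- some value is not zero
  have hex : ∃ i0, Multiplicative.toAdd (lam (r' i0)) ≠ 0 := by
    by_contra hcon
    push Not at hcon
    have h1 : Subgroup.closure (Set.range fun i => lam (r' i)) ≤ ⊥ := by
      rw [Subgroup.closure_le]
      rintro _ ⟨i, rfl⟩
      exact hcon i
    rw [hgen'] at h1
    have h2 : (Multiplicative.ofAdd (1 : ℤ)) ∈ (⊥ : Subgroup (Multiplicative ℤ)) :=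
      h1 (mem_top _)
    rw [mem_bot] at h2
    exact one_ne_zero (ofAdd_eq_one.1 h2)
  obtain ⟨i0, hi0⟩ := hex
  have hzero : ∀ i, i ≠ i0 → lam (r' i) = 1 := by
    intro i hi
    by_contra h
    exact hi (hone i i0 (fun h' => h (toAdd_eq_zero.1 h')) hi0)
  have hunit : Multiplicative.toAdd (lam (r' i0)) = 1 ∨
      Multiplicative.toAdd (lam (r' i0)) = -1 := by
    have h1 : Subgroup.closure (Set.range fun i => lam (r' i)) ≤ zpowers (lam (r' i0)) := by
      rw [Subgroup.closure_le]
      rintro _ ⟨i, rfl⟩
      by_cases hi : i = i0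
      · subst hi
        exact mem_zpowers _
      · show lam (r' i) ∈ zpowers (lam (r' i0))
        rw [hzero i hi]
        exact one_mem _
    rw [hgen'] at h1
    obtain ⟨k, hk⟩ := mem_zpowers_iff.1 (h1 (mem_top (Multiplicative.ofAdd (1 : ℤ))))
    have h2 : k * Multiplicative.toAdd (lam (r' i0)) = 1 := by
      have := congrArg Multiplicative.toAdd hk
      rwa [toAdd_zpow, toAdd_ofAdd, smul_eq_mul] at this
    exact Int.eq_one_or_neg_one_of_mul_eq_one' h2 |>.imp (fun h => h.2) (fun h => h.2)
  -- make the value one
  obtain ⟨r2, hr2, h21, h22⟩ : ∃ r2 : ι → Q, Subgroup.closure (Set.range r2) = Subgroup.closure (Set.range r) ∧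
      lam (r2 i0) = Multiplicative.ofAdd 1 ∧ ∀ i, i ≠ i0 → lam (r2 i) = 1 := by
    rcases hunit with h | h
    · exact ⟨r', hr', Multiplicative.toAdd.injective h, hzero⟩
    · refine ⟨Function.update r' i0 (r' i0)⁻¹, (nie_closure_inv r' i0).trans hr', ?_, ?_⟩
      · rw [Function.update_self, map_inv]
        apply Multiplicative.toAdd.injective
        rw [toAdd_inv, h, toAdd_ofAdd]
        norm_num
      · intro i hi
        rw [Function.update_of_ne hi]
        exact hzero i hi
  -- permute
  refine ⟨r2 ∘ Equiv.swap i0 i1, ?_, ?_, ?_⟩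
  · rw [EquivLike.range_comp]
    exact hr2
  · rw [Function.comp_apply, Equiv.swap_apply_right]
    exact h21
  · intro i hi
    rw [Function.comp_apply]
    refine h22 _ fun h => hi ?_
    have := (Equiv.swap i0 i1).injective (h.trans (Equiv.swap_apply_right i0 i1).symm)
    exact this

/-- The homomorphism forgetting the first coordinate. -/
def nieTail (m : ℕ) : Multiplicative (Fin (m + 1) → ℤ) →* Multiplicative (Fin m → ℤ) :=
  AddMonoidHom.toMultiplicative
    { toFun := fun v j => v j.succ
      map_zero' := rfl
      map_add' := fun _ _ => rfl }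

/-- The first coordinate. -/
def nieHead (m : ℕ) : Multiplicative (Fin (m + 1) → ℤ) →* Multiplicative ℤ :=
  AddMonoidHom.toMultiplicative
    { toFun := fun v => v 0
      map_zero' := rfl
      map_add' := fun _ _ => rfl }

theorem nieTail_apply (m : ℕ) (v : Multiplicative (Fin (m + 1) → ℤ)) (j : Fin m) :
    Multiplicative.toAdd (nieTail m v) j = Multiplicative.toAdd v j.succ := rfl

theorem nieHead_apply (m : ℕ) (v : Multiplicative (Fin (m + 1) → ℤ)) :
    Multiplicative.toAdd (nieHead m v) = Multiplicative.toAdd v 0 := rfl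

theorem nie_ext (m : ℕ) (v w : Multiplicative (Fin (m + 1) → ℤ))
    (h1 : nieHead m v = nieHead m w) (h2 : nieTail m v = nieTail m w) : v = w := by
  apply Multiplicative.toAdd.injective
  funext i
  refine Fin.cases ?_ (fun j => ?_) i
  · exact congrArg Multiplicative.toAdd h1
  · exact congrFun (congrArg Multiplicative.toAdd h2) j

theorem map_closure_range {Q U ι : Type} [Group Q] [Group U] (f : Q →* U) (r : ι → Q) :
    (Subgroup.closure (Set.range r)).map f = Subgroup.closure (Set.range fun i => f (r i)) := by
  rw [MonoidHom.map_closure, ← Set.range_comp]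
  rfl

/-- A tuple of m+1 elements whose images generate Z^m can be replaced by a tuple with the same
closure whose images are 0 and the standard basis. -/
theorem nielsen {Q : Type} [Group Q] (m : ℕ) (φ : Q →* Multiplicative (Fin m → ℤ))
    (r : Fin (m + 1) → Q) (hgen : Subgroup.closure (Set.range fun i => φ (r i)) = ⊤) :
    ∃ r' : Fin (m + 1) → Q,
      Subgroup.closure (Set.range r') = Subgroup.closure (Set.range r) ∧
      φ (r' 0) = 1 ∧
      ∀ j : Fin m, φ (r' j.succ) = Multiplicative.ofAdd (Pi.single j (1 : ℤ)) := by
  induction m with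
  | zero =>
    refine ⟨r, rfl, ?_, fun j => j.elim0⟩
    apply Multiplicative.toAdd.injective
    funext i
    exact i.elim0
  | succ m ih =>
    -- Euclid on the first coordinate
    have hg1 : Subgroup.closure (Set.range fun i => ((nieHead m).comp φ) (r i)) = ⊤ := by
      have h1 := map_closure_range (nieHead m) (fun i => φ (r i))
      rw [hgen] at h1
      have h2 : (⊤ : Subgroup (Multiplicative (Fin (m + 1) → ℤ))).map (nieHead m) = ⊤ := by
        rw [← MonoidHom.range_eq_map, MonoidHom.range_eq_top]
        intro k
        exact ⟨Multiplicative.ofAdd (fun _ => Multiplicative.toAdd k), rfl⟩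
      rw [h2] at h1
      exact h1.symm
    obtain ⟨r1, hr1, h11, h12⟩ := nie_euclid ((nieHead m).comp φ) r 1 hg1
    have hg2 : Subgroup.closure (Set.range fun i => φ (r1 i)) = ⊤ := by
      rw [← map_closure_range, hr1, map_closure_range]
      exact hgen
    let s : Fin (m + 1) → Q := Fin.cons (r1 0) (fun j => r1 j.succ.succ)
    have hs0 : s 0 = r1 0 := rfl
    have hsj : ∀ j : Fin m, s j.succ = r1 j.succ.succ := fun j => rfl
    have hsle : Subgroup.closure (Set.range s) ≤ Subgroup.closure (Set.range r1) := by
      rw [Subgroup.closure_le]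
      rintro _ ⟨i, rfl⟩
      refine Fin.cases ?_ (fun j => ?_) i
      · exact Subgroup.subset_closure ⟨0, rfl⟩
      · exact Subgroup.subset_closure ⟨j.succ.succ, rfl⟩
    have hne1 : ∀ j : Fin m, (j.succ.succ : Fin (m + 1 + 1)) ≠ 1 := by
      intro j h
      have := congrArg Fin.val h
      simp at this
    have hker : Subgroup.closure (Set.range s) ≤ ((nieHead m).comp φ).ker := by
      rw [Subgroup.closure_le]
      rintro _ ⟨i, rfl⟩
      refine Fin.cases ?_ (fun j => ?_) i
      · exact h12 0 (by simp)
      · exact h12 _ (hne1 j)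
    -- the other elements generate the other coordinates
    have hg3 : Subgroup.closure (Set.range fun i => ((nieTail m).comp φ) (s i)) = ⊤ := by
      rw [eq_top_iff]
      intro v _
      have h1 : (Multiplicative.ofAdd (Fin.cons 0 (Multiplicative.toAdd v) : Fin (m + 1) → ℤ)) ∈
          Subgroup.closure (Set.range fun i => φ (s i)) ⊔ zpowers (φ (r1 1)) := by
        have h2 : Subgroup.closure (Set.range fun i => φ (r1 i)) ≤
            Subgroup.closure (Set.range fun i => φ (s i)) ⊔ zpowers (φ (r1 1)) := by
          rw [Subgroup.closure_le]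
          rintro _ ⟨i, rfl⟩
          refine Fin.cases ?_ (fun i' => ?_) i
          · exact mem_sup_left (Subgroup.subset_closure ⟨0, rfl⟩)
          · refine Fin.cases ?_ (fun j => ?_) i'
            · exact mem_sup_right (mem_zpowers _)
            · exact mem_sup_left (Subgroup.subset_closure ⟨j.succ, rfl⟩)
        rw [hg2] at h2
        exact h2 (mem_top _)
      obtain ⟨x, hx, y, hy, hxy⟩ := mem_sup.1 h1
      obtain ⟨k, rfl⟩ := mem_zpowers_iff.1 hy
      have hx0 : nieHead m x = 1 := by
        have h3 : Subgroup.closure (Set.range fun i => φ (s i)) ≤ (nieHead m).ker := by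
          rw [← map_closure_range, map_le_iff_le_comap]
          exact hker
        exact h3 hx
      have hk : k = 0 := by
        have h4 := congrArg (nieHead m) hxy
        rw [map_mul, map_zpow, hx0, one_mul] at h4
        have h5 : nieHead m (φ (r1 1)) = Multiplicative.ofAdd 1 := h11
        rw [h5] at h4
        have h6 := congrArg Multiplicative.toAdd h4
        rw [toAdd_zpow, toAdd_ofAdd, smul_eq_mul, mul_one, nieHead_apply] at h6
        simpa using h6
      subst hk
      rw [zpow_zero, mul_one] at hxy
      have h7 : v = nieTail m x := by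
        rw [hxy]
        rfl
      rw [h7]
      have h8 := mem_map_of_mem (nieTail m) hx
      rw [map_closure_range] at h8
      exact h8
    obtain ⟨s', hs', hs'0, hs'j⟩ := ih ((nieTail m).comp φ) s hg3
    -- correct the element with first coordinate one
    obtain ⟨b, hb, hb'⟩ : ∃ b ∈ Subgroup.closure (Set.range s), ((nieTail m).comp φ) b =
        ((nieTail m).comp φ) (r1 1) := by
      have h9 : ((nieTail m).comp φ) (r1 1) ∈ (Subgroup.closure (Set.range s)).map ((nieTail m).comp φ) := by
        rw [map_closure_range, hg3]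
        exact mem_top _
      exact mem_map.1 h9
    have hbh : ((nieHead m).comp φ) b = 1 := hker hb
    let r' : Fin (m + 1 + 1) → Q := Fin.cons (s' 0) (Fin.cons (r1 1 * b⁻¹) (fun j => s' j.succ))
    have hr'0 : r' 0 = s' 0 := rfl
    have hr'1 : r' 1 = r1 1 * b⁻¹ := rfl
    have hr'j : ∀ j : Fin m, r' j.succ.succ = s' j.succ := fun j => rfl
    have hsle' : Subgroup.closure (Set.range s') ≤ Subgroup.closure (Set.range r') := by
      rw [Subgroup.closure_le]
      rintro _ ⟨i, rfl⟩
      refine Fin.cases ?_ (fun j => ?_) i
      · exact Subgroup.subset_closure ⟨0, rfl⟩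
      · exact Subgroup.subset_closure ⟨j.succ.succ, rfl⟩
    have hmem' : ∀ i, s' i ∈ Subgroup.closure (Set.range s) := by
      intro i
      rw [← hs']
      exact Subgroup.subset_closure ⟨i, rfl⟩
    have hhead : ∀ i, nieHead m (φ (s' i)) = 1 := fun i => hker (hmem' i)
    refine ⟨r', ?_, ?_, ?_⟩
    · rw [← hr1]
      refine le_antisymm ?_ ?_
      · rw [Subgroup.closure_le]
        rintro _ ⟨i, rfl⟩
        refine Fin.cases ?_ (fun i' => ?_) i
        · exact hsle (hmem' 0)
        · refine Fin.cases ?_ (fun j => ?_) i'
          · show r1 1 * b⁻¹ ∈ Subgroup.closure (Set.range r1)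
            exact mul_mem (Subgroup.subset_closure ⟨1, rfl⟩) (inv_mem (hsle hb))
          · exact hsle (hmem' j.succ)
      · rw [Subgroup.closure_le]
        have hss : Subgroup.closure (Set.range s) ≤ Subgroup.closure (Set.range r') := by
          rw [← hs']
          exact hsle'
        rintro _ ⟨i, rfl⟩
        refine Fin.cases ?_ (fun i' => ?_) i
        · exact hss (Subgroup.subset_closure ⟨0, rfl⟩)
        · refine Fin.cases ?_ (fun j => ?_) i'
          · have h1 : r1 1 * b⁻¹ ∈ Subgroup.closure (Set.range r') := Subgroup.subset_closure ⟨1, rfl⟩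
            have h2 := mul_mem h1 (hss hb)
            rw [inv_mul_cancel_right] at h2
            exact h2
          · exact hss (Subgroup.subset_closure ⟨j.succ, rfl⟩)
    · apply nie_ext
      · rw [map_one]
        exact hhead 0
      · rw [map_one]
        exact hs'0
    · intro j
      refine Fin.cases ?_ (fun j' => ?_) j
      · show φ (r1 1 * b⁻¹) = _
        apply nie_ext
        · have h1 : nieHead m (φ (r1 1)) = Multiplicative.ofAdd 1 := h11
          have h2 : nieHead m (φ b) = 1 := hbh
          rw [map_mul, map_mul, map_inv, map_inv, h1, h2, inv_one, mul_one]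
          apply Multiplicative.toAdd.injective
          rw [nieHead_apply, toAdd_ofAdd, toAdd_ofAdd, Pi.single_eq_same]
        · have h2 : nieTail m (φ b) = nieTail m (φ (r1 1)) := hb'
          rw [map_mul, map_mul, map_inv, map_inv, h2, mul_inv_cancel]
          apply Multiplicative.toAdd.injective
          funext l
          rw [nieTail_apply, toAdd_ofAdd, Pi.single_eq_of_ne (Fin.succ_ne_zero l)]
          rfl
      · show φ (s' j'.succ) = _
        apply nie_ext
        · rw [hhead]
          apply Multiplicative.toAdd.injective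
          rw [nieHead_apply, toAdd_ofAdd, Pi.single_eq_of_ne (Fin.succ_ne_zero j').symm]
          rfl
        · have h1 : nieTail m (φ (s' j'.succ)) = Multiplicative.ofAdd (Pi.single j' (1 : ℤ)) :=
            hs'j j'
          rw [h1]
          apply Multiplicative.toAdd.injective
          funext l
          rw [nieTail_apply, toAdd_ofAdd, toAdd_ofAdd]
          by_cases hl : l = j'
          · subst hl
            rw [Pi.single_eq_same, Pi.single_eq_same]
          · rw [Pi.single_eq_of_ne hl, Pi.single_eq_of_ne (fun h => hl (Fin.succ_injective _ h))]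

end Pool.Agent.WFP
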