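import Pool.Agent.WFP.Defs

/-!
# WFP/QR1: universal property and exponent homomorphisms of the group `QG m p`
-/

set_option autoImplicit false

namespace Pool.Agent.WFP

/-- The homomorphism from a cyclic group of order n given by an element x with x^n = 1. -/
noncomputable def zmHom {U : Type} [Group U] (n : ℕ) (x : U) (hx : x ^ n = 1) :
    Multiplicative (ZMod n) →* U :=
  AddMonoidHom.toMultiplicativeLeft (ZMod.lift n ⟨zmultiplesHom (Additive U) (Additive.ofMul x), by
    rw [zmultiplesHom_apply, natCast_zsmul, ← ofMul_pow, hx, ofMul_one]⟩)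

theorem zmHom_int {U : Type} [Group U] (n : ℕ) (x : U) (hx : x ^ n = 1) (k : ℤ) :
    zmHom n x hx (Multiplicative.ofAdd (k : ZMod n)) = x ^ k := by
  have h : (ZMod.lift n ⟨zmultiplesHom (Additive U) (Additive.ofMul x), by
    rw [zmultiplesHom_apply, natCast_zsmul, ← ofMul_pow, hx, ofMul_one]⟩) (k : ZMod n) =
      Additive.ofMul (x ^ k) := by
    rw [ZMod.lift_coe]
    show zmultiplesHom (Additive U) (Additive.ofMul x) k = _
    rw [zmultiplesHom_apply, ofMul_zpow]
  exact congrArg Additive.toMul h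

theorem zmHom_one {U : Type} [Group U] (n : ℕ) (x : U) (hx : x ^ n = 1) :
    zmHom n x hx (Multiplicative.ofAdd (1 : ZMod n)) = x := by
  have h := zmHom_int n x hx 1
  rwa [Int.cast_one, zpow_one] at h

theorem zmHom_val {U : Type} [Group U] (n : ℕ) [NeZero n] (x : U) (hx : x ^ n = 1)
    (a : Multiplicative (ZMod n)) :
    zmHom n x hx a = x ^ (Multiplicative.toAdd a).val := by
  have h := zmHom_int n x hx ((Multiplicative.toAdd a).val : ℤ)
  rw [Int.cast_natCast, ZMod.natCast_zmod_val, zpow_natCast, ofAdd_toAdd] at h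
  exact h

variable {m : ℕ} {p : Fin 3 → ℕ}

/-- The family of homomorphisms which defines a representation. -/
noncomputable def repFam {U : Type} [Group U] (T : Fin m → U) (X : Fin 3 → U)
    (hX : ∀ l, X l ^ p l = 1) : ∀ i, Fac m p i →* U
  | Sum.inl j => (zpowersHom U (T j) : Multiplicative ℤ →* U)
  | Sum.inr l => (zmHom (p l) (X l) (hX l) : Multiplicative (ZMod (p l)) →* U)

/-- Universal property. -/
theorem exists_rep {U : Type} [Group U] (T : Fin m → U) (X : Fin 3 → U)
    (hX : ∀ l, X l ^ p l = 1) :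
    ∃ ρ : QG m p →* U, (∀ j, ρ (gT j) = T j) ∧ ∀ l, ρ (gX l) = X l := by
  refine ⟨Monoid.CoprodI.lift (repFam T X hX), ?_, ?_⟩
  · intro j
    unfold gT
    rw [Monoid.CoprodI.lift_of]
    show zpowersHom U (T j) (Multiplicative.ofAdd (1 : ℤ)) = T j
    rw [zpowersHom_apply, toAdd_ofAdd, zpow_one]
  · intro l
    unfold gX
    rw [Monoid.CoprodI.lift_of]
    exact zmHom_one (p l) (X l) (hX l)

/-- The generators generate. -/
theorem closure_gen [∀ l, NeZero (p l)] (H : Subgroup (QG m p)) (hT : ∀ j, gT j ∈ H)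
    (hX : ∀ l, gX l ∈ H) : H = ⊤ := by
  rw [eq_top_iff]
  intro q _
  induction q using Monoid.CoprodI.induction_on with
  | one => exact one_mem H
  | of i x =>
    match i, x with
    | Sum.inl j, x =>
      have h1 : (Monoid.CoprodI.of (M := Fac m p) (i := Sum.inl j) x : QG m p) =
          (gT j) ^ (Multiplicative.toAdd (x : Multiplicative ℤ)) := by
        unfold gT
        rw [← map_zpow]
        congr 1
        show x = (Multiplicative.ofAdd (1 : ℤ) : Multiplicative ℤ) ^
          (Multiplicative.toAdd (x : Multiplicative ℤ))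
        rw [← ofAdd_zsmul, smul_eq_mul, mul_one]
        rfl
      rw [h1]
      exact zpow_mem (hT j) _
    | Sum.inr l, x =>
      have h1 : (Monoid.CoprodI.of (M := Fac m p) (i := Sum.inr l) x : QG m p) =
          (gX l) ^ ((Multiplicative.toAdd (x : Multiplicative (ZMod (p l)))).val) := by
        unfold gX
        rw [← map_pow]
        congr 1
        show x = (Multiplicative.ofAdd (1 : ZMod (p l)) : Multiplicative (ZMod (p l))) ^
          ((Multiplicative.toAdd (x : Multiplicative (ZMod (p l)))).val)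
        rw [← ofAdd_nsmul, nsmul_eq_mul, mul_one, ZMod.natCast_zmod_val]
        rfl
      rw [h1]
      exact pow_mem (hX l) _
  | mul x y hx hy => exact mul_mem (hx trivial) (hy trivial)

theorem hom_ext_Q [∀ l, NeZero (p l)] {U : Type} [Group U] (f g : QG m p →* U)
    (hT : ∀ j, f (gT j) = g (gT j)) (hX : ∀ l, f (gX l) = g (gX l)) : f = g := by
  have h := closure_gen (f.eqLocus g) hT hX
  ext1 q
  ext x
  have h2 : (Monoid.CoprodI.of (i := q) x : QG m p) ∈ f.eqLocus g := by
    rw [h]
    exact Subgroup.mem_top _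
  exact h2

theorem gX_pow (l : Fin 3) : (gX l : QG m p) ^ p l = 1 := by
  unfold gX
  rw [← map_pow]
  have h : (Multiplicative.ofAdd (1 : ZMod (p l)) : Multiplicative (ZMod (p l))) ^ p l = 1 := by
    rw [← ofAdd_nsmul, nsmul_eq_mul, mul_one, ZMod.natCast_self]
    rfl
  have h2 : ((Multiplicative.ofAdd (1 : ZMod (p l)) : Multiplicative (ZMod (p l))) :
      Fac m p (Sum.inr l)) ^ p l = 1 := h
  rw [h2, map_one]

/-- The exponent homomorphisms, and the formula for homomorphisms to commutative groups. -/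
theorem exists_exponents [∀ l, NeZero (p l)] :
    ∃ (φ : QG m p →* Multiplicative (Fin m → ℤ)) (ψ : ∀ l : Fin 3, QG m p →* Multiplicative (ZMod (p l))),
      (∀ j, φ (gT j) = Multiplicative.ofAdd (Pi.single j (1 : ℤ))) ∧ (∀ l, φ (gX l) = 1) ∧
      (∀ l j, ψ l (gT j) = 1) ∧
      (∀ l l', ψ l (gX l') = if l' = l then Multiplicative.ofAdd (1 : ZMod (p l)) else 1) ∧
      ∀ (B : Type) [CommGroup B] (f : QG m p →* B) (q : QG m p),
        f q = (∏ j, f (gT j) ^ (Multiplicative.toAdd (φ q) j)) *
          ∏ l, f (gX l) ^ ((Multiplicative.toAdd (ψ l q)).val) := by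
  obtain ⟨φ, hφT, hφX⟩ := exists_rep (m := m) (p := p)
    (fun j => (Multiplicative.ofAdd (Pi.single j (1 : ℤ)) : Multiplicative (Fin m → ℤ)))
    (fun _ => 1) (fun _ => one_pow _)
  have hψ : ∀ l : Fin 3, ∃ ψ : QG m p →* Multiplicative (ZMod (p l)), (∀ j, ψ (gT j) = 1) ∧
      ∀ l', ψ (gX l') = if l' = l then Multiplicative.ofAdd (1 : ZMod (p l)) else 1 := by
    intro l
    obtain ⟨ψ, h1, h2⟩ := exists_rep (m := m) (p := p) (fun _ => (1 : Multiplicative (ZMod (p l))))
      (fun l' => if l' = l then Multiplicative.ofAdd (1 : ZMod (p l)) else 1) (by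
        intro l'
        by_cases h : l' = l
        · subst h
          rw [if_pos rfl, ← ofAdd_nsmul, nsmul_eq_mul, mul_one, ZMod.natCast_self]
          rfl
        · rw [if_neg h, one_pow])
    exact ⟨ψ, h1, h2⟩
  choose ψ hψT hψX using hψ
  refine ⟨φ, ψ, hφT, hφX, hψT, fun l l' => hψX l l', ?_⟩
  intro B _ f q
  have hpow : ∀ l, f (gX l) ^ p l = 1 := by
    intro l
    rw [← map_pow, gX_pow, map_one]
  let co : ∀ j : Fin m, Multiplicative (Fin m → ℤ) →* Multiplicative ℤ := fun j =>
    AddMonoidHom.toMultiplicative (Pi.evalAddMonoidHom (fun _ : Fin m => ℤ) j)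
  let g : QG m p →* B := (∏ j, (zpowersHom B (f (gT j))).comp ((co j).comp φ)) *
    ∏ l, (zmHom (p l) (f (gX l)) (hpow l)).comp (ψ l)
  have hg : ∀ x, g x = (∏ j, f (gT j) ^ (Multiplicative.toAdd (φ x) j)) *
          ∏ l, f (gX l) ^ ((Multiplicative.toAdd (ψ l x)).val) := by
    intro x
    show ((∏ j, (zpowersHom B (f (gT j))).comp ((co j).comp φ)) *
      ∏ l, (zmHom (p l) (f (gX l)) (hpow l)).comp (ψ l)) x = _
    rw [MonoidHom.mul_apply, MonoidHom.finset_prod_apply, MonoidHom.finset_prod_apply]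
    congr 1
    refine Finset.prod_congr rfl fun l _ => ?_
    rw [MonoidHom.comp_apply, zmHom_val]
  have hfg : f = g := by
    refine hom_ext_Q f g ?_ ?_
    · intro j
      rw [hg, hφT]
      have h1 : ∏ l, f (gX l) ^ ((Multiplicative.toAdd (ψ l (gT j))).val) = 1 := by
        refine Finset.prod_eq_one fun l _ => ?_
        rw [hψT, toAdd_one, ZMod.val_zero, pow_zero]
      rw [h1, mul_one, Finset.prod_eq_single j]
      · rw [toAdd_ofAdd, Pi.single_eq_same, zpow_one]
      · intro k _ hk
        rw [toAdd_ofAdd, Pi.single_eq_of_ne hk, zpow_zero]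
      · intro h
        exact absurd (Finset.mem_univ j) h
    · intro l
      rw [hg, hφX]
      have h1 : ∏ j, f (gT j) ^ (Multiplicative.toAdd (1 : Multiplicative (Fin m → ℤ)) j) = 1 := by
        refine Finset.prod_eq_one fun j _ => ?_
        rw [toAdd_one, Pi.zero_apply, zpow_zero]
      rw [h1, one_mul, Finset.prod_eq_single l]
      · rw [hψX, if_pos rfl, toAdd_ofAdd]
        have h2 := zmHom_one (p l) (f (gX l)) (hpow l)
        rw [zmHom_val, toAdd_ofAdd] at h2
        exact h2.symm
      · intro l' _ hl'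
        rw [hψX, if_neg (Ne.symm hl'), toAdd_one, ZMod.val_zero, pow_zero]
      · intro h
        exact absurd (Finset.mem_univ l) h
  rw [← hg, ← hfg]

end Pool.Agent.WFP
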