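import Pool.Agent.WFP.QH
import Pool.Agent.WFP.QR1

/-!
# WFP/RPS: the family of representations of `QG m p` in the unit quaternions
-/

set_option autoImplicit false

open Quaternion

noncomputable section

namespace Pool.Agent.WFP

/-- The quaternion i. -/
def iS2 : S2 := ⟨⟨0, 1, 0, 0⟩, norm_eq_one_of_sq (by norm_num), rfl⟩

/-- The moving axis. -/
def axis3 (s : ℝ) : S2 := ⟨⟨0, Real.cos (Real.pi * s), Real.sin (Real.pi * s), 0⟩,
  norm_eq_one_of_sq (by
    have h := Real.sin_sq_add_cos_sq (Real.pi * s)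
    linear_combination h), rfl⟩

theorem continuous_axis3 : Continuous axis3 := by
  unfold axis3
  refine Continuous.subtype_mk ?_ _
  have : (fun s : ℝ => (⟨0, Real.cos (Real.pi * s), Real.sin (Real.pi * s), 0⟩ : ℍ[ℝ])) =
      fun s : ℝ => Real.cos (Real.pi * s) • (⟨0, 1, 0, 0⟩ : ℍ[ℝ]) +
        Real.sin (Real.pi * s) • (⟨0, 0, 1, 0⟩ : ℍ[ℝ]) := by
    funext s
    ext <;> simp
  rw [this]
  have h1 : Continuous fun s : ℝ => Real.cos (Real.pi * s) :=
    Real.continuous_cos.comp (continuous_const.mul continuous_id)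
  have h2 : Continuous fun s : ℝ => Real.sin (Real.pi * s) :=
    Real.continuous_sin.comp (continuous_const.mul continuous_id)
  exact (h1.smul continuous_const).add (h2.smul continuous_const)

variable {m : ℕ} {p : Fin 3 → ℕ}

/-- Images of the generators of finite order. -/
def Xv (α : Fin 3 → ℝ) (s : ℝ) (y : Y m) (l : Fin 3) : S3 :=
  if l = 0 then eS (α 0) y.1 else if l = 1 then eS (α 1) iS2 else eS (α 2) (axis3 s)

/-- The correction factors. -/
def xi (c : Fin m → Fin 3 → ℕ) (α : Fin 3 → ℝ) (s : ℝ) (y : Y m) (j : Fin m) : S3 :=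
  Xv α s y 0 ^ c j 0 * Xv α s y 1 ^ c j 1 * Xv α s y 2 ^ c j 2

/-- Images of the generators of infinite order. -/
def Tv (c : Fin m → Fin 3 → ℕ) (α : Fin 3 → ℝ) (s : ℝ) (y : Y m) (j : Fin m) : S3 :=
  y.2 j * (xi c α s y j)⁻¹

theorem continuous_Xv (α : Fin 3 → ℝ) (l : Fin 3) :
    Continuous fun z : ℝ × Y m => Xv α z.1 z.2 l := by
  unfold Xv
  split_ifs
  · exact (continuous_eS (α 0)).comp (continuous_fst.comp continuous_snd)
  · exact continuous_const
  · exact (continuous_eS (α 2)).comp (continuous_axis3.comp continuous_fst)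

theorem continuous_xi (c : Fin m → Fin 3 → ℕ) (α : Fin 3 → ℝ) (j : Fin m) :
    Continuous fun z : ℝ × Y m => xi c α z.1 z.2 j := by
  unfold xi
  exact (((continuous_Xv α 0).pow _).mul ((continuous_Xv α 1).pow _)).mul
    ((continuous_Xv α 2).pow _)

theorem continuous_Tv (c : Fin m → Fin 3 → ℕ) (α : Fin 3 → ℝ) (j : Fin m) :
    Continuous fun z : ℝ × Y m => Tv c α z.1 z.2 j := by
  unfold Tv
  exact ((continuous_apply j).comp (continuous_snd.comp continuous_snd)).mul
    (continuous_xi c α j).inv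

/-- The hypotheses on the family of representations. -/
structure IsRep (c : Fin m → Fin 3 → ℕ) (α : Fin 3 → ℝ) (ρ : ℝ → Y m → (QG m p →* S3)) :
    Prop where
  T : ∀ s y j, ρ s y (gT j) = Tv c α s y j
  X : ∀ s y l, ρ s y (gX l) = Xv α s y l

theorem exists_isRep (c : Fin m → Fin 3 → ℕ) (α : Fin 3 → ℝ)
    (hα : ∀ l, ∃ k : ℕ, (p l : ℝ) * α l = 2 * Real.pi * k) :
    ∃ ρ : ℝ → Y m → (QG m p →* S3), IsRep c α ρ := by
  have h : ∀ (s : ℝ) (y : Y m), ∃ ρ : QG m p →* S3, (∀ j, ρ (gT j) = Tv c α s y j) ∧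
      ∀ l, ρ (gX l) = Xv α s y l := by
    intro s y
    apply exists_rep
    intro l
    obtain ⟨k, hk⟩ := hα l
    unfold Xv
    split_ifs with h0 h1
    · subst h0; rw [eS_pow, hk, eS_two_pi]
    · subst h1; rw [eS_pow, hk, eS_two_pi]
    · have h2 : l = 2 := by omega
      subst h2; rw [eS_pow, hk, eS_two_pi]
  choose ρ hρ using h
  exact ⟨ρ, ⟨fun s y j => (hρ s y).1 j, fun s y l => (hρ s y).2 l⟩⟩

variable [∀ l, NeZero (p l)] {c : Fin m → Fin 3 → ℕ} {α : Fin 3 → ℝ}
  {ρ : ℝ → Y m → (QG m p →* S3)}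

theorem IsRep.continuous (h : IsRep c α ρ) (q : QG m p) :
    Continuous fun z : ℝ × Y m => ρ z.1 z.2 q := by
  let H : Subgroup (QG m p) :=
    { carrier := {q | Continuous fun z : ℝ × Y m => ρ z.1 z.2 q}
      mul_mem' := by
        intro a b ha hb
        simp only [Set.mem_ofPred_eq, map_mul] at *
        exact ha.mul hb
      one_mem' := by
        simp only [Set.mem_ofPred_eq, map_one]
        exact continuous_const
      inv_mem' := by
        intro a ha
        simp only [Set.mem_ofPred_eq, map_inv] at *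
        exact ha.inv }
  have hH : H = ⊤ := closure_gen H
    (fun j => by
      show Continuous fun z : ℝ × Y m => ρ z.1 z.2 (gT j)
      simp only [h.T]; exact continuous_Tv c α j)
    (fun l => by
      show Continuous fun z : ℝ × Y m => ρ z.1 z.2 (gX l)
      simp only [h.X]; exact continuous_Xv α l)
  have : q ∈ H := by rw [hH]; exact Subgroup.mem_top q
  exact this

/-- Comparison of two representations which differ by signs. -/
theorem twist (f g : QG m p →* S3) (ε : QG m p →* ℤˣ)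
    (hT : ∀ j, f (gT j) = sgnS (ε (gT j)) * g (gT j))
    (hX : ∀ l, f (gX l) = sgnS (ε (gX l)) * g (gX l)) (q : QG m p) :
    f q = sgnS (ε q) * g q := by
  let k : QG m p →* S3 :=
    { toFun := fun q => sgnS (ε q) * g q
      map_one' := by simp
      map_mul' := by
        intro a b
        simp only [map_mul]
        have := sgnS_comm (ε b) (g a)
        calc sgnS (ε a) * sgnS (ε b) * (g a * g b)
            = sgnS (ε a) * (sgnS (ε b) * g a) * g b := by group
          _ = sgnS (ε a) * (g a * sgnS (ε b)) * g b := by rw [this]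
          _ = sgnS (ε a) * g a * (sgnS (ε b) * g b) := by group }
  have : f = k := hom_ext_Q f k hT hX
  rw [this]
  rfl

theorem Xv_etaY (s : ℝ) (y : Y m) (j : Fin m) (l : Fin 3) :
    Xv α s (etaY j y) l = Xv α s y l := rfl

theorem xi_etaY (s : ℝ) (y : Y m) (j i : Fin m) :
    xi c α s (etaY j y) i = xi c α s y i := rfl

omit [∀ l, NeZero (p l)] in
/-- The sign characters. -/
theorem exists_sign (A : Fin m → Prop) [DecidablePred A] :
    ∃ ε : QG m p →* ℤˣ, (∀ j, ε (gT j) = if A j then -1 else 1) ∧ ∀ l, ε (gX l) = 1 :=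
  exists_rep (fun j => if A j then -1 else 1) (fun _ => 1) (fun _ => one_pow _)

theorem IsRep.eta (h : IsRep c α ρ) (j : Fin m) (ε : QG m p →* ℤˣ)
    (hε : ∀ i, ε (gT i) = if i = j then -1 else 1) (hε' : ∀ l, ε (gX l) = 1)
    (s : ℝ) (y : Y m) (q : QG m p) : ρ s (etaY j y) q = sgnS (ε q) * ρ s y q := by
  apply twist
  · intro i
    rw [h.T, h.T, hε]
    unfold Tv
    rw [xi_etaY]
    by_cases hij : i = j
    · subst hij
      rw [if_pos rfl, ← mul_assoc, sgnS_neg_one]
      simp [etaY]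
    · rw [if_neg hij, map_one, one_mul]
      simp [etaY, hij]
  · intro l
    rw [h.X, h.X, hε', map_one, one_mul, Xv_etaY]

theorem tauS2_axis3 {s : ℝ} (hs : s = 0 ∨ s = 1) : tauS2 (axis3 s) = axis3 s := by
  have h : Real.sin (Real.pi * s) = 0 := by
    rcases hs with rfl | rfl <;> simp
  apply Subtype.ext
  apply QuaternionAlgebra.ext
  · rfl
  · rfl
  · simp [tauS2, tauH, axis3, h]
  · simp [tauS2, tauH, axis3]

theorem tauS2_iS2 : tauS2 iS2 = iS2 := by
  apply Subtype.ext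
  apply QuaternionAlgebra.ext
  · rfl
  · rfl
  · simp [tauS2, tauH, iS2]
  · simp [tauS2, tauH, iS2]

theorem tau_Xv {s : ℝ} (hs : s = 0 ∨ s = 1) (y : Y m) (l : Fin 3) :
    tauHom (Xv α s y l) = Xv α s (tauY y) l := by
  unfold Xv
  split_ifs
  · rw [tauHom_eS]; rfl
  · rw [tauHom_eS, tauS2_iS2]
  · rw [tauHom_eS, tauS2_axis3 hs]

theorem tau_xi {s : ℝ} (hs : s = 0 ∨ s = 1) (y : Y m) (j : Fin m) :
    tauHom (xi c α s y j) = xi c α s (tauY y) j := by
  unfold xi
  simp only [map_mul, map_pow, tau_Xv hs]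

theorem IsRep.tau (h : IsRep c α ρ) {s : ℝ} (hs : s = 0 ∨ s = 1) (y : Y m) (q : QG m p) :
    ρ s (tauY y) q = tauHom (ρ s y q) := by
  have : ρ s (tauY y) = tauHom.comp (ρ s y) := by
    apply hom_ext_Q
    · intro j
      rw [MonoidHom.comp_apply, h.T, h.T]
      unfold Tv
      rw [map_mul, map_inv, tau_xi hs]
      rfl
    · intro l
      rw [MonoidHom.comp_apply, h.X, h.X, tau_Xv hs]
  rw [this]
  rfl

theorem tauS2_of_fix {a : S2} (ha : (a : ℍ[ℝ]).imJ = 0 ∧ (a : ℍ[ℝ]).imK = 0) : tauS2 a = a := by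
  apply Subtype.ext
  apply QuaternionAlgebra.ext
  · rfl
  · rfl
  · simp [tauS2, tauH, ha.1]
  · simp [tauS2, tauH, ha.2]

theorem IsRep.fix (h : IsRep c α ρ) {s : ℝ} (hs : s = 0 ∨ s = 1) (y : Y m) (hy : IsFix y)
    (ε : QG m p →* ℤˣ)
    (hε : ∀ j, ((y.2 j : ℍ[ℝ]).re = 0 ∧ (y.2 j : ℍ[ℝ]).imI = 0) → ε (gT j) = -1)
    (hε1 : ∀ j, ¬ ((y.2 j : ℍ[ℝ]).re = 0 ∧ (y.2 j : ℍ[ℝ]).imI = 0) → ε (gT j) = 1)
    (hε' : ∀ l, ε (gX l) = 1) (q : QG m p) :
    tauHom (ρ s y q) = sgnS (ε q) * ρ s y q := by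
  have hX : ∀ l, tauHom (Xv α s y l) = Xv α s y l := by
    intro l
    unfold Xv
    split_ifs
    · rw [tauHom_eS, tauS2_of_fix hy.1]
    · rw [tauHom_eS, tauS2_iS2]
    · rw [tauHom_eS, tauS2_axis3 hs]
  have hxi : ∀ j, tauHom (xi c α s y j) = xi c α s y j := by
    intro j
    unfold xi
    simp only [map_mul, map_pow, hX]
  have := twist (tauHom.comp (ρ s y)) (ρ s y) ε ?_ ?_ q
  · exact this
  · intro j
    rw [MonoidHom.comp_apply, h.T]
    unfold Tv
    rw [map_mul, map_inv, hxi, ← mul_assoc]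
    congr 1
    by_cases hj : (y.2 j : ℍ[ℝ]).re = 0 ∧ (y.2 j : ℍ[ℝ]).imI = 0
    · rw [hε j hj, sgnS_neg_one]
      apply S3_ext
      · simp [tauHom, tauS3, tauH, hj.1]
      · simp [tauHom, tauS3, tauH, hj.2]
      · simp [tauHom, tauS3, tauH]
      · simp [tauHom, tauS3, tauH]
    · rw [hε1 j hj, map_one, one_mul]
      have hj' := (hy.2 j).resolve_right hj
      apply S3_ext
      · simp [tauHom, tauS3, tauH]
      · simp [tauHom, tauS3, tauH]
      · simp [tauHom, tauS3, tauH, hj'.1]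
      · simp [tauHom, tauS3, tauH, hj'.2]
  · intro l
    rw [MonoidHom.comp_apply, h.X, hX, hε', map_one, one_mul]

theorem circ_injective : Function.Injective circ := by
  intro x y h
  have h1 := congrArg (fun q : S3 => (q : ℍ[ℝ]).re) h
  have h2 := congrArg (fun q : S3 => (q : ℍ[ℝ]).imI) h
  apply Circle.ext
  exact Complex.ext h1 h2

theorem eS_circ (β : ℝ) (a : S2) (ha : (a : ℍ[ℝ]).imJ = 0 ∧ (a : ℍ[ℝ]).imK = 0) :
    eS β a = circ (Circle.exp (β * (a : ℍ[ℝ]).imI)) := by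
  have h := S2_sqs a
  rw [ha.1, ha.2] at h
  have h2 : (a : ℍ[ℝ]).imI = 1 ∨ (a : ℍ[ℝ]).imI = -1 := by
    have : ((a : ℍ[ℝ]).imI - 1) * ((a : ℍ[ℝ]).imI + 1) = 0 := by nlinarith
    rcases mul_eq_zero.1 this with h | h
    · left; linarith
    · right; linarith
  have e1 : ((Circle.exp (β * (a : ℍ[ℝ]).imI) : Circle) : ℂ).re = Real.cos β := by
    rw [Circle.coe_exp, Complex.exp_ofReal_mul_I_re]
    rcases h2 with h | h <;> simp [h]
  have e2 : ((Circle.exp (β * (a : ℍ[ℝ]).imI) : Circle) : ℂ).im =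
      Real.sin β * (a : ℍ[ℝ]).imI := by
    rw [Circle.coe_exp, Complex.exp_ofReal_mul_I_im]
    rcases h2 with h | h <;> simp [h]
  apply S3_ext
  · exact e1.symm
  · exact e2.symm
  · simp [eS, ha.1, circ]
  · simp [eS, ha.2, circ]

end Pool.Agent.WFP
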