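import Pool.Agent.WFP.TOP
import Pool.Agent.WFP.NIE
import Pool.Agent.WFP.ANG
import Pool.Agent.WFP.RPS

/-!
# WFP/COR: the core theorem for the group `QG m p`
-/

set_option autoImplicit false

open Quaternion

namespace Pool.Agent.WFP

/-- Imaginary components. -/
def cmp (q : S3) (c : Fin 3) : ℝ :=
  if c = 0 then (q : ℍ[ℝ]).imI else if c = 1 then (q : ℍ[ℝ]).imJ else (q : ℍ[ℝ]).imK

theorem continuous_cmp (c : Fin 3) : Continuous fun q : S3 => cmp q c := by
  unfold cmp
  split_ifs
  · exact Quaternion.continuous_imI.comp continuous_subtype_val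
  · exact Quaternion.continuous_imJ.comp continuous_subtype_val
  · exact Quaternion.continuous_imK.comp continuous_subtype_val

theorem cmp_neg (q : S3) (c : Fin 3) : cmp (-q) c = -cmp q c := by
  unfold cmp
  rw [coe_neg_S3]
  split_ifs <;> simp

theorem cmp_tau (q : S3) (c : Fin 3) : cmp (tauHom q) c = (if c = 0 then 1 else -1) * cmp q c := by
  unfold cmp
  split_ifs <;> simp [tauHom, tauS3, tauH]

theorem sgnS_if (P : Prop) [Decidable P] (x : S3) :
    sgnS (if P then -1 else 1) * x = if P then -x else x := by
  split_ifs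
  · exact sgnS_neg_one x
  · rw [map_one, one_mul]

/-- The three circle elements multiply to an exponential. -/
theorem circ_prod_imI (x y z : ℝ) :
    (circ (Circle.exp x * Circle.exp y * Circle.exp z) : ℍ[ℝ]).imI = Real.sin (x + y + z) := by
  rw [← Circle.exp_add, ← Circle.exp_add]
  show ((Circle.exp (x + y + z) : Circle) : ℂ).im = _
  rw [Circle.coe_exp, Complex.exp_ofReal_mul_I_im]

/-- Generators of the images of the tuple. -/
theorem closure_phi {m : ℕ} {p : Fin 3 → ℕ} (φ : QG m p →* Multiplicative (Fin m → ℤ))
    (hφ : ∀ j, φ (gT j) = Multiplicative.ofAdd (Pi.single j (1 : ℤ)))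
    (r : Fin (m + 1) → QG m p) (hr : Subgroup.normalClosure (Set.range r) = ⊤) :
    Subgroup.closure (Set.range fun i => φ (r i)) = ⊤ := by
  set H := Subgroup.closure (Set.range fun i => φ (r i)) with hH
  have h1 : Subgroup.normalClosure (Set.range r) ≤ H.comap φ := by
    apply Subgroup.normalClosure_le_normal
    rintro _ ⟨i, rfl⟩
    exact Subgroup.subset_closure ⟨i, rfl⟩
  rw [hr, top_le_iff] at h1
  have h2 : ∀ j, Multiplicative.ofAdd (Pi.single j (1 : ℤ)) ∈ H := by
    intro j
    rw [← hφ j]
    have : gT j ∈ H.comap φ := by rw [h1]; exact Subgroup.mem_top _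
    exact this
  rw [eq_top_iff]
  intro v _
  have h3 : v = ∏ j, (Multiplicative.ofAdd (Pi.single j (1 : ℤ) : Fin m → ℤ)) ^
      (Multiplicative.toAdd v j) := by
    apply Multiplicative.toAdd.injective
    rw [toAdd_prod]
    simp only [toAdd_zpow, toAdd_ofAdd]
    ext i
    simp [Finset.sum_apply, Pi.single_apply]
  rw [h3]
  exact Subgroup.prod_mem _ fun j _ => Subgroup.zpow_mem _ (h2 j) _

/-- m+1 elements do not normally generate the free product of m infinite cyclic groups and three
cyclic groups of different odd prime orders. -/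
theorem core_Q (m : ℕ) (p : Fin 3 → ℕ) (hp : ∀ l, (p l).Prime) (hodd : ∀ l, Odd (p l))
    (hinj : Function.Injective p) (r : Fin (m + 1) → QG m p) :
    Subgroup.normalClosure (Set.range r) ≠ ⊤ := by
  classical
  intro hr
  have : ∀ l, Fact (p l).Prime := fun l => ⟨hp l⟩
  have : ∀ l, NeZero (p l) := fun l => ⟨(hp l).ne_zero⟩
  obtain ⟨φ, ψ, hφT, hφX, hψT, hψX, hform⟩ := exists_exponents (m := m) (p := p)
  obtain ⟨r', hcl, hr0, hrj⟩ := nielsen m φ r (closure_phi φ hφT r hr)
  -- the new tuple is normally generating
  have hr' : Subgroup.normalClosure (Set.range r') = ⊤ := by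
    rw [eq_top_iff, ← hr]
    apply Subgroup.normalClosure_le_normal
    refine subset_trans ?_ (Subgroup.closure_le_normalClosure (s := Set.range r'))
    rw [hcl]
    exact Subgroup.subset_closure
  -- a normal subgroup which contains the tuple is everything
  have key : ∀ N : Subgroup (QG m p), N.Normal → (∀ i, r' i ∈ N) → ∀ q, q ∈ N := by
    intro N hN h q
    have : Subgroup.normalClosure (Set.range r') ≤ N := by
      apply Subgroup.normalClosure_le_normal
      rintro _ ⟨i, rfl⟩
      exact h i
    rw [hr', top_le_iff] at this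
    rw [this]
    exact Subgroup.mem_top q
  -- exponents
  set c : Fin m → Fin 3 → ℕ := fun j l => (Multiplicative.toAdd (ψ l (r' j.succ))).val with hc
  set e : ∀ l : Fin 3, ZMod (p l) := fun l => Multiplicative.toAdd (ψ l (r' 0)) with he
  -- value formulas for homomorphisms to commutative groups
  have val0 : ∀ (B : Type) [CommGroup B] (f : QG m p →* B),
      f (r' 0) = ∏ l, f (gX l) ^ (e l).val := by
    intro B _ f
    rw [hform B f (r' 0), hr0]
    simp [he]
  have valj : ∀ (B : Type) [CommGroup B] (f : QG m p →* B) (j : Fin m),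
      f (r' j.succ) = f (gT j) * ∏ l, f (gX l) ^ c j l := by
    intro B _ f j
    rw [hform B f (r' j.succ), hrj j]
    congr 1
    simp only [toAdd_ofAdd]
    rw [Finset.prod_eq_single j]
    · simp
    · intro i _ hij
      simp [hij]
    · intro h
      exact absurd (Finset.mem_univ j) h
  -- e l is not zero
  have he0 : ∀ l, e l ≠ 0 := by
    intro l hl
    obtain ⟨f, hfT, hfX⟩ := exists_rep (m := m) (p := p) (U := Multiplicative (ZMod (p l)))
      (fun j => (ψ l (r' j.succ))⁻¹)
      (fun l' => if l' = l then Multiplicative.ofAdd (1 : ZMod (p l)) else 1)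
      (by
        intro l'
        split_ifs with h
        · subst h
          apply Multiplicative.toAdd.injective
          simp
        · exact one_pow _)
    have hx := key f.ker inferInstance (by
      intro i
      rw [MonoidHom.mem_ker]
      refine Fin.cases ?_ (fun j => ?_) i
      · rw [val0 _ f, Finset.prod_eq_single l]
        · rw [hl]; simp
        · intro l' _ hl'
          rw [hfX, if_neg hl', one_pow]
        · intro h; exact absurd (Finset.mem_univ l) h
      · rw [valj _ f j, hfT, Finset.prod_eq_single l]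
        · rw [hfX, if_pos rfl]
          apply Multiplicative.toAdd.injective
          simp [hc]
        · intro l' _ hl'
          rw [hfX, if_neg hl', one_pow]
        · intro h; exact absurd (Finset.mem_univ l) h) (gX l)
    rw [MonoidHom.mem_ker, hfX, if_pos rfl] at hx
    have := congrArg Multiplicative.toAdd hx
    simp at this
  -- angles
  obtain ⟨c', hc'0, κ, hκ, hang⟩ := exists_angles p hp hodd hinj
  set b : Fin 3 → ℝ := fun l => 2 * Real.pi * c' l / p l with hb
  obtain ⟨hA0, hA1, hA2, hA3⟩ := hang b (fun l => rfl)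
  set k : Fin 3 → ℕ := fun l => ((e l)⁻¹ * (c' l : ZMod (p l))).val with hk
  set α : Fin 3 → ℝ := fun l => 2 * Real.pi * k l / p l with hα
  have hpR : ∀ l, (p l : ℝ) ≠ 0 := fun l => Nat.cast_ne_zero.2 (hp l).ne_zero
  have hαk : ∀ l, ∃ k : ℕ, (p l : ℝ) * α l = 2 * Real.pi * k := by
    intro l
    refine ⟨k l, ?_⟩
    rw [hα]
    field_simp [hpR l]
  have hek : ∀ l, ∃ t : ℤ, ((e l).val : ℝ) * α l = b l + 2 * Real.pi * t := by
    intro l
    have h1 : (((e l).val * k l : ℤ) : ZMod (p l)) = (c' l : ZMod (p l)) := by
      push_cast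
      rw [hk]
      simp only [ZMod.natCast_val, ZMod.cast_id', id]
      rw [← mul_assoc, mul_inv_cancel₀ (he0 l), one_mul]
    have h2 : (p l : ℤ) ∣ ((e l).val * k l : ℤ) - c' l := by
      rw [← ZMod.intCast_zmod_eq_zero_iff_dvd]
      push_cast
      push_cast at h1
      rw [h1, sub_self]
    obtain ⟨t, ht⟩ := h2
    refine ⟨t, ?_⟩
    have h3 : ((e l).val : ℝ) * (k l : ℝ) - (c' l : ℝ) = (p l : ℝ) * t := by
      exact_mod_cast ht
    rw [hα, hb]
    field_simp [hpR l]
    linear_combination h3
  have hsin0 : Real.sin (α 0) ≠ 0 := by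
    intro h
    rw [Real.sin_eq_zero_iff] at h
    obtain ⟨n, hn⟩ := h
    have h1 : (n : ℝ) * (p 0 : ℝ) = 2 * k 0 := by
      rw [hα] at hn
      have hpi := Real.pi_ne_zero
      have h2 := hpR 0
      field_simp at hn
      linear_combination hn
    have h2 : (n : ℤ) * (p 0 : ℤ) = 2 * k 0 := by exact_mod_cast h1
    have h3 : (p 0 : ℤ) ∣ 2 * (k 0 : ℤ) := ⟨n, by rw [← h2]; ring⟩
    have h4 : p 0 ∣ 2 * k 0 := by exact_mod_cast h3
    rcases (Nat.Prime.dvd_mul (hp 0)).1 h4 with h5 | h5
    · have h6 := Nat.le_of_dvd (by norm_num) h5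
      have h7 := (hp 0).two_le
      have h8 : p 0 = 2 := le_antisymm h6 h7
      have h9 := hodd 0
      rw [h8] at h9
      exact absurd h9 (by decide)
    · have h6 : ((k 0 : ℕ) : ZMod (p 0)) = 0 := (ZMod.natCast_eq_zero_iff _ _).2 h5
      rw [hk] at h6
      simp only [ZMod.natCast_val, ZMod.cast_id', id] at h6
      rcases mul_eq_zero.1 h6 with h7 | h7
      · exact he0 0 (inv_eq_zero.1 h7)
      · exact hc'0 0 ((ZMod.intCast_zmod_eq_zero_iff_dvd _ _).1 h7)
  -- the family of representations
  obtain ⟨ρ, hρ⟩ := exists_isRep (m := m) (p := p) c α hαk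
  set R : Option (Fin m) → QG m p := fun i => i.elim (r' 0) (fun j => r' j.succ) with hR
  have hRε : ∀ (ε : QG m p →* ℤˣ), (∀ l, ε (gX l) = 1) →
      ∀ i : Option (Fin m), ε (R i) = i.elim 1 (fun j => ε (gT j)) := by
    intro ε hε i
    cases i with
    | none =>
      simp only [hR, Option.elim_none]
      rw [val0 _ ε]
      simp [hε]
    | some j =>
      simp only [hR, Option.elim_some]
      rw [valj _ ε j]
      simp [hε]
  set F : ℝ → Y m → K m → ℝ := fun s y kk =>
    (if kk.1 = none then κ else 1) * cmp (ρ s y (R kk.1)) kk.2 with hF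
  have hκ0 : κ ≠ 0 := by rcases hκ with h | h <;> rw [h] <;> norm_num
  -- points over the circle
  have hcirc : ∀ s : ℝ, (s = 0 ∨ s = 1) → ∀ y : Y m, (y.1.1.imJ = 0 ∧ y.1.1.imK = 0) →
      (∀ j, (y.2 j).1.imJ = 0 ∧ (y.2 j).1.imK = 0) →
      (∀ j, ρ s y (r' j.succ) = y.2 j) ∧
      ((ρ s y (r' 0) : S3) : ℍ[ℝ]).imI =
        Real.sin (b 0 * y.1.1.imI + b 1 + b 2 * Real.cos (Real.pi * s)) := by
    intro s hs y ha ht
    choose z hz using fun j => exists_circ (y.2 j) (ht j)
    have hh0 : y.1.1.imI = 1 ∨ y.1.1.imI = -1 := by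
      have h := S2_sqs y.1
      rw [ha.1, ha.2] at h
      have : (y.1.1.imI - 1) * (y.1.1.imI + 1) = 0 := by nlinarith
      rcases mul_eq_zero.1 this with h | h
      · left; linarith
      · right; linarith
    have hh2 : Real.cos (Real.pi * s) = 1 ∨ Real.cos (Real.pi * s) = -1 := by
      rcases hs with rfl | rfl <;> simp
    have hs0 : Real.sin (Real.pi * s) = 0 := by
      rcases hs with rfl | rfl <;> simp
    set hv : Fin 3 → ℝ := fun l => if l = 0 then y.1.1.imI else if l = 1 then 1 else
      Real.cos (Real.pi * s) with hhv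
    have hvpm : ∀ l, hv l = 1 ∨ hv l = -1 := by
      intro l
      simp only [hhv]
      split_ifs
      · exact hh0
      · left; rfl
      · exact hh2
    set w : Fin 3 → Circle := fun l => Circle.exp (α l * hv l) with hw
    have hXw : ∀ l, Xv α s y l = circ (w l) := by
      intro l
      simp only [hw, hhv]
      unfold Xv
      by_cases h0 : l = 0
      · subst h0
        simp only [if_true]
        exact eS_circ _ _ ha
      · by_cases h1 : l = 1
        · subst h1
          simp only [if_neg h0, if_true]
          exact eS_circ _ _ ⟨rfl, rfl⟩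
        · have h2 : l = 2 := by omega
          subst h2
          simp only [if_neg h0, if_neg h1]
          exact eS_circ _ _ ⟨hs0, rfl⟩
    have hwp : ∀ l, w l ^ p l = 1 := by
      intro l
      obtain ⟨kk, hkk⟩ := hαk l
      rw [hw]
      simp only
      rw [← Circle.exp_natCast_mul]
      have h1 : (p l : ℝ) * (α l * hv l) = 2 * Real.pi * ((kk : ℝ) * hv l) := by
        rw [← mul_assoc, hkk]; ring
      rw [h1]
      rcases hvpm l with h | h
      · rw [h]
        have := Circle.exp_two_pi_mul_int (kk : ℤ)
        simpa using this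
      · rw [h]
        have := Circle.exp_two_pi_mul_int (-(kk : ℤ))
        simpa using this
    obtain ⟨f, hfT, hfX⟩ := exists_rep (m := m) (p := p) (U := Circle)
      (fun j => z j * (w 0 ^ c j 0 * w 1 ^ c j 1 * w 2 ^ c j 2)⁻¹) w hwp
    have hcf : ρ s y = circ.comp f := by
      apply hom_ext_Q
      · intro j
        rw [MonoidHom.comp_apply, hρ.T, hfT]
        unfold Tv xi
        rw [hXw, hXw, hXw, map_mul, hz, map_inv]
        simp only [map_mul, map_pow]
      · intro l
        rw [MonoidHom.comp_apply, hρ.X, hfX, hXw]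
    constructor
    · intro j
      rw [hcf, MonoidHom.comp_apply, valj _ f j, hfT, Fin.prod_univ_three, hfX, hfX, hfX,
        inv_mul_cancel_right, hz]
    · rw [hcf, MonoidHom.comp_apply, val0 _ f, Fin.prod_univ_three, hfX, hfX, hfX]
      have hwe : ∀ l, w l ^ (e l).val = Circle.exp (b l * hv l) := by
        intro l
        obtain ⟨t, ht⟩ := hek l
        rw [hw]
        simp only
        rw [← Circle.exp_natCast_mul]
        have h1 : ((e l).val : ℝ) * (α l * hv l) = b l * hv l + 2 * Real.pi * ((t : ℝ) * hv l) := by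
          rw [← mul_assoc, ht]; ring
        rw [h1, Circle.exp_add]
        have h2 : Circle.exp (2 * Real.pi * ((t : ℝ) * hv l)) = 1 := by
          rcases hvpm l with h | h
          · rw [h]
            have := Circle.exp_two_pi_mul_int t
            simpa using this
          · rw [h]
            have := Circle.exp_two_pi_mul_int (-t)
            simpa using this
        rw [h2, mul_one]
      rw [hwe, hwe, hwe, circ_prod_imI]
      congr 1
      simp [hhv]
  -- apply the topological core
  have hmain : ∃ s ∈ Set.Icc (0 : ℝ) 1, ∃ y : Y m, ∀ k, F s y k = 0 := by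
    refine top_core m F ?_ ?_ ?_ ?_ ?_ ?_ ?_ ?_ ?_
    · -- continuity
      rw [hF]
      refine continuous_pi fun kk => ?_
      exact continuous_const.mul ((continuous_cmp kk.2).comp (hρ.continuous (R kk.1)))
    · -- antipodes
      intro s j y kk
      obtain ⟨ε, hεT, hεX⟩ := exists_sign (m := m) (p := p) (fun i => i = j)
      simp only [hF]
      rw [hρ.eta j ε hεT hεX s y (R kk.1), hRε ε hεX kk.1]
      rcases kk with ⟨i, cc⟩
      cases i with
      | none => simp
      | some i =>
        simp only [Option.elim_some]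
        rw [hεT i, sgnS_if]
        by_cases hij : i = j
        · subst hij
          simp [cmp_neg]
        · simp [hij]
    · -- tau at 0
      intro y kk
      simp only [hF]
      rw [hρ.tau (Or.inl rfl) y (R kk.1), cmp_tau]
      ring
    · intro y kk
      simp only [hF]
      rw [hρ.tau (Or.inr rfl) y (R kk.1), cmp_tau]
      ring
    · -- bound
      intro s y
      simp only [hF, if_true]
      have h1 : |cmp (ρ s y (R none)) 0| ≤ 1 := by
        have h2 := S3_sqs (ρ s y (R none))
        simp only [cmp, if_true]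
        rw [abs_le]
        constructor <;> nlinarith [sq_nonneg ((ρ s y (R none) : S3) : ℍ[ℝ]).re,
          sq_nonneg ((ρ s y (R none) : S3) : ℍ[ℝ]).imJ,
          sq_nonneg ((ρ s y (R none) : S3) : ℍ[ℝ]).imK,
          sq_nonneg (((ρ s y (R none) : S3) : ℍ[ℝ]).imI - 1),
          sq_nonneg (((ρ s y (R none) : S3) : ℍ[ℝ]).imI + 1)]
      rw [abs_mul]
      rcases hκ with h | h <;> rw [h] <;> simpa using h1
    · -- values on the circle
      intro s hs y ha ht j
      simp only [hF]
      have := (hcirc s hs y ha ht).1 j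
      rw [hR]
      simp only [Option.elim_some, this]
      simp [cmp]
    · intro y ha ht
      have h1 := (hcirc 0 (Or.inl rfl) y ha ht).2
      have hh0 : y.1.1.imI = 1 ∨ y.1.1.imI = -1 := by
        have h := S2_sqs y.1
        rw [ha.1, ha.2] at h
        have : (y.1.1.imI - 1) * (y.1.1.imI + 1) = 0 := by nlinarith
        rcases mul_eq_zero.1 this with h | h
        · left; linarith
        · right; linarith
      simp only [hF, if_true, hR, Option.elim_none, cmp]
      rw [h1, mul_zero, Real.cos_zero, mul_one]
      rcases hh0 with h | h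
      · rw [h, mul_one]; exact hA0
      · rw [h, mul_neg_one]; exact hA1
    · intro y ha ht
      have h1 := (hcirc 1 (Or.inr rfl) y ha ht).2
      have hh0 : y.1.1.imI = 1 ∨ y.1.1.imI = -1 := by
        have h := S2_sqs y.1
        rw [ha.1, ha.2] at h
        have : (y.1.1.imI - 1) * (y.1.1.imI + 1) = 0 := by nlinarith
        rcases mul_eq_zero.1 this with h | h
        · left; linarith
        · right; linarith
      simp only [hF, if_true, hR, Option.elim_none, cmp]
      rw [h1, mul_one, Real.cos_pi, mul_neg_one]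
      rcases hh0 with h | h
      · rw [h, mul_one, one_mul, ← sub_eq_add_neg]; exact hA3
      · rw [h, mul_neg_one]
        have h2 : -b 0 + b 1 + -b 2 = -(b 0 - b 1 + b 2) := by ring
        rw [h2, Real.sin_neg]
        linarith
    · -- fixed points
      intro s hs y hy j hj
      obtain ⟨ε, hεT, hεX⟩ := exists_sign (m := m) (p := p)
        (fun i => (y.2 i : ℍ[ℝ]).re = 0 ∧ (y.2 i : ℍ[ℝ]).imI = 0)
      have h1 := hρ.fix hs y hy ε (fun i hi => by rw [hεT, if_pos hi])
        (fun i hi => by rw [hεT, if_neg hi]) hεX (r' j.succ)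
      have h2 : ε (r' j.succ) = -1 := by
        have := hRε ε hεX (some j)
        simp only [hR, Option.elim_some] at this
        rw [this, hεT, if_pos hj]
      rw [h2, sgnS_neg_one] at h1
      set q := ρ s y (r' j.succ) with hq
      have h3 : (q : ℍ[ℝ]).re = 0 := by
        have := congrArg (fun x : S3 => (x : ℍ[ℝ]).re) h1
        simp only [coe_neg_S3] at this
        have h4 : (q : ℍ[ℝ]).re = -(q : ℍ[ℝ]).re := by simpa [tauHom, tauS3, tauH] using this
        linarith
      have h5 : (q : ℍ[ℝ]).imI = 0 := by
        have := congrArg (fun x : S3 => (x : ℍ[ℝ]).imI) h1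
        simp only [coe_neg_S3] at this
        have h4 : (q : ℍ[ℝ]).imI = -(q : ℍ[ℝ]).imI := by simpa [tauHom, tauS3, tauH] using this
        linarith
      by_contra hcon
      push_neg at hcon
      have h6 := S3_sqs q
      have h7 : (q : ℍ[ℝ]).imJ = 0 := by
        have := hcon.1
        simpa [hF, hR, cmp, ← hq] using this
      have h8 : (q : ℍ[ℝ]).imK = 0 := by
        have := hcon.2
        simpa [hF, hR, cmp, ← hq] using this
      rw [h3, h5, h7, h8] at h6
      norm_num at h6
  obtain ⟨s, -, y, hzero⟩ := hmain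
  -- final contradiction
  have hcen : ∀ i, r' i ∈ (Subgroup.center S3).comap (ρ s y) := by
    intro i
    rw [Subgroup.mem_comap]
    apply mem_center_of_real
    have hall : ∀ (o : Option (Fin m)) (cc : Fin 3), cmp (ρ s y (R o)) cc = 0 := by
      intro o cc
      have := hzero (o, cc)
      simp only [hF] at this
      rcases mul_eq_zero.1 this with h | h
      · exfalso
        split_ifs at h
        · exact hκ0 h
        · exact one_ne_zero h
      · exact h
    refine Fin.cases ?_ (fun j => ?_) i
    · exact ⟨by simpa [cmp, hR] using hall none 0, by simpa [cmp, hR] using hall none 1,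
        by simpa [cmp, hR] using hall none 2⟩
    · exact ⟨by simpa [cmp, hR] using hall (some j) 0, by simpa [cmp, hR] using hall (some j) 1,
        by simpa [cmp, hR] using hall (some j) 2⟩
  have hfin := key _ inferInstance hcen (gX 0)
  rw [Subgroup.mem_comap, hρ.X] at hfin
  exact eS_not_mem_center (α 0) hsin0 y.1 hfin

end Pool.Agent.WFP
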