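import Mathlib

/-!
# WFP: weight of free products of cyclic groups (MP_9ab234_al), common definitions

Combinatorial part: functions on the lattice with values in ZMod 2, the cubical cup product `J`
of the coboundaries of a list of functions, boxes.  Geometric part: the compact space `Y m`
(a unit pure quaternion and m unit quaternions), the involution `tauY` (conjugation by the
quaternion i), the sign changes `etaY j`, the lattice of angles `P n`, sign functions, the mod 2
degree `Deg`.  Group part: the group `Q m p`.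
-/

set_option autoImplicit false

open Quaternion

noncomputable section

namespace Pool.Agent.WFP

/-! ## lattice functions -/

section Grid

variable {ι : Type} [DecidableEq ι]

/-- The unit step in direction `d`. -/
def st (d : ι) : ι → ℤ := Pi.single d 1

/-- Cubical cup product (mod 2) of the coboundaries of the functions of the list, on the cube with
lowest vertex `x` and set of directions `D`. -/
def J : List ((ι → ℤ) → ZMod 2) → Finset ι → (ι → ℤ) → ZMod 2
  | [], D, _ => if D = ∅ then 1 else 0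
  | f :: l, D, x => ∑ d ∈ D, (f (x + st d) + f x) * J l (D.erase d) (x + st d)

/-- The half open box with side lengths `N`. -/
def box [Fintype ι] (N : ι → ℕ) : Finset (ι → ℤ) :=
  Fintype.piFinset fun d => Finset.Ico (0 : ℤ) (N d)

/-- Adding the coordinate `c` in direction `none`. -/
def consO (c : ℤ) (x : ι → ℤ) : Option ι → ℤ := fun o => o.elim c x

/-- Restriction of a function to the slice `none = c`. -/
def slice (c : ℤ) (f : (Option ι → ℤ) → ZMod 2) : (ι → ℤ) → ZMod 2 := fun x => f (consO c x)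

end Grid

/-! ## the directions of our grid -/

/-- Directions: `inl 0` is theta, `inl 1` is phi, `inr (j,0)` is psi_j, `inr (j,1)` is alpha_j,
`inr (j,2)` is beta_j. -/
abbrev Dir (m : ℕ) : Type := Fin 2 ⊕ (Fin m × Fin 3)

/-- Side lengths of the box: phi and beta_j run over a full circle (2n steps), the others have n
steps (alpha_j only over half a circle). -/
def Nsz (n m : ℕ) : Dir m → ℕ
  | Sum.inl i => if i = 1 then 2 * n else n
  | Sum.inr q => if q.2 = 2 then 2 * n else n

/-- Side lengths of the box with the extra direction `none`. -/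
def NszS (n m : ℕ) : Option (Dir m) → ℕ := fun o => o.elim n (Nsz n m)

/-- Admissible lattice functions: they come from functions on the slices of a product of
spheres, and change by the constant `c j` under the antipode of the j-th sphere. -/
structure Adm (n m : ℕ) (f : (Option (Dir m) → ℤ) → ZMod 2) (c : Fin m → ZMod 2) : Prop where
  pole : ∀ x, (x (some (Sum.inl 0)) = 0 ∨ x (some (Sum.inl 0)) = (n : ℤ)) →
    f (x + st (some (Sum.inl 1))) = f x
  psi0 : ∀ j x, x (some (Sum.inr (j, 0))) = 0 → f (x + st (some (Sum.inr (j, 2)))) = f x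
  psi1 : ∀ j x, x (some (Sum.inr (j, 0))) = (n : ℤ) → f (x + st (some (Sum.inr (j, 1)))) = f x
  perphi : ∀ x, f (x + (2 * n : ℤ) • st (some (Sum.inl 1))) = f x
  perbeta : ∀ j x, f (x + (2 * n : ℤ) • st (some (Sum.inr (j, 2)))) = f x
  eta : ∀ j x, f (x + (n : ℤ) • st (some (Sum.inr (j, 1)))
    + (n : ℤ) • st (some (Sum.inr (j, 2)))) = f x + c j

/-- The lattice translation which corresponds to the involution `tauY`. -/
def vtau (n m : ℕ) : Option (Dir m) → ℤ
  | none => 0
  | some (Sum.inl i) => if i = 1 then n else 0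
  | some (Sum.inr q) => if q.2 = 2 then n else 0

/-! ## the space -/

/-- Unit quaternions (a topological group). -/
abbrev S3 : Type := Metric.sphere (0 : ℍ[ℝ]) 1

/-- Pure unit quaternions. -/
abbrev S2 : Type := {a : ℍ[ℝ] // ‖a‖ = 1 ∧ a.re = 0}

/-- The parameter space. -/
abbrev Y (m : ℕ) : Type := S2 × (Fin m → S3)

/-- Conjugation by the quaternion i. -/
def tauH (q : ℍ[ℝ]) : ℍ[ℝ] := ⟨q.re, q.imI, -q.imJ, -q.imK⟩

theorem norm_tauH (q : ℍ[ℝ]) : ‖tauH q‖ = ‖q‖ := by
  have h : ‖tauH q‖ * ‖tauH q‖ = ‖q‖ * ‖q‖ := by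
    rw [← Quaternion.normSq_eq_norm_mul_self, ← Quaternion.normSq_eq_norm_mul_self]
    rw [Quaternion.normSq_def', Quaternion.normSq_def']
    simp [tauH]
  exact (mul_self_inj (norm_nonneg _) (norm_nonneg _)).1 h

/-- Conjugation by i on unit quaternions. -/
def tauS3 (q : S3) : S3 := ⟨tauH q.1, by
  have := q.2
  rw [mem_sphere_zero_iff_norm] at this ⊢
  rw [norm_tauH, this]⟩

/-- Conjugation by i on pure unit quaternions. -/
def tauS2 (a : S2) : S2 := ⟨tauH a.1, by rw [norm_tauH]; exact a.2.1, a.2.2⟩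

/-- The involution. -/
def tauY {m : ℕ} (y : Y m) : Y m := (tauS2 y.1, fun j => tauS3 (y.2 j))

/-- The antipode of the j-th factor. -/
def etaY {m : ℕ} (j : Fin m) (y : Y m) : Y m := (y.1, Function.update y.2 j (-(y.2 j)))

/-- Points fixed by the composition of `tauY` with some of the antipodes. -/
def IsFix {m : ℕ} (y : Y m) : Prop :=
  (y.1.1.imJ = 0 ∧ y.1.1.imK = 0) ∧
  ∀ j, ((y.2 j).1.imJ = 0 ∧ (y.2 j).1.imK = 0) ∨ ((y.2 j).1.re = 0 ∧ (y.2 j).1.imI = 0)

/-- The quaternion with polar coordinates theta, phi. -/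
def aH (θ φ : ℝ) : ℍ[ℝ] := ⟨0, Real.cos θ, Real.sin θ * Real.cos φ, Real.sin θ * Real.sin φ⟩

/-- The quaternion with Hopf coordinates psi, alpha, beta. -/
def tH (ψ α β : ℝ) : ℍ[ℝ] :=
  ⟨Real.cos ψ * Real.cos α, Real.cos ψ * Real.sin α,
    Real.sin ψ * Real.cos β, Real.sin ψ * Real.sin β⟩

theorem norm_aH (θ φ : ℝ) : ‖aH θ φ‖ = 1 := by
  have h : ‖aH θ φ‖ * ‖aH θ φ‖ = 1 * 1 := by
    rw [← Quaternion.normSq_eq_norm_mul_self, Quaternion.normSq_def']
    simp only [aH]
    nlinarith [Real.sin_sq_add_cos_sq θ, Real.sin_sq_add_cos_sq φ]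
  exact (mul_self_inj (norm_nonneg _) zero_le_one).1 h

theorem norm_tH (ψ α β : ℝ) : ‖tH ψ α β‖ = 1 := by
  have h : ‖tH ψ α β‖ * ‖tH ψ α β‖ = 1 * 1 := by
    rw [← Quaternion.normSq_eq_norm_mul_self, Quaternion.normSq_def']
    simp only [tH]
    nlinarith [Real.sin_sq_add_cos_sq ψ, Real.sin_sq_add_cos_sq α, Real.sin_sq_add_cos_sq β]
  exact (mul_self_inj (norm_nonneg _) zero_le_one).1 h

/-- The point with given angles. -/
def ang {m : ℕ} (x : Dir m → ℝ) : Y m :=
  (⟨aH (x (Sum.inl 0)) (x (Sum.inl 1)), norm_aH _ _, rfl⟩,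
   fun j => ⟨tH (x (Sum.inr (j, 0))) (x (Sum.inr (j, 1))) (x (Sum.inr (j, 2))), by
     rw [mem_sphere_zero_iff_norm]; exact norm_tH _ _ _⟩)

/-- The angle steps: pi/n, but pi/(2n) for psi_j. -/
def stepA (n m : ℕ) : Dir m → ℝ
  | Sum.inl _ => Real.pi / n
  | Sum.inr q => if q.2 = 0 then Real.pi / (2 * n) else Real.pi / n

/-- The point of `Y m` with lattice coordinates `x`. -/
def P (n : ℕ) {m : ℕ} (x : Dir m → ℤ) : Y m :=
  ang fun d => stepA n m d * (x d : ℝ)

/-! ## coordinates, signs, ties -/

/-- Names of the 3(m+1) coordinates: `none` is the quaternion number 0, `some j` the others;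
`0, 1, 2` are the components imI, imJ, imK. -/
abbrev K (m : ℕ) : Type := Option (Fin m) × Fin 3

/-- All names except `(none, 0)`, in order. -/
def rest (m : ℕ) : List (K m) :=
  (none, 1) :: (none, 2) ::
    (List.finRange m).flatMap fun j => [(some j, 0), (some j, 1), (some j, 2)]

/-- Equivariance under the antipodes. -/
def Geta {m : ℕ} (G : Y m → K m → ℝ) : Prop :=
  ∀ j y k, G (etaY j y) k = (if k.1 = some j then -1 else 1) * G y k

/-- Equivariance under the involution. -/
def Gtau {m : ℕ} (G : Y m → K m → ℝ) : Prop :=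
  ∀ y k, G (tauY y) k = (if k.2 = 0 then 1 else -1) * G y k

/-- Tie breaking functions equivariant under the antipodes. -/
def Teta {m : ℕ} (ρ : Y m → K m → ZMod 2) : Prop :=
  ∀ j y k, ρ (etaY j y) k = ρ y k + (if k.1 = some j then 1 else 0)

/-- Tie breaking functions equivariant under the involution outside the fixed points. -/
def Ttau {m : ℕ} (ρ : Y m → K m → ZMod 2) : Prop :=
  ∀ y, ¬ IsFix y → ∀ k, ρ (tauY y) k = ρ y k + (if k.2 = 0 then 0 else 1)

/-- Sign bit of a real number, with prescribed value at 0. -/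
def sg (r : ℝ) (b : ZMod 2) : ZMod 2 := if 0 < r then 1 else if r < 0 then 0 else b

/-- The lattice sign function of a coordinate on `Y m`. -/
def sf (n : ℕ) {m : ℕ} (G : Y m → K m → ℝ) (ρ : Y m → K m → ZMod 2) (k : K m) :
    (Dir m → ℤ) → ZMod 2 := fun x => sg (G (P n x) k) (ρ (P n x) k)

/-- The lattice sign function of a coordinate of a homotopy; the tie breaking function may
depend on the slice. -/
def sfS (n : ℕ) {m : ℕ} (G : ℝ → Y m → K m → ℝ) (ρ : ℤ → Y m → K m → ZMod 2)
    (k : K m) : (Option (Dir m) → ℤ) → ZMod 2 := fun x =>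
  sg (G ((x none : ℝ) / n) (P n fun d => x (some d)) k) (ρ (x none) (P n fun d => x (some d)) k)

/-- The mod 2 degree: number (mod 2, mod antipodes) of common zeros of the coordinates in `rest`
at which the coordinate `(none, 0)` is positive, computed on the grid. -/
def Deg (n : ℕ) {m : ℕ} (G : Y m → K m → ℝ) (ρ : Y m → K m → ZMod 2) : ZMod 2 :=
  ∑ x ∈ box (Nsz n m), sf n G ρ (none, 0) x * J ((rest m).map (sf n G ρ)) Finset.univ x

/-- The standard maps: `E` in the coordinate `(none, 0)`, the obvious ones otherwise. -/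
def stdG {m : ℕ} (E : Y m → ℝ) (y : Y m) (k : K m) : ℝ :=
  match k with
  | (none, c) => if c = 0 then E y else if c = 1 then y.1.1.imJ else y.1.1.imK
  | (some j, c) => if c = 0 then (y.2 j).1.imI else if c = 1 then (y.2 j).1.imJ else (y.2 j).1.imK

/-! ## the group -/

/-- The factors: m infinite cyclic groups and three cyclic groups of order p 0, p 1, p 2. -/
abbrev Fac (m : ℕ) (p : Fin 3 → ℕ) : Fin m ⊕ Fin 3 → Type
  | Sum.inl _ => Multiplicative ℤ
  | Sum.inr l => Multiplicative (ZMod (p l))

instance instGroupFac (m : ℕ) (p : Fin 3 → ℕ) : ∀ i, Group (Fac m p i)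
  | Sum.inl _ => inferInstanceAs (Group (Multiplicative ℤ))
  | Sum.inr l => inferInstanceAs (Group (Multiplicative (ZMod (p l))))

/-- The free product of m infinite cyclic groups and three finite ones. -/
abbrev QG (m : ℕ) (p : Fin 3 → ℕ) : Type := Monoid.CoprodI (Fac m p)

/-- Generators of the infinite factors. -/
def gT {m : ℕ} {p : Fin 3 → ℕ} (j : Fin m) : QG m p :=
  Monoid.CoprodI.of (i := Sum.inl j) (Multiplicative.ofAdd (1 : ℤ) : Multiplicative ℤ)

/-- Generators of the finite factors. -/
def gX {m : ℕ} {p : Fin 3 → ℕ} (l : Fin 3) : QG m p :=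
  Monoid.CoprodI.of (i := Sum.inr l) (Multiplicative.ofAdd (1 : ZMod (p l)) : Multiplicative (ZMod (p l)))

end Pool.Agent.WFP
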