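import Pool.Agent.WFP.GRD

/-!
# WFP/EVL: the degree of the standard maps
-/

set_option autoImplicit false

namespace Pool.Agent.WFP


section comb

variable {ι : Type} [DecidableEq ι]

/-- The cup product of the coboundaries of two functions of two variables. -/
def J2 (b c : ℤ → ℤ → ZMod 2) (u v : ℤ) : ZMod 2 :=
  (b (u + 1) v + b u v) * (c (u + 1) (v + 1) + c (u + 1) v)
    + (b u (v + 1) + b u v) * (c (u + 1) (v + 1) + c u (v + 1))

/-- The cup product of the coboundaries of three functions of three variables. -/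
def J3 (a b c : ℤ → ℤ → ℤ → ZMod 2) (u v w : ℤ) : ZMod 2 :=
  (a (u + 1) v w + a u v w) * J2 (b (u + 1)) (c (u + 1)) v w
    + ((a u (v + 1) w + a u v w) * J2 (fun u => b u (v + 1)) (fun u => c u (v + 1)) u w
    + (a u v (w + 1) + a u v w) * J2 (fun u v => b u v (w + 1)) (fun u v => c u v (w + 1)) u v)

theorem J_two (f g : (ι → ℤ) → ZMod 2) (d e : ι) (hde : d ≠ e) (b c : ℤ → ℤ → ZMod 2)
    (x : ι → ℤ) (D : Finset ι) (hD : D = {d, e})
    (hf : ∀ y : ι → ℤ, (∀ i, i ≠ d → i ≠ e → y i = x i) → f y = b (y d) (y e))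
    (hg : ∀ y : ι → ℤ, (∀ i, i ≠ d → i ≠ e → y i = x i) → g y = c (y d) (y e)) :
    J [f, g] D x = J2 b c (x d) (x e) := by
  subst hD
  have h1 : ({d, e} : Finset ι).erase d = {e} := by
    ext z; simp only [Finset.mem_erase, Finset.mem_insert, Finset.mem_singleton]
    constructor
    · rintro ⟨h1, h2 | h2⟩
      · exact absurd h2 h1
      · exact h2
    · rintro rfl; exact ⟨hde.symm, Or.inr rfl⟩
  have h2 : ({d, e} : Finset ι).erase e = {d} := by
    ext z; simp only [Finset.mem_erase, Finset.mem_insert, Finset.mem_singleton]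
    constructor
    · rintro ⟨h1, h2 | h2⟩
      · exact h2
      · exact absurd h2 h1
    · rintro rfl; exact ⟨hde, Or.inl rfl⟩
  have hd0 : (st d : ι → ℤ) e = 0 := by simp [st, hde.symm]
  have he0 : (st e : ι → ℤ) d = 0 := by simp [st, hde]
  have hd1 : (st d : ι → ℤ) d = 1 := by simp [st]
  have he1 : (st e : ι → ℤ) e = 1 := by simp [st]
  have hi1 : ∀ i, i ≠ d → i ≠ e → (st d : ι → ℤ) i = 0 := fun i h _ => by simp [st, h]
  have hi2 : ∀ i, i ≠ d → i ≠ e → (st e : ι → ℤ) i = 0 := fun i _ h => by simp [st, h]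
  rw [J_cons, Finset.sum_pair hde, h1, h2, J_cons, J_cons, Finset.sum_singleton,
    Finset.sum_singleton]
  simp only [Finset.erase_singleton]
  have hJ : ∀ y : ι → ℤ, J ([] : List ((ι → ℤ) → ZMod 2)) ∅ y = 1 := fun y => by simp [J]
  rw [hJ, hJ, mul_one, mul_one]
  rw [hf (x + st d) (fun i a b => by simp [hi1 i a b]), hf x (fun _ _ _ => rfl),
    hf (x + st e) (fun i a b => by simp [hi2 i a b]),
    hg (x + st d + st e) (fun i a b => by simp [hi1 i a b, hi2 i a b]),
    hg (x + st d) (fun i a b => by simp [hi1 i a b]),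
    hg (x + st e + st d) (fun i a b => by simp [hi1 i a b, hi2 i a b]),
    hg (x + st e) (fun i a b => by simp [hi2 i a b])]
  simp only [Pi.add_apply, hd0, he0, hd1, he1, add_zero]
  rfl

theorem J_three (f g h : (ι → ℤ) → ZMod 2) (d e k : ι) (hde : d ≠ e) (hdk : d ≠ k) (hek : e ≠ k)
    (a b c : ℤ → ℤ → ℤ → ZMod 2)
    (x : ι → ℤ) (D : Finset ι) (hD : D = {d, e, k})
    (hf : ∀ y : ι → ℤ, f y = a (y d) (y e) (y k))
    (hg : ∀ y : ι → ℤ, g y = b (y d) (y e) (y k))
    (hh : ∀ y : ι → ℤ, h y = c (y d) (y e) (y k)) :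
    J [f, g, h] D x = J3 a b c (x d) (x e) (x k) := by
  subst hD
  have h1 : ({d, e, k} : Finset ι).erase d = {e, k} := by
    ext z; simp only [Finset.mem_erase, Finset.mem_insert, Finset.mem_singleton]
    constructor
    · rintro ⟨h1, h2 | h2⟩
      · exact absurd h2 h1
      · exact h2
    · rintro (rfl | rfl)
      · exact ⟨hde.symm, Or.inr (Or.inl rfl)⟩
      · exact ⟨hdk.symm, Or.inr (Or.inr rfl)⟩
  have h2 : ({d, e, k} : Finset ι).erase e = {d, k} := by
    ext z; simp only [Finset.mem_erase, Finset.mem_insert, Finset.mem_singleton]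
    constructor
    · rintro ⟨h1, h2 | h2 | h2⟩
      · exact Or.inl h2
      · exact absurd h2 h1
      · exact Or.inr h2
    · rintro (rfl | rfl)
      · exact ⟨hde, Or.inl rfl⟩
      · exact ⟨hek.symm, Or.inr (Or.inr rfl)⟩
  have h3 : ({d, e, k} : Finset ι).erase k = {d, e} := by
    ext z; simp only [Finset.mem_erase, Finset.mem_insert, Finset.mem_singleton]
    constructor
    · rintro ⟨h1, h2 | h2 | h2⟩
      · exact Or.inl h2
      · exact Or.inr h2
      · exact absurd h2 h1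
    · rintro (rfl | rfl)
      · exact ⟨hdk, Or.inl rfl⟩
      · exact ⟨hek, Or.inr (Or.inl rfl)⟩
  have s1 : (st d : ι → ℤ) e = 0 := by simp [st, hde.symm]
  have s2 : (st d : ι → ℤ) k = 0 := by simp [st, hdk.symm]
  have s3 : (st e : ι → ℤ) d = 0 := by simp [st, hde]
  have s4 : (st e : ι → ℤ) k = 0 := by simp [st, hek.symm]
  have s5 : (st k : ι → ℤ) d = 0 := by simp [st, hdk]
  have s6 : (st k : ι → ℤ) e = 0 := by simp [st, hek]
  have t1 : (st d : ι → ℤ) d = 1 := by simp [st]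
  have t2 : (st e : ι → ℤ) e = 1 := by simp [st]
  have t3 : (st k : ι → ℤ) k = 1 := by simp [st]
  have hnot : d ∉ ({e, k} : Finset ι) := by
    simp [hde, hdk]
  rw [J_cons, Finset.sum_insert hnot, Finset.sum_pair hek, h1, h2, h3]
  rw [J_two g h e k hek (b (x d + 1)) (c (x d + 1)) (x + st d) {e, k} rfl
    (fun y hy => by rw [hg, hy d hde hdk]; simp [t1])
    (fun y hy => by rw [hh, hy d hde hdk]; simp [t1])]
  rw [J_two g h d k hdk (fun u => b u (x e + 1)) (fun u => c u (x e + 1)) (x + st e) {d, k} rfl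
    (fun y hy => by rw [hg, hy e hde.symm hek]; simp [t2])
    (fun y hy => by rw [hh, hy e hde.symm hek]; simp [t2])]
  rw [J_two g h d e hde (fun u v => b u v (x k + 1)) (fun u v => c u v (x k + 1)) (x + st k)
    {d, e} rfl
    (fun y hy => by rw [hg, hy k hdk.symm hek.symm]; simp [t3])
    (fun y hy => by rw [hh, hy k hdk.symm hek.symm]; simp [t3])]
  rw [hf, hf, hf, hf]
  simp only [Pi.add_apply, s1, s2, s3, s4, s5, s6, t1, t2, t3, add_zero]
  rfl

end comb



/-- The three directions of the `j`-th block. -/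
def blk {m : ℕ} (j : Fin m) : Finset (Dir m) := {Sum.inr (j, 0), Sum.inr (j, 1), Sum.inr (j, 2)}

theorem mem_blk {m : ℕ} (j : Fin m) (d : Dir m) : d ∈ blk j ↔ ∃ c : Fin 3, d = Sum.inr (j, c) := by
  simp only [blk, Finset.mem_insert, Finset.mem_singleton]
  constructor
  · rintro (h | h | h)
    · exact ⟨0, h⟩
    · exact ⟨1, h⟩
    · exact ⟨2, h⟩
  · rintro ⟨c, rfl⟩
    fin_cases c <;> simp

theorem J_blocks {m : ℕ} (F : Fin m → List ((Dir m → ℤ) → ZMod 2))
    (hF : ∀ j, ∀ f ∈ F j, ∀ d ∉ blk j, ∀ y, f (y + st d) = f y)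
    (js : List (Fin m)) (hnd : js.Nodup) (x : Dir m → ℤ) :
    J (js.flatMap F) (js.toFinset.biUnion blk) x = (js.map fun j => J (F j) (blk j) x).prod := by
  induction js with
  | nil => simp [J]
  | cons j js ih =>
    rw [List.nodup_cons] at hnd
    rw [List.flatMap_cons, List.toFinset_cons, Finset.biUnion_insert, List.map_cons,
      List.prod_cons, ← ih hnd.2]
    refine J_block (F j) (js.flatMap F) (blk j) (js.toFinset.biUnion blk) (blk j)
      (js.toFinset.biUnion blk) ?_ subset_rfl subset_rfl (hF j) ?_ x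
    · rw [Finset.disjoint_left]
      intro d hd hd'
      obtain ⟨c, rfl⟩ := (mem_blk j d).1 hd
      obtain ⟨i, hi, hi'⟩ := Finset.mem_biUnion.1 hd'
      obtain ⟨c', hc'⟩ := (mem_blk i _).1 hi'
      have : j = i := by
        have := Sum.inr_injective hc'
        exact congrArg Prod.fst this
      exact hnd.1 (this ▸ List.mem_toFinset.1 hi)
    · intro f hf d hd y
      obtain ⟨i, hi, hfi⟩ := List.mem_flatMap.1 hf
      refine hF i f hfi d (fun h => hd ?_) y
      exact Finset.mem_biUnion.2 ⟨i, List.mem_toFinset.2 hi, h⟩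

theorem univ_eq (m : ℕ) : (Finset.univ : Finset (Dir m)) =
    {Sum.inl 0, Sum.inl 1} ∪ (List.finRange m).toFinset.biUnion blk := by
  ext d
  simp only [Finset.mem_univ, Finset.mem_union, Finset.mem_insert, Finset.mem_singleton,
    Finset.mem_biUnion, List.mem_toFinset, List.mem_finRange, true_and, true_iff]
  rcases d with i | ⟨j, c⟩
  · left
    fin_cases i <;> simp
  · right
    exact ⟨j, (mem_blk j _).2 ⟨c, rfl⟩⟩

/-- Factorization of sums over the box. -/
theorem sum_box_prod (n m : ℕ) (g : ℤ → ℤ → ZMod 2) (B : ℤ → ℤ → ℤ → ZMod 2) :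
    ∑ x ∈ box (Nsz n m), g (x (Sum.inl 0)) (x (Sum.inl 1)) *
      ∏ j : Fin m, B (x (Sum.inr (j, 0))) (x (Sum.inr (j, 1))) (x (Sum.inr (j, 2))) =
    (∑ u ∈ Finset.Ico (0 : ℤ) n, ∑ v ∈ Finset.Ico (0 : ℤ) (2 * n : ℕ), g u v) *
      (∑ u ∈ Finset.Ico (0 : ℤ) n, ∑ v ∈ Finset.Ico (0 : ℤ) n,
        ∑ w ∈ Finset.Ico (0 : ℤ) (2 * n : ℕ), B u v w) ^ m := by
  have hpow : (∑ u ∈ Finset.Ico (0 : ℤ) n, ∑ v ∈ Finset.Ico (0 : ℤ) n,
        ∑ w ∈ Finset.Ico (0 : ℤ) (2 * n : ℕ), B u v w) ^ m =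
      ∑ q ∈ Fintype.piFinset (fun _ : Fin m => (Finset.Ico (0 : ℤ) n) ×ˢ (Finset.Ico (0 : ℤ) n) ×ˢ
        (Finset.Ico (0 : ℤ) (2 * n : ℕ))), ∏ j : Fin m, B (q j).1 (q j).2.1 (q j).2.2 := by
    have key := Finset.prod_univ_sum (fun _ : Fin m => (Finset.Ico (0 : ℤ) n) ×ˢ
      (Finset.Ico (0 : ℤ) n) ×ˢ (Finset.Ico (0 : ℤ) (2 * n : ℕ)))
      (fun _ (r : ℤ × ℤ × ℤ) => B r.1 r.2.1 r.2.2)
    rw [← key, Finset.prod_const, Finset.card_univ, Fintype.card_fin]
    congr 1
    rw [Finset.sum_product]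
    refine Finset.sum_congr rfl fun u _ => ?_
    rw [Finset.sum_product]
  rw [hpow, ← Finset.sum_product', Finset.sum_mul_sum, ← Finset.sum_product']
  refine Finset.sum_nbij'
    (fun x => ((x (Sum.inl 0), x (Sum.inl 1)),
      fun j => (x (Sum.inr (j, 0)), x (Sum.inr (j, 1)), x (Sum.inr (j, 2)))))
    (fun r => Sum.elim (fun i : Fin 2 => if i = 0 then r.1.1 else r.1.2)
      (fun s => if s.2 = 0 then (r.2 s.1).1 else if s.2 = 1 then (r.2 s.1).2.1
        else (r.2 s.1).2.2)) ?_ ?_ ?_ ?_ ?_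
  · intro x hx
    simp only [box, Fintype.mem_piFinset] at hx
    simp only [Finset.mem_product, Fintype.mem_piFinset]
    refine ⟨⟨?_, ?_⟩, fun j => ⟨?_, ?_, ?_⟩⟩
    · simpa [Nsz] using hx (Sum.inl 0)
    · simpa [Nsz] using hx (Sum.inl 1)
    · simpa [Nsz] using hx (Sum.inr (j, 0))
    · simpa [Nsz] using hx (Sum.inr (j, 1))
    · simpa [Nsz] using hx (Sum.inr (j, 2))
  · intro r hr
    simp only [Finset.mem_product, Fintype.mem_piFinset] at hr
    simp only [box, Fintype.mem_piFinset]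
    intro d
    rcases d with i | ⟨j, c⟩
    · fin_cases i
      · simpa [Nsz] using hr.1.1
      · simpa [Nsz] using hr.1.2
    · have := hr.2 j
      fin_cases c
      · simpa [Nsz] using this.1
      · simpa [Nsz] using this.2.1
      · simpa [Nsz] using this.2.2
  · intro x _
    funext d
    rcases d with i | ⟨j, c⟩
    · fin_cases i <;> simp
    · fin_cases c <;> simp
  · intro r _
    simp
  · intro x _
    rfl



/-! ## trigonometric signs on the lattice -/

section trig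

variable (n : ℕ) (hn : 0 < n)

include hn

theorem ang_mul (v : ℤ) (r : ℝ) (h : (v : ℝ) = r * n) : Real.pi / n * (v : ℝ) = Real.pi * r := by
  have : (n : ℝ) ≠ 0 := by positivity
  rw [h]; field_simp

theorem sin_pos_lat (v : ℤ) (h0 : 0 < v) (h1 : v < n) : 0 < Real.sin (Real.pi / n * v) := by
  have hn' : (0 : ℝ) < n := by exact_mod_cast hn
  have h0' : (0 : ℝ) < v := by exact_mod_cast h0
  have h1' : (v : ℝ) < n := by exact_mod_cast h1
  apply Real.sin_pos_of_pos_of_lt_pi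
  · positivity
  · rw [div_mul_eq_mul_div, div_lt_iff₀ hn']
    exact mul_lt_mul_of_pos_left h1' Real.pi_pos

theorem sin_neg_lat (v : ℤ) (h0 : (n : ℤ) < v) (h1 : v < 2 * n) :
    Real.sin (Real.pi / n * v) < 0 := by
  have hn' : (n : ℝ) ≠ 0 := by positivity
  have h := sin_pos_lat n hn (v - n) (by omega) (by omega)
  have e : Real.pi / n * ((v - (n : ℤ) : ℤ) : ℝ) = Real.pi / n * v - Real.pi := by
    push_cast; field_simp
  rw [e, Real.sin_sub_pi] at h
  linarith

theorem sin_zero_lat (v : ℤ) (h : v = 0 ∨ v = n ∨ v = 2 * n) : Real.sin (Real.pi / n * v) = 0 := by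
  have hn' : (n : ℝ) ≠ 0 := by positivity
  rcases h with rfl | rfl | rfl
  · simp
  · push_cast
    rw [div_mul_cancel₀ _ hn', Real.sin_pi]
  · push_cast
    have : Real.pi / n * (2 * n) = 2 * Real.pi := by field_simp
    rw [this, Real.sin_two_pi]

theorem cos_pos_lat (v : ℤ) (h0 : -(n : ℤ) < 2 * v) (h1 : 2 * v < n) :
    0 < Real.cos (Real.pi / n * v) := by
  have hn' : (0 : ℝ) < n := by exact_mod_cast hn
  have h0' : -(n : ℝ) < 2 * v := by exact_mod_cast h0
  have h1' : 2 * (v : ℝ) < n := by exact_mod_cast h1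
  apply Real.cos_pos_of_mem_Ioo
  constructor
  · rw [div_mul_eq_mul_div, lt_div_iff₀ hn']
    nlinarith [Real.pi_pos]
  · rw [div_mul_eq_mul_div, div_lt_iff₀ hn']
    nlinarith [Real.pi_pos]

theorem cos_neg_lat (v : ℤ) (h0 : (n : ℤ) < 2 * v) (h1 : 2 * v < 3 * n) :
    Real.cos (Real.pi / n * v) < 0 := by
  have hn' : (n : ℝ) ≠ 0 := by positivity
  have h := cos_pos_lat n hn (v - n) (by omega) (by omega)
  have e : Real.pi / n * ((v - (n : ℤ) : ℤ) : ℝ) = Real.pi / n * v - Real.pi := by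
    push_cast; field_simp
  rw [e, Real.cos_sub_pi] at h
  linarith

theorem cos_pos_lat' (v : ℤ) (h0 : 3 * (n : ℤ) < 2 * v) (h1 : 2 * v < 5 * n) :
    0 < Real.cos (Real.pi / n * v) := by
  have hn' : (n : ℝ) ≠ 0 := by positivity
  have h := cos_neg_lat n hn (v - n) (by omega) (by omega)
  have e : Real.pi / n * ((v - (n : ℤ) : ℤ) : ℝ) = Real.pi / n * v - Real.pi := by
    push_cast; field_simp
  rw [e, Real.cos_sub_pi] at h
  linarith

theorem cos_zero_lat (v : ℤ) (h : 2 * v = n) : Real.cos (Real.pi / n * v) = 0 := by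
  have hn' : (n : ℝ) ≠ 0 := by positivity
  have h' : (n : ℝ) = 2 * v := by exact_mod_cast h.symm
  have hv : (v : ℝ) ≠ 0 := by
    intro hv; rw [hv, mul_zero] at h'; exact hn' h'
  have : Real.pi / n * v = Real.pi / 2 := by rw [h']; field_simp
  rw [this, Real.cos_pi_div_two]

theorem cos_zero_lat' (v : ℤ) (h : 2 * v = 3 * n) : Real.cos (Real.pi / n * v) = 0 := by
  have hn' : (n : ℝ) ≠ 0 := by positivity
  have h1 := cos_zero_lat n hn (v - n) (by omega)
  have e : Real.pi / n * ((v - (n : ℤ) : ℤ) : ℝ) = Real.pi / n * v - Real.pi := by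
    push_cast; field_simp
  rw [e, Real.cos_sub_pi] at h1
  linarith

end trig

theorem sg_pos (r : ℝ) (b : ZMod 2) (h : 0 < r) : sg r b = 1 := by simp [sg, h]

theorem sg_neg (r : ℝ) (b : ZMod 2) (h : r < 0) : sg r b = 0 := by
  simp [sg, h, not_lt.2 h.le]

theorem sg_zero (r : ℝ) (b : ZMod 2) (h : r = 0) : sg r b = b := by simp [sg, h]

theorem sg_mul_pos (s r : ℝ) (b : ZMod 2) (h : 0 < s) : sg (s * r) b = sg r b := by
  rcases lt_trichotomy r 0 with hr | hr | hr
  · rw [sg_neg r b hr, sg_neg _ b (mul_neg_of_pos_of_neg h hr)]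
  · subst hr; simp
  · rw [sg_pos r b hr, sg_pos _ b (mul_pos h hr)]

theorem sg_sg (r : ℝ) (b : ZMod 2) : sg r (sg r b) = sg r b := by
  rcases lt_trichotomy r 0 with hr | hr | hr
  · rw [sg_neg r _ hr, sg_neg r _ hr]
  · rw [sg_zero r _ hr]
  · rw [sg_pos r _ hr, sg_pos r _ hr]

/-- Bits of the block (theta, phi). -/
noncomputable def c0 (n : ℕ) (u v : ℤ) : ZMod 2 :=
  sg (Real.sin (Real.pi / n * u) * Real.cos (Real.pi / n * v)) 0

noncomputable def s0 (n : ℕ) (u v : ℤ) : ZMod 2 :=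
  sg (Real.sin (Real.pi / n * u) * Real.sin (Real.pi / n * v)) 0

theorem c0_eq (n : ℕ) (hn : 0 < n) (u v : ℤ) (hu0 : 0 ≤ u) (hu1 : u ≤ n) (hv0 : 0 ≤ v)
    (hv1 : v ≤ 2 * n) :
    c0 n u v = if 0 < u ∧ u < n ∧ (2 * v < n ∨ 3 * (n : ℤ) < 2 * v) then 1 else 0 := by
  unfold c0
  by_cases h : 0 < u ∧ u < n
  · rw [sg_mul_pos _ _ _ (sin_pos_lat n hn u h.1 h.2)]
    by_cases h2 : 2 * v < n
    · rw [if_pos ⟨h.1, h.2, Or.inl h2⟩, sg_pos _ _ (cos_pos_lat n hn v (by omega) h2)]
    · by_cases h3 : 3 * (n : ℤ) < 2 * v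
      · rw [if_pos ⟨h.1, h.2, Or.inr h3⟩, sg_pos _ _ (cos_pos_lat' n hn v h3 (by omega))]
      · rw [if_neg (by omega)]
        by_cases h4 : 2 * v = n
        · rw [sg_zero _ _ (cos_zero_lat n hn v h4)]
        · by_cases h5 : 2 * v = 3 * n
          · rw [sg_zero _ _ (cos_zero_lat' n hn v h5)]
          · rw [sg_neg _ _ (cos_neg_lat n hn v (by omega) (by omega))]
  · rw [if_neg (by omega), sin_zero_lat n hn u (by omega), zero_mul, sg_zero _ _ rfl]

theorem s0_eq (n : ℕ) (hn : 0 < n) (u v : ℤ) (hu0 : 0 ≤ u) (hu1 : u ≤ n) (hv0 : 0 ≤ v)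
    (hv1 : v ≤ 2 * n) :
    s0 n u v = if 0 < u ∧ u < n ∧ 0 < v ∧ v < n then 1 else 0 := by
  unfold s0
  by_cases h : 0 < u ∧ u < n
  · rw [sg_mul_pos _ _ _ (sin_pos_lat n hn u h.1 h.2)]
    by_cases h2 : 0 < v ∧ v < n
    · rw [if_pos ⟨h.1, h.2, h2⟩, sg_pos _ _ (sin_pos_lat n hn v h2.1 h2.2)]
    · rw [if_neg (by omega)]
      by_cases h4 : v = 0 ∨ v = n ∨ v = 2 * n
      · rw [sg_zero _ _ (sin_zero_lat n hn v h4)]
      · rw [sg_neg _ _ (sin_neg_lat n hn v (by omega) (by omega))]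
  · rw [if_neg (by omega), sin_zero_lat n hn u (by omega), zero_mul, sg_zero _ _ rfl]

/-- The sum of block (theta, phi) with weight `e`. -/
theorem sum_block0 (n : ℕ) (hn : Even n) (h4 : 4 ≤ n) (e : ℤ → ZMod 2) :
    ∑ u ∈ Finset.Ico (0 : ℤ) n, ∑ v ∈ Finset.Ico (0 : ℤ) (2 * n : ℕ), e u * J2 (c0 n) (s0 n) u v
      = e 0 + e (n - 1) := by
  obtain ⟨k, hk⟩ := hn
  have hn0 : 0 < n := by omega
  have hrow0 : ∑ v ∈ Finset.Ico (0 : ℤ) (2 * n : ℕ), e 0 * J2 (c0 n) (s0 n) 0 v = e 0 := by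
    rw [Finset.sum_eq_single (0 : ℤ)]
    · unfold J2
      rw [c0_eq n hn0 _ _ (by omega) (by omega) (by omega) (by omega),
        c0_eq n hn0 _ _ (by omega) (by omega) (by omega) (by omega),
        c0_eq n hn0 _ _ (by omega) (by omega) (by omega) (by omega),
        s0_eq n hn0 _ _ (by omega) (by omega) (by omega) (by omega),
        s0_eq n hn0 _ _ (by omega) (by omega) (by omega) (by omega),
        s0_eq n hn0 _ _ (by omega) (by omega) (by omega) (by omega)]
      rw [if_pos (by omega), if_neg (by omega), if_pos (by omega), if_neg (by omega),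
        if_neg (by omega), if_neg (by omega)]
      ring
    · intro v hv hv0
      rw [Finset.mem_Ico] at hv
      push_cast at hv
      unfold J2
      rw [c0_eq n hn0 _ _ (by omega) (by omega) (by omega) (by omega),
        c0_eq n hn0 _ _ (by omega) (by omega) (by omega) (by omega),
        c0_eq n hn0 _ _ (by omega) (by omega) (by omega) (by omega),
        s0_eq n hn0 _ _ (by omega) (by omega) (by omega) (by omega),
        s0_eq n hn0 _ _ (by omega) (by omega) (by omega) (by omega),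
        s0_eq n hn0 _ _ (by omega) (by omega) (by omega) (by omega)]
      split_ifs <;> first | (exact mul_eq_zero_of_right _ (by decide)) | omega
    · intro h
      exact absurd (Finset.mem_Ico.2 ⟨le_rfl, by push_cast; omega⟩) h
  have hrow1 : ∑ v ∈ Finset.Ico (0 : ℤ) (2 * n : ℕ), e (n - 1) * J2 (c0 n) (s0 n) (n - 1) v
      = e (n - 1) := by
    rw [Finset.sum_eq_single ((k : ℤ) - 1)]
    · unfold J2
      rw [c0_eq n hn0 _ _ (by omega) (by omega) (by omega) (by omega),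
        c0_eq n hn0 _ _ (by omega) (by omega) (by omega) (by omega),
        c0_eq n hn0 _ _ (by omega) (by omega) (by omega) (by omega),
        s0_eq n hn0 _ _ (by omega) (by omega) (by omega) (by omega),
        s0_eq n hn0 _ _ (by omega) (by omega) (by omega) (by omega),
        s0_eq n hn0 _ _ (by omega) (by omega) (by omega) (by omega)]
      rw [if_neg (by omega), if_pos (by omega), if_neg (by omega), if_neg (by omega),
        if_neg (by omega), if_pos (by omega)]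
      ring
    · intro v hv hv0
      rw [Finset.mem_Ico] at hv
      push_cast at hv
      unfold J2
      rw [c0_eq n hn0 _ _ (by omega) (by omega) (by omega) (by omega),
        c0_eq n hn0 _ _ (by omega) (by omega) (by omega) (by omega),
        c0_eq n hn0 _ _ (by omega) (by omega) (by omega) (by omega),
        s0_eq n hn0 _ _ (by omega) (by omega) (by omega) (by omega),
        s0_eq n hn0 _ _ (by omega) (by omega) (by omega) (by omega),
        s0_eq n hn0 _ _ (by omega) (by omega) (by omega) (by omega)]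
      split_ifs <;> first | (exact mul_eq_zero_of_right _ (by decide)) | omega
    · intro h
      exact absurd (Finset.mem_Ico.2 ⟨by omega, by push_cast; omega⟩) h
  have hmid : ∀ u ∈ Finset.Ico (0 : ℤ) n, u ≠ 0 → u ≠ n - 1 →
      ∑ v ∈ Finset.Ico (0 : ℤ) (2 * n : ℕ), e u * J2 (c0 n) (s0 n) u v = 0 := by
    intro u hu h0 h1
    rw [Finset.mem_Ico] at hu
    refine Finset.sum_eq_zero fun v hv => ?_
    rw [Finset.mem_Ico] at hv
    push_cast at hv
    unfold J2
    rw [c0_eq n hn0 _ _ (by omega) (by omega) (by omega) (by omega),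
        c0_eq n hn0 _ _ (by omega) (by omega) (by omega) (by omega),
        c0_eq n hn0 _ _ (by omega) (by omega) (by omega) (by omega),
        s0_eq n hn0 _ _ (by omega) (by omega) (by omega) (by omega),
        s0_eq n hn0 _ _ (by omega) (by omega) (by omega) (by omega),
        s0_eq n hn0 _ _ (by omega) (by omega) (by omega) (by omega)]
    split_ifs <;> first | (exact mul_eq_zero_of_right _ (by decide)) | omega
  rw [← Finset.add_sum_erase _ _ (Finset.mem_Ico.2 ⟨le_rfl, by omega⟩ :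
    (0 : ℤ) ∈ Finset.Ico (0 : ℤ) n)]
  rw [← Finset.add_sum_erase ((Finset.Ico (0 : ℤ) n).erase 0) _ (Finset.mem_erase.2
    ⟨by omega, Finset.mem_Ico.2 ⟨by omega, by omega⟩⟩ :
    ((n : ℤ) - 1) ∈ (Finset.Ico (0 : ℤ) n).erase 0)]
  rw [hrow0, hrow1, Finset.sum_eq_zero, add_zero]
  intro u hu
  obtain ⟨h1, h2⟩ := Finset.mem_erase.1 hu
  obtain ⟨h3, h5⟩ := Finset.mem_erase.1 h2
  exact hmid u h5 h3 h1


/-! ## blocks (psi, alpha, beta) -/

/-- Nested sign bits. -/
noncomputable def sgs (p q r t : ℝ) : ZMod 2 := sg p (sg q (sg r (sg t 0)))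

/-- Components of the Hopf parametrization on the lattice. -/
noncomputable def hre (n : ℕ) (u v : ℤ) : ℝ :=
  Real.cos (Real.pi / (2 * n) * u) * Real.cos (Real.pi / n * v)

noncomputable def hI (n : ℕ) (u v : ℤ) : ℝ :=
  Real.cos (Real.pi / (2 * n) * u) * Real.sin (Real.pi / n * v)

noncomputable def hJ (n : ℕ) (u w : ℤ) : ℝ :=
  Real.sin (Real.pi / (2 * n) * u) * Real.cos (Real.pi / n * w)

noncomputable def hK (n : ℕ) (u w : ℤ) : ℝ :=
  Real.sin (Real.pi / (2 * n) * u) * Real.sin (Real.pi / n * w)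

noncomputable def a3 (n : ℕ) (u v w : ℤ) : ZMod 2 := sgs (hI n u v) (hre n u v) (hJ n u w) (hK n u w)
noncomputable def b3 (n : ℕ) (u v w : ℤ) : ZMod 2 := sgs (hJ n u w) (hK n u w) (hre n u v) (hI n u v)
noncomputable def c3 (n : ℕ) (u v w : ℤ) : ZMod 2 := sgs (hK n u w) (hJ n u w) (hre n u v) (hI n u v)

theorem cosh_pos (n : ℕ) (hn : 0 < n) (u : ℤ) (h0 : 0 ≤ u) (h1 : u < n) :
    0 < Real.cos (Real.pi / (2 * n) * u) := by
  have h := cos_pos_lat (2 * n) (by omega) u (by push_cast; omega) (by push_cast; omega)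
  push_cast at h
  exact h

theorem cosh_zero (n : ℕ) (hn : 0 < n) : Real.cos (Real.pi / (2 * n) * ((n : ℤ) : ℝ)) = 0 := by
  have h := cos_zero_lat (2 * n) (by omega) (n : ℤ) (by push_cast; ring)
  push_cast at h ⊢
  exact h

theorem sinh_pos (n : ℕ) (hn : 0 < n) (u : ℤ) (h0 : 0 < u) (h1 : u ≤ n) :
    0 < Real.sin (Real.pi / (2 * n) * u) := by
  have h := sin_pos_lat (2 * n) (by omega) u h0 (by push_cast; omega)
  push_cast at h
  exact h

theorem a3_eq (n : ℕ) (hn : 0 < n) (u v w : ℤ) (hu0 : 0 ≤ u) (hu1 : u < n) (hv0 : 0 ≤ v)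
    (hv1 : v ≤ n) : a3 n u v w = if v < n then 1 else 0 := by
  have hc := cosh_pos n hn u hu0 hu1
  unfold a3 sgs hI hre
  rw [sg_mul_pos _ _ _ hc, sg_mul_pos _ _ _ hc]
  by_cases h1 : v < n
  · rw [if_pos h1]
    by_cases h2 : v = 0
    · subst h2
      rw [sg_zero _ _ (sin_zero_lat n hn 0 (Or.inl rfl)),
        sg_pos _ _ (cos_pos_lat n hn 0 (by omega) (by omega))]
    · rw [sg_pos _ _ (sin_pos_lat n hn v (by omega) h1)]
  · rw [if_neg h1]
    have h2 : v = n := by omega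
    subst h2
    rw [sg_zero _ _ (sin_zero_lat n hn n (Or.inr (Or.inl rfl))),
      sg_neg _ _ (cos_neg_lat n hn n (by omega) (by omega))]

theorem b3_eq (n : ℕ) (hn : 0 < n) (u v w : ℤ) (hu0 : 0 < u) (hu1 : u ≤ n) (hw0 : 0 ≤ w)
    (hw1 : w ≤ 2 * n) : b3 n u v w = if 2 * w ≤ n ∨ 3 * (n : ℤ) < 2 * w then 1 else 0 := by
  have hc := sinh_pos n hn u hu0 hu1
  unfold b3 sgs hJ hK
  rw [sg_mul_pos _ _ _ hc, sg_mul_pos _ _ _ hc]
  by_cases h1 : 2 * w < n
  · rw [if_pos (by omega), sg_pos _ _ (cos_pos_lat n hn w (by omega) h1)]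
  · by_cases h2 : 2 * w = n
    · rw [if_pos (by omega), sg_zero _ _ (cos_zero_lat n hn w h2),
        sg_pos _ _ (sin_pos_lat n hn w (by omega) (by omega))]
    · by_cases h3 : 3 * (n : ℤ) < 2 * w
      · rw [if_pos (by omega), sg_pos _ _ (cos_pos_lat' n hn w h3 (by omega))]
      · rw [if_neg (by omega)]
        by_cases h4 : 2 * w = 3 * n
        · rw [sg_zero _ _ (cos_zero_lat' n hn w h4),
            sg_neg _ _ (sin_neg_lat n hn w (by omega) (by omega))]
        · rw [sg_neg _ _ (cos_neg_lat n hn w (by omega) (by omega))]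

theorem c3_eq (n : ℕ) (hn : 0 < n) (u v w : ℤ) (hu0 : 0 < u) (hu1 : u ≤ n) (hw0 : 0 ≤ w)
    (hw1 : w ≤ 2 * n) : c3 n u v w = if w < n ∨ w = 2 * (n : ℤ) then 1 else 0 := by
  have hc := sinh_pos n hn u hu0 hu1
  unfold c3 sgs hJ hK
  rw [sg_mul_pos _ _ _ hc, sg_mul_pos _ _ _ hc]
  by_cases h1 : w = 0 ∨ w = 2 * n
  · rw [if_pos (by omega), sg_zero _ _ (sin_zero_lat n hn w (by omega))]
    rcases h1 with rfl | rfl
    · rw [sg_pos _ _ (cos_pos_lat n hn 0 (by omega) (by omega))]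
    · rw [sg_pos _ _ (cos_pos_lat' n hn _ (by omega) (by omega))]
  · by_cases h2 : w = n
    · rw [if_neg (by omega), sg_zero _ _ (sin_zero_lat n hn w (by omega)), h2,
        sg_neg _ _ (cos_neg_lat n hn n (by omega) (by omega))]
    · by_cases h3 : w < n
      · rw [if_pos (by omega), sg_pos _ _ (sin_pos_lat n hn w (by omega) h3)]
      · rw [if_neg (by omega), sg_neg _ _ (sin_neg_lat n hn w (by omega) (by omega))]

theorem b3_zero (n : ℕ) (hn : 0 < n) (w : ℤ) : b3 n 0 n w = 0 := by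
  have hJ0 : hJ n 0 w = 0 := by simp [hJ]
  have hK0 : hK n 0 w = 0 := by simp [hK]
  have hr : hre n 0 n < 0 := by
    unfold hre
    have := cos_neg_lat n hn n (by omega) (by omega)
    simpa using this
  unfold b3 sgs
  rw [sg_zero _ _ hJ0, sg_zero _ _ hK0, sg_neg _ _ hr]

theorem c3_zero (n : ℕ) (hn : 0 < n) (w : ℤ) : c3 n 0 n w = 0 := by
  have hJ0 : hJ n 0 w = 0 := by simp [hJ]
  have hK0 : hK n 0 w = 0 := by simp [hK]
  have hr : hre n 0 n < 0 := by
    unfold hre
    have := cos_neg_lat n hn n (by omega) (by omega)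
    simpa using this
  unfold c3 sgs
  rw [sg_zero _ _ hK0, sg_zero _ _ hJ0, sg_neg _ _ hr]

/-- The sum of a block (psi, alpha, beta). -/
theorem sum_block3 (n : ℕ) (h4 : 4 ≤ n) :
    ∑ u ∈ Finset.Ico (0 : ℤ) n, ∑ v ∈ Finset.Ico (0 : ℤ) n,
      ∑ w ∈ Finset.Ico (0 : ℤ) (2 * n : ℕ), J3 (a3 n) (b3 n) (c3 n) u v w = 1 := by
  have hn0 : 0 < n := by omega
  -- reduction of the summand
  have hT : ∀ u v w : ℤ, 0 ≤ u → u < n → 0 ≤ v → v < n → 0 ≤ w → w < 2 * n →
      J3 (a3 n) (b3 n) (c3 n) u v w =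
        if u = 0 ∧ v = n - 1 ∧ w = 2 * (n : ℤ) - 1 then 1 else 0 := by
    intro u v w hu0 hu1 hv0 hv1 hw0 hw1
    have t1 : J2 (b3 n (u + 1)) (c3 n (u + 1)) v w = 0 := by
      unfold J2
      rw [b3_eq n hn0 _ (v + 1) w (by omega) (by omega) (by omega) (by omega),
        b3_eq n hn0 _ v w (by omega) (by omega) (by omega) (by omega),
        c3_eq n hn0 _ (v + 1) (w + 1) (by omega) (by omega) (by omega) (by omega),
        c3_eq n hn0 _ v (w + 1) (by omega) (by omega) (by omega) (by omega),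
        z2_add_self, z2_add_self]
      ring
    have t3 : a3 n u v (w + 1) + a3 n u v w = 0 := by
      rw [a3_eq n hn0 u v (w + 1) (by omega) (by omega) (by omega) (by omega),
        a3_eq n hn0 u v w (by omega) (by omega) (by omega) (by omega), z2_add_self]
    have t2 : a3 n u (v + 1) w + a3 n u v w = if v = n - 1 then 1 else 0 := by
      rw [a3_eq n hn0 u (v + 1) w (by omega) (by omega) (by omega) (by omega),
        a3_eq n hn0 u v w (by omega) (by omega) (by omega) (by omega)]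
      by_cases h : v = n - 1
      · rw [if_neg (by omega), if_pos (by omega), if_pos h]; rfl
      · rw [if_pos (by omega), if_pos (by omega), if_neg h]; rfl
    unfold J3
    rw [t1, t3, t2, mul_zero, zero_mul, zero_add, add_zero]
    by_cases hv : v = n - 1
    swap
    · rw [if_neg hv, zero_mul, if_neg (fun h => hv h.2.1)]
    rw [if_pos hv, one_mul]
    have hvn : v + 1 = n := by omega
    rw [hvn]
    unfold J2
    simp only []
    by_cases hu : u = 0
    · subst hu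
      rw [b3_zero n hn0, b3_zero n hn0, c3_zero n hn0,
        b3_eq n hn0 _ n w (by omega) (by omega) (by omega) (by omega),
        c3_eq n hn0 _ n w (by omega) (by omega) (by omega) (by omega),
        c3_eq n hn0 _ n (w + 1) (by omega) (by omega) (by omega) (by omega)]
      by_cases hw : w = 2 * (n : ℤ) - 1
      · rw [if_pos (by omega), if_pos (by omega), if_neg (by omega), if_pos (by omega)]
        decide
      · rw [if_neg (by omega : ¬ ((0 : ℤ) = 0 ∧ v = n - 1 ∧ w = 2 * (n : ℤ) - 1))]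
        split_ifs <;> first | decide | omega
    · rw [if_neg (fun h => hu h.1),
        b3_eq n hn0 _ n w (by omega) (by omega) (by omega) (by omega),
        b3_eq n hn0 u n w (by omega) (by omega) (by omega) (by omega),
        c3_eq n hn0 _ n (w + 1) (by omega) (by omega) (by omega) (by omega),
        c3_eq n hn0 u n (w + 1) (by omega) (by omega) (by omega) (by omega),
        z2_add_self, z2_add_self]
      ring
  have hsum : ∀ u ∈ Finset.Ico (0 : ℤ) n, ∀ v ∈ Finset.Ico (0 : ℤ) n,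
      ∑ w ∈ Finset.Ico (0 : ℤ) (2 * n : ℕ), J3 (a3 n) (b3 n) (c3 n) u v w =
        if u = 0 ∧ v = n - 1 then 1 else 0 := by
    intro u hu v hv
    rw [Finset.mem_Ico] at hu hv
    rw [Finset.sum_congr rfl (fun w hw => hT u v w hu.1 hu.2 hv.1 hv.2 (Finset.mem_Ico.1 hw).1
      (by have := (Finset.mem_Ico.1 hw).2; push_cast at this; exact this))]
    by_cases h : u = 0 ∧ v = n - 1
    · rw [if_pos h, Finset.sum_eq_single (2 * (n : ℤ) - 1)]
      · rw [if_pos ⟨h.1, h.2, rfl⟩]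
      · intro w _ hw
        rw [if_neg (fun h' => hw h'.2.2)]
      · intro h'
        exact absurd (Finset.mem_Ico.2 ⟨by omega, by push_cast; omega⟩) h'
    · rw [if_neg h]
      refine Finset.sum_eq_zero fun w _ => ?_
      rw [if_neg (fun h' => h ⟨h'.1, h'.2.1⟩)]
  rw [Finset.sum_congr rfl (fun u hu => Finset.sum_congr rfl (fun v hv => hsum u hu v hv))]
  rw [Finset.sum_eq_single (0 : ℤ)]
  · rw [Finset.sum_eq_single ((n : ℤ) - 1)]
    · rw [if_pos ⟨rfl, rfl⟩]
    · intro v _ hv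
      rw [if_neg (fun h' => hv h'.2)]
    · intro h'
      exact absurd (Finset.mem_Ico.2 ⟨by omega, by omega⟩) h'
  · intro u _ hu
    refine Finset.sum_eq_zero fun v _ => ?_
    rw [if_neg (fun h' => hu h'.1)]
  · intro h'
    exact absurd (Finset.mem_Ico.2 ⟨by omega, by omega⟩) h'


/-! ## assembly -/

/-- The tie breaking function. -/
noncomputable def rhoS {m : ℕ} (y : Y m) (k : K m) : ZMod 2 :=
  match k with
  | (none, _) => 0
  | (some j, c) =>
    if c = 0 then sgs (y.2 j).1.imI (y.2 j).1.re (y.2 j).1.imJ (y.2 j).1.imK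
    else if c = 1 then sgs (y.2 j).1.imJ (y.2 j).1.imK (y.2 j).1.re (y.2 j).1.imI
    else sgs (y.2 j).1.imK (y.2 j).1.imJ (y.2 j).1.re (y.2 j).1.imI

theorem sg_flip (r : ℝ) (b b' : ZMod 2) (h : r = 0 → b' = b + 1) : sg (-r) b' = sg r b + 1 := by
  rcases lt_trichotomy r 0 with hr | hr | hr
  · rw [sg_neg r _ hr, sg_pos (-r) _ (by linarith)]; rfl
  · rw [sg_zero r _ hr, sg_zero (-r) _ (by linarith), h hr]
  · rw [sg_pos r _ hr, sg_neg (-r) _ (by linarith)]; rfl

theorem sgs_neg (p q r t : ℝ) (h : ¬ (p = 0 ∧ q = 0 ∧ r = 0 ∧ t = 0)) :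
    sgs (-p) (-q) (-r) (-t) = sgs p q r t + 1 := by
  unfold sgs
  refine sg_flip _ _ _ fun hp => ?_
  refine sg_flip _ _ _ fun hq => ?_
  refine sg_flip _ _ _ fun hr => ?_
  refine sg_flip _ _ _ fun ht => ?_
  exact absurd ⟨hp, hq, hr, ht⟩ h

theorem S3_ne (q : S3) : ¬ (q.1.re = 0 ∧ q.1.imI = 0 ∧ q.1.imJ = 0 ∧ q.1.imK = 0) := by
  rintro ⟨h1, h2, h3, h4⟩
  have h0 : q.1 = 0 := by
    apply QuaternionAlgebra.ext
    · exact h1
    · exact h2
    · exact h3
    · exact h4
  have h5 := q.2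
  rw [mem_sphere_zero_iff_norm, h0, norm_zero] at h5
  exact zero_ne_one h5

theorem Teta_rhoS (m : ℕ) : Teta (rhoS : Y m → K m → ZMod 2) := by
  intro j y k
  rcases k with ⟨_ | i, c⟩
  · simp [rhoS]
  · by_cases hij : i = j
    · subst hij
      have hup : (etaY i y).2 i = -(y.2 i) := by simp [etaY]
      have hne := S3_ne (y.2 i)
      simp only [rhoS, if_true, hup]
      have e1 : (-(y.2 i) : S3).1.re = -(y.2 i).1.re := rfl
      have e2 : (-(y.2 i) : S3).1.imI = -(y.2 i).1.imI := rfl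
      have e3 : (-(y.2 i) : S3).1.imJ = -(y.2 i).1.imJ := rfl
      have e4 : (-(y.2 i) : S3).1.imK = -(y.2 i).1.imK := rfl
      rw [e1, e2, e3, e4]
      split_ifs
      · rw [sgs_neg _ _ _ _ (fun h => hne ⟨h.2.1, h.1, h.2.2.1, h.2.2.2⟩)]
      · rw [sgs_neg _ _ _ _ (fun h => hne ⟨h.2.2.1, h.2.2.2, h.1, h.2.1⟩)]
      · rw [sgs_neg _ _ _ _ (fun h => hne ⟨h.2.2.1, h.2.2.2, h.2.1, h.1⟩)]
    · have hup : (etaY j y).2 i = y.2 i := by simp [etaY, Function.update_of_ne hij]
      have hne : ¬ ((some i : Option (Fin m)) = some j) := fun h => hij (Option.some.inj h)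
      simp only [rhoS, hup, if_neg hne, add_zero]

section assembly

variable {m : ℕ} (n : ℕ) (E : Y m → ℝ)

theorem sf_a (j : Fin m) (x : Dir m → ℤ) : sf n (stdG E) rhoS (some j, 0) x =
    a3 n (x (Sum.inr (j, 0))) (x (Sum.inr (j, 1))) (x (Sum.inr (j, 2))) := by
  have e1 : ((P n x).2 j).1.re = hre n (x (Sum.inr (j, 0))) (x (Sum.inr (j, 1))) := by
    simp [P, ang, tH, stepA, hre]
  have e2 : ((P n x).2 j).1.imI = hI n (x (Sum.inr (j, 0))) (x (Sum.inr (j, 1))) := by
    simp [P, ang, tH, stepA, hI]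
  have e3 : ((P n x).2 j).1.imJ = hJ n (x (Sum.inr (j, 0))) (x (Sum.inr (j, 2))) := by
    simp [P, ang, tH, stepA, hJ]
  have e4 : ((P n x).2 j).1.imK = hK n (x (Sum.inr (j, 0))) (x (Sum.inr (j, 2))) := by
    simp [P, ang, tH, stepA, hK]
  simp only [sf, stdG, rhoS, if_true]
  rw [e1, e2, e3, e4]
  unfold a3 sgs
  rw [sg_sg]

theorem sf_b (j : Fin m) (x : Dir m → ℤ) : sf n (stdG E) rhoS (some j, 1) x =
    b3 n (x (Sum.inr (j, 0))) (x (Sum.inr (j, 1))) (x (Sum.inr (j, 2))) := by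
  have e1 : ((P n x).2 j).1.re = hre n (x (Sum.inr (j, 0))) (x (Sum.inr (j, 1))) := by
    simp [P, ang, tH, stepA, hre]
  have e2 : ((P n x).2 j).1.imI = hI n (x (Sum.inr (j, 0))) (x (Sum.inr (j, 1))) := by
    simp [P, ang, tH, stepA, hI]
  have e3 : ((P n x).2 j).1.imJ = hJ n (x (Sum.inr (j, 0))) (x (Sum.inr (j, 2))) := by
    simp [P, ang, tH, stepA, hJ]
  have e4 : ((P n x).2 j).1.imK = hK n (x (Sum.inr (j, 0))) (x (Sum.inr (j, 2))) := by
    simp [P, ang, tH, stepA, hK]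
  have h10 : ¬ ((1 : Fin 3) = 0) := by decide
  simp only [sf, stdG, rhoS, if_true, if_neg h10]
  rw [e1, e2, e3, e4]
  unfold b3 sgs
  rw [sg_sg]

theorem sf_c (j : Fin m) (x : Dir m → ℤ) : sf n (stdG E) rhoS (some j, 2) x =
    c3 n (x (Sum.inr (j, 0))) (x (Sum.inr (j, 1))) (x (Sum.inr (j, 2))) := by
  have e1 : ((P n x).2 j).1.re = hre n (x (Sum.inr (j, 0))) (x (Sum.inr (j, 1))) := by
    simp [P, ang, tH, stepA, hre]
  have e2 : ((P n x).2 j).1.imI = hI n (x (Sum.inr (j, 0))) (x (Sum.inr (j, 1))) := by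
    simp [P, ang, tH, stepA, hI]
  have e3 : ((P n x).2 j).1.imJ = hJ n (x (Sum.inr (j, 0))) (x (Sum.inr (j, 2))) := by
    simp [P, ang, tH, stepA, hJ]
  have e4 : ((P n x).2 j).1.imK = hK n (x (Sum.inr (j, 0))) (x (Sum.inr (j, 2))) := by
    simp [P, ang, tH, stepA, hK]
  have h20 : ¬ ((2 : Fin 3) = 0) := by decide
  have h21 : ¬ ((2 : Fin 3) = 1) := by decide
  simp only [sf, stdG, rhoS, if_neg h20, if_neg h21]
  rw [e1, e2, e3, e4]
  unfold c3 sgs
  rw [sg_sg]

theorem sf_1 (x : Dir m → ℤ) : sf n (stdG E) rhoS (none, 1) x =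
    c0 n (x (Sum.inl 0)) (x (Sum.inl 1)) := by
  have e3 : (P n x).1.1.imJ = Real.sin (Real.pi / n * x (Sum.inl 0)) *
      Real.cos (Real.pi / n * x (Sum.inl 1)) := by
    simp [P, ang, aH, stepA]
  have h10 : ¬ ((1 : Fin 3) = 0) := by decide
  simp only [sf, stdG, rhoS, if_true, if_neg h10]
  rw [e3]
  rfl

theorem sf_2 (x : Dir m → ℤ) : sf n (stdG E) rhoS (none, 2) x =
    s0 n (x (Sum.inl 0)) (x (Sum.inl 1)) := by
  have e3 : (P n x).1.1.imK = Real.sin (Real.pi / n * x (Sum.inl 0)) *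
      Real.sin (Real.pi / n * x (Sum.inl 1)) := by
    simp [P, ang, aH, stepA]
  have h20 : ¬ ((2 : Fin 3) = 0) := by decide
  have h21 : ¬ ((2 : Fin 3) = 1) := by decide
  simp only [sf, stdG, rhoS, if_neg h20, if_neg h21]
  rw [e3]
  rfl

/-- The list of functions of a block. -/
noncomputable def Fj (j : Fin m) : List ((Dir m → ℤ) → ZMod 2) :=
  [sf n (stdG E) rhoS (some j, 0), sf n (stdG E) rhoS (some j, 1), sf n (stdG E) rhoS (some j, 2)]

theorem rest_map : (rest m).map (sf n (stdG E) rhoS) =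
    [sf n (stdG E) rhoS (none, 1), sf n (stdG E) rhoS (none, 2)] ++
      (List.finRange m).flatMap (Fj n E) := by
  simp only [rest, List.map_cons, List.map_flatMap, List.map_nil, List.cons_append,
    List.nil_append]
  rfl

theorem Fj_dep (j : Fin m) : ∀ f ∈ Fj n E j, ∀ d ∉ blk j, ∀ y : Dir m → ℤ,
    f (y + st d) = f y := by
  intro f hf d hd y
  have hd' : ∀ c : Fin 3, (y + st d) (Sum.inr (j, c)) = y (Sum.inr (j, c)) := by
    intro c
    have : (Sum.inr (j, c) : Dir m) ≠ d := fun h => hd ((mem_blk j d).2 ⟨c, h.symm⟩)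
    simp [st, this]
  simp only [Fj, List.mem_cons, List.not_mem_nil, or_false] at hf
  rcases hf with rfl | rfl | rfl
  · rw [sf_a, sf_a, hd', hd', hd']
  · rw [sf_b, sf_b, hd', hd', hd']
  · rw [sf_c, sf_c, hd', hd', hd']

omit n E in
theorem inr_ne (j : Fin m) (a b : Fin 3) (h : a ≠ b) :
    (Sum.inr (j, a) : Dir m) ≠ Sum.inr (j, b) :=
  fun h' => h (congrArg Prod.snd (Sum.inr_injective h'))

theorem J_rest (x : Dir m → ℤ) :
    J ((rest m).map (sf n (stdG E) rhoS)) Finset.univ x =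
      J2 (c0 n) (s0 n) (x (Sum.inl 0)) (x (Sum.inl 1)) *
      ∏ j : Fin m, J3 (a3 n) (b3 n) (c3 n) (x (Sum.inr (j, 0))) (x (Sum.inr (j, 1)))
        (x (Sum.inr (j, 2))) := by
  rw [rest_map, univ_eq]
  have h01 : (Sum.inl 0 : Dir m) ≠ Sum.inl 1 := by
    intro h; exact absurd (Sum.inl_injective h) (by decide)
  rw [J_block _ _ {Sum.inl 0, Sum.inl 1} ((List.finRange m).toFinset.biUnion blk)
    {Sum.inl 0, Sum.inl 1} ((List.finRange m).toFinset.biUnion blk) ?_ subset_rfl subset_rfl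
    ?_ ?_ x]
  · rw [J_blocks (Fj n E) (Fj_dep n E) (List.finRange m) (List.nodup_finRange m) x,
      ← Fin.prod_univ_def]
    congr 1
    · exact J_two _ _ (Sum.inl 0) (Sum.inl 1) h01 (c0 n) (s0 n) x _ rfl
        (fun y _ => sf_1 n E y) (fun y _ => sf_2 n E y)
    · refine Finset.prod_congr rfl fun j _ => ?_
      refine J_three _ _ _ (Sum.inr (j, 0)) (Sum.inr (j, 1)) (Sum.inr (j, 2)) ?_ ?_ ?_
        (a3 n) (b3 n) (c3 n) x _ rfl (sf_a n E j) (sf_b n E j) (sf_c n E j)
      · exact inr_ne j 0 1 (by decide)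
      · exact inr_ne j 0 2 (by decide)
      · exact inr_ne j 1 2 (by decide)
  · rw [Finset.disjoint_left]
    intro d hd hd'
    obtain ⟨i, _, hi'⟩ := Finset.mem_biUnion.1 hd'
    obtain ⟨c, hc⟩ := (mem_blk i _).1 hi'
    subst hc
    simp at hd
  · intro f hf d hd y
    have h0 : (y + st d) (Sum.inl 0) = y (Sum.inl 0) := by
      have : (Sum.inl 0 : Dir m) ≠ d := fun h => hd (by simp [← h])
      simp [st, this]
    have h1 : (y + st d) (Sum.inl 1) = y (Sum.inl 1) := by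
      have : (Sum.inl 1 : Dir m) ≠ d := fun h => hd (by simp [← h])
      simp [st, this]
    simp only [List.mem_cons, List.not_mem_nil, or_false] at hf
    rcases hf with rfl | rfl
    · rw [sf_1, sf_1, h0, h1]
    · rw [sf_2, sf_2, h0, h1]
  · intro f hf d hd y
    obtain ⟨i, hi, hfi⟩ := List.mem_flatMap.1 hf
    refine Fj_dep n E i f hfi d (fun h => hd ?_) y
    exact Finset.mem_biUnion.2 ⟨i, List.mem_toFinset.2 hi, h⟩

theorem Deg_std (hn : Even n) (h4 : 4 ≤ n) (e : ℤ → ZMod 2)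
    (he : ∀ x : Dir m → ℤ, sf n (stdG E) rhoS (none, 0) x = e (x (Sum.inl 0))) :
    Deg n (stdG E) rhoS = e 0 + e (n - 1) := by
  unfold Deg
  have h1 : ∀ x ∈ box (Nsz n m), sf n (stdG E) rhoS (none, 0) x *
      J ((rest m).map (sf n (stdG E) rhoS)) Finset.univ x =
      (fun u v => e u * J2 (c0 n) (s0 n) u v) (x (Sum.inl 0)) (x (Sum.inl 1)) *
      ∏ j : Fin m, J3 (a3 n) (b3 n) (c3 n) (x (Sum.inr (j, 0))) (x (Sum.inr (j, 1)))
        (x (Sum.inr (j, 2))) := by
    intro x _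
    rw [J_rest, he, mul_assoc]
  rw [Finset.sum_congr rfl h1,
    sum_box_prod n m (fun u v => e u * J2 (c0 n) (s0 n) u v) (J3 (a3 n) (b3 n) (c3 n)),
    sum_block3 n h4, one_pow, mul_one, sum_block0 n hn h4 e]

end assembly

/-- Degrees of the two standard maps. -/
theorem std_eval (m : ℕ) : ∃ ρ : Y m → K m → ZMod 2, Teta ρ ∧
    ∀ n : ℕ, Even n → 4 ≤ n →
      Deg n (stdG fun _ : Y m => (1 : ℝ)) ρ = 0 ∧
      Deg n (stdG fun y : Y m => y.1.1.imI) ρ = 1 := by
  refine ⟨rhoS, Teta_rhoS m, fun n hn h4 => ⟨?_, ?_⟩⟩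
  · rw [Deg_std n _ hn h4 (fun _ => 1)]
    · rfl
    · intro x
      simp only [sf, stdG, if_true]
      exact sg_pos _ _ one_pos
  · rw [Deg_std n _ hn h4 (fun u => sg (Real.cos (Real.pi / n * u)) 0)]
    · have hn0 : 0 < n := by omega
      rw [sg_pos _ _ (cos_pos_lat n hn0 0 (by omega) (by omega)),
        sg_neg _ _ (cos_neg_lat n hn0 _ (by omega) (by omega)), add_zero]
    · intro x
      have e3 : (P n x).1.1.imI = Real.cos (Real.pi / n * x (Sum.inl 0)) := by
        simp [P, ang, aH, stepA]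
      simp only [sf, stdG, if_true, rhoS]
      rw [e3]

end Pool.Agent.WFP
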