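import Pool.Agent.WFP.Defs

/-!
# WFP/HMB: the homological lower bound
-/

set_option autoImplicit false

namespace Pool.Agent.WFP

/-- A cyclic group which is infinite or has order divisible by `p` maps onto the cyclic group of
order `p`. -/
theorem exists_onto_zmod (G : Type) [Group G] [hc : IsCyclic G] (p : ℕ)
    (h : Infinite G ∨ p ∣ Nat.card G) :
    ∃ f : G →* Multiplicative (ZMod p), Function.Surjective f := by
  have hd : p ∣ Nat.card G := by
    rcases h with h | h
    · rw [Nat.card_eq_zero_of_infinite]; exact dvd_zero p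
    · exact h
  refine ⟨((ZMod.castHom hd (ZMod p)).toAddMonoidHom.toMultiplicative).comp
    (zmodCyclicMulEquiv hc).symm.toMonoidHom, ?_⟩
  rw [MonoidHom.coe_comp]
  refine Function.Surjective.comp ?_ (zmodCyclicMulEquiv hc).symm.surjective
  intro y
  obtain ⟨x, hx⟩ := ZMod.castHom_surjective hd (Multiplicative.toAdd y)
  exact ⟨Multiplicative.ofAdd x, congrArg Multiplicative.ofAdd hx⟩

/-- The number of factors which have the cyclic group of order p as a quotient is a lower bound
of the weight. -/
theorem card_le_of_prime {ι : Type} [Fintype ι] [DecidableEq ι] (G : ι → Type)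
    [∀ i, Group (G i)] [∀ i, IsCyclic (G i)] (S : Finset (Monoid.CoprodI G))
    (hS : Subgroup.normalClosure (S : Set (Monoid.CoprodI G)) = ⊤) (p : ℕ) (hp : p.Prime)
    (T : Finset ι) (hT : ∀ i ∈ T, Infinite (G i) ∨ p ∣ Nat.card (G i)) :
    T.card ≤ S.card := by
  have : Fact p.Prime := ⟨hp⟩
  classical
  have hπ : ∀ i : T, ∃ f : G i →* Multiplicative (ZMod p), Function.Surjective f :=
    fun i => exists_onto_zmod (G i) p (hT i i.2)
  choose π hπs using hπ
  let f : Monoid.CoprodI G →* Multiplicative (T → ZMod p) :=
    Monoid.CoprodI.lift fun i => if h : i ∈ T then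
      ((AddMonoidHom.single (fun _ : T => ZMod p) ⟨i, h⟩).toMultiplicative).comp (π ⟨i, h⟩) else 1
  have hf : ∀ (i : T) (g : G i), f (Monoid.CoprodI.of g) =
      Multiplicative.ofAdd (Pi.single i (Multiplicative.toAdd (π i g))) := by
    intro i g
    have hi : (i : ι) ∈ T := i.2
    simp only [f, Monoid.CoprodI.lift_of, hi, dif_pos]
    rfl
  let W : Submodule (ZMod p) (T → ZMod p) :=
    Submodule.span (ZMod p) ((S.image fun s => Multiplicative.toAdd (f s) : Finset (T → ZMod p)) :
      Set (T → ZMod p))
  have hK : ∀ x : Monoid.CoprodI G, Multiplicative.toAdd (f x) ∈ W := by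
    let L : Subgroup (Multiplicative (T → ZMod p)) := AddSubgroup.toSubgroup W.toAddSubgroup
    have h1 : Subgroup.normalClosure (S : Set (Monoid.CoprodI G)) ≤ L.comap f := by
      refine Subgroup.normalClosure_le_normal ?_
      intro s hs
      have hm : Multiplicative.toAdd (f s) ∈ W := by
        refine Submodule.subset_span ?_
        rw [Finset.coe_image]
        exact ⟨s, hs, rfl⟩
      exact hm
    rw [hS] at h1
    intro x
    exact h1 (Subgroup.mem_top x)
  have hW : W = ⊤ := by
    rw [eq_top_iff]
    intro v _
    have hv : v = ∑ i : T, Pi.single i (v i) := by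
      funext j
      simp [Finset.sum_apply, Pi.single_apply]
    rw [hv]
    refine Submodule.sum_mem _ fun i _ => ?_
    obtain ⟨g, hg⟩ := hπs i (Multiplicative.ofAdd (v i))
    have := hK (Monoid.CoprodI.of g)
    rw [hf i g, hg] at this
    exact this
  have h1 : Module.finrank (ZMod p) W ≤ (S.image fun s => Multiplicative.toAdd (f s)).card :=
    finrank_span_finset_le_card _
  rw [hW, finrank_top, Module.finrank_fintype_fun_eq_card, Fintype.card_coe] at h1
  exact h1.trans Finset.card_image_le

end Pool.Agent.WFP
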