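import Pool.Agent.WFP.QR1

/-!
# WFP/QRD: from free products of cyclic groups to the group `QG m p`
-/

set_option autoImplicit false

namespace Pool.Agent.WFP

/-- A cyclic group whose order is divisible by the characteristic of R maps to the additive group
of R with one in the image. -/
theorem exists_hom_cyclic {G : Type} [Group G] [IsCyclic G] (n : ℕ) (R : Type) [Ring R]
    [CharP R n] (h : n ∣ Nat.card G) :
    ∃ f : G →* Multiplicative R, Multiplicative.ofAdd (1 : R) ∈ f.range := by
  let e : Multiplicative (ZMod (Nat.card G)) ≃* G := zmodCyclicMulEquiv inferInstance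
  let f1 : Multiplicative (ZMod (Nat.card G)) →* Multiplicative R :=
    AddMonoidHom.toMultiplicative (ZMod.castHom h R).toAddMonoidHom
  refine ⟨f1.comp e.symm.toMonoidHom, e (Multiplicative.ofAdd 1), ?_⟩
  show f1 (e.symm (e (Multiplicative.ofAdd 1))) = _
  rw [MulEquiv.symm_apply_apply]
  show Multiplicative.ofAdd ((ZMod.castHom h R) 1) = _
  rw [map_one]

/-- If a free product of cyclic groups has m infinite factors and three finite factors of orders
divisible by p 0, p 1, p 2, and is normally generated by at most m+1 elements, then so is the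
group `QG m p`. -/
theorem reduce_Q {ι : Type} [DecidableEq ι] (G : ι → Type)
    [∀ i, Group (G i)] [∀ i, IsCyclic (G i)] (S : Finset (Monoid.CoprodI G))
    (hS : Subgroup.normalClosure (S : Set (Monoid.CoprodI G)) = ⊤) (m : ℕ)
    (hcard : S.card ≤ m + 1) (t : Fin m → ι) (ht : Function.Injective t)
    (htinf : ∀ j, Infinite (G (t j))) (i : Fin 3 → ι) (hi : Function.Injective i)
    (hfin : ∀ l, Finite (G (i l))) (p : Fin 3 → ℕ) (hp : ∀ l, (p l).Prime)
    (hdvd : ∀ l, p l ∣ Nat.card (G (i l))) :
    ∃ r : Fin (m + 1) → QG m p, Subgroup.normalClosure (Set.range r) = ⊤ := by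
  classical
  haveI : ∀ l, NeZero (p l) := fun l => ⟨(hp l).ne_zero⟩
  have hfam : ∀ a : ι, ∃ f : G a →* QG m p, (∀ j, t j = a → gT j ∈ f.range) ∧
      ∀ l, i l = a → gX l ∈ f.range := by
    intro a
    by_cases h1 : ∃ j, t j = a
    · obtain ⟨j, rfl⟩ := h1
      haveI := htinf j
      obtain ⟨f, x, hx⟩ := exists_hom_cyclic (G := G (t j)) 0 ℤ (by
        rw [Nat.card_eq_zero_of_infinite])
      have hT : gT j ∈ ((Monoid.CoprodI.of (M := Fac m p) (i := Sum.inl j)).comp
          (f : G (t j) →* Fac m p (Sum.inl j))).range := by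
        refine ⟨x, ?_⟩
        rw [MonoidHom.comp_apply]
        unfold gT
        congr 1
      refine ⟨(Monoid.CoprodI.of (M := Fac m p) (i := Sum.inl j)).comp
          (f : G (t j) →* Fac m p (Sum.inl j)), ?_, ?_⟩
      · intro j' hj'
        have := ht hj'
        subst this
        exact hT
      · intro l hl
        exfalso
        have h2 := hfin l
        rw [hl] at h2
        exact not_finite (G (t j))
    · by_cases h2 : ∃ l, i l = a
      · obtain ⟨l, rfl⟩ := h2
        obtain ⟨f, x, hx⟩ := exists_hom_cyclic (G := G (i l)) (p l) (ZMod (p l)) (hdvd l)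
        have hX : gX l ∈ ((Monoid.CoprodI.of (M := Fac m p) (i := Sum.inr l)).comp
            (f : G (i l) →* Fac m p (Sum.inr l))).range := by
          refine ⟨x, ?_⟩
          rw [MonoidHom.comp_apply]
          unfold gX
          congr 1
        refine ⟨(Monoid.CoprodI.of (M := Fac m p) (i := Sum.inr l)).comp
            (f : G (i l) →* Fac m p (Sum.inr l)), ?_, ?_⟩
        · intro j hj
          exact absurd ⟨j, hj⟩ h1
        · intro l' hl'
          have := hi hl'
          subst this
          exact hX
      · exact ⟨1, fun j hj => absurd ⟨j, hj⟩ h1, fun l hl => absurd ⟨l, hl⟩ h2⟩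
  choose fam hfamT hfamX using hfam
  let π : Monoid.CoprodI G →* QG m p := Monoid.CoprodI.lift fam
  have hπ : Function.Surjective π := by
    rw [← MonoidHom.range_eq_top]
    refine closure_gen π.range ?_ ?_
    · intro j
      obtain ⟨x, hx⟩ := hfamT (t j) j rfl
      exact ⟨Monoid.CoprodI.of x, by rw [← hx]; exact Monoid.CoprodI.lift_of fam x⟩
    · intro l
      obtain ⟨x, hx⟩ := hfamX (i l) l rfl
      exact ⟨Monoid.CoprodI.of x, by rw [← hx]; exact Monoid.CoprodI.lift_of fam x⟩
  have hnc : Subgroup.normalClosure (π '' (S : Set (Monoid.CoprodI G))) = ⊤ := by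
    rw [← Subgroup.map_normalClosure _ π hπ, hS, ← MonoidHom.range_eq_map,
      MonoidHom.range_eq_top]
    exact hπ
  refine ⟨fun k => (S.toList.map π).getD k 1, ?_⟩
  rw [eq_top_iff, ← hnc]
  refine Subgroup.normalClosure_mono ?_
  rintro _ ⟨s, hs, rfl⟩
  have hs' : π s ∈ S.toList.map π := List.mem_map_of_mem (Finset.mem_toList.2 hs)
  obtain ⟨k, hk, hk'⟩ := List.getElem_of_mem hs'
  have hk2 : k < m + 1 := by
    rw [List.length_map, Finset.length_toList] at hk
    omega
  refine ⟨⟨k, hk2⟩, ?_⟩
  show (S.toList.map π).getD k 1 = π s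
  rw [List.getD_eq_getElem _ _ hk]
  exact hk'

end Pool.Agent.WFP
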