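import Pool.Agent.WFP.COR
import Pool.Agent.WFP.HMB
import Pool.Agent.WFP.QRD

/-!
# WFP/FIN: the theorem
-/

set_option autoImplicit false

namespace Pool.Agent.WFP

/-- The weight of a free product of n cyclic groups, m of them infinite (m positive), is at least
min (n/2, m+2). -/
theorem weight_ge (n : ℕ) (G : Fin n → Type) [∀ i, Group (G i)] [∀ i, IsCyclic (G i)]
    [∀ i, Nontrivial (G i)] (hm : 0 < Nat.card {i : Fin n // Infinite (G i)})
    (S : Finset (Monoid.CoprodI G))
    (hS : Subgroup.normalClosure (S : Set (Monoid.CoprodI G)) = ⊤) :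
    min n (2 * Nat.card {i : Fin n // Infinite (G i)} + 4) ≤ 2 * S.card := by
  classical
  set I : Finset (Fin n) := Finset.univ.filter fun i => Infinite (G i) with hI
  set J : Finset (Fin n) := Finset.univ.filter fun i => ¬ Infinite (G i) with hJ
  have hc : Nat.card {i : Fin n // Infinite (G i)} = I.card := by
    rw [Nat.card_eq_fintype_card, Fintype.card_subtype]
  have hIJ : I.card + J.card = n := by
    have := Finset.card_filter_add_card_filter_not (s := (Finset.univ : Finset (Fin n)))
      (fun i => Infinite (G i))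
    rw [Finset.card_univ, Fintype.card_fin] at this
    exact this
  rw [hc] at hm ⊢
  by_contra hcon
  rw [not_le, lt_min_iff] at hcon
  obtain ⟨c1, c2⟩ := hcon
  have hIinf : ∀ i ∈ I, Infinite (G i) := fun i hi => (Finset.mem_filter.1 hi).2
  have hJfin : ∀ i ∈ J, Finite (G i) := fun i hi => not_infinite_iff_finite.1 (Finset.mem_filter.1 hi).2
  -- prime divisors
  have hq : ∀ i : Fin n, ∃ q : ℕ, q.Prime ∧ (i ∈ J → q ∣ Nat.card (G i)) := by
    intro i
    by_cases hi : i ∈ J
    · have := hJfin i hi
      have h1 : Nat.card (G i) ≠ 1 := (Finite.one_lt_card).ne'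
      obtain ⟨q, hq1, hq2⟩ := Nat.exists_prime_and_dvd h1
      exact ⟨q, hq1, fun _ => hq2⟩
    · exact ⟨2, Nat.prime_two, fun h => absurd h hi⟩
  choose q hqp hqd using hq
  -- no two finite factors with the same prime
  have hinj : ∀ i ∈ J, ∀ j ∈ J, q i = q j → i = j := by
    intro i hi j hj hij
    by_contra hne
    have h1 := card_le_of_prime G S hS (q i) (hqp i) (I ∪ {i, j}) (by
      intro k hk
      rcases Finset.mem_union.1 hk with h | h
      · exact Or.inl (hIinf k h)
      · right
        rcases Finset.mem_insert.1 h with h | h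
        · rw [h]; exact hqd i hi
        · rw [Finset.mem_singleton.1 h, hij]; exact hqd j hj)
    have h2 : Disjoint I ({i, j} : Finset (Fin n)) := by
      rw [Finset.disjoint_left]
      intro k hk hk'
      have h3 := hIinf k hk
      rcases Finset.mem_insert.1 hk' with h | h
      · rw [h] at h3
        exact (Finset.mem_filter.1 hi).2 h3
      · rw [Finset.mem_singleton.1 h] at h3
        exact (Finset.mem_filter.1 hj).2 h3
    rw [Finset.card_union_of_disjoint h2, Finset.card_pair hne] at h1
    omega
  -- many finite factors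
  have hJ4 : 4 ≤ J.card := by
    rcases Finset.eq_empty_or_nonempty J with h | ⟨i, hi⟩
    · have h1 := card_le_of_prime G S hS 2 Nat.prime_two I (fun k hk => Or.inl (hIinf k hk))
      rw [h, Finset.card_empty] at hIJ
      omega
    · have h1 := card_le_of_prime G S hS (q i) (hqp i) (insert i I) (by
        intro k hk
        rcases Finset.mem_insert.1 hk with h | h
        · right; rw [h]; exact hqd i hi
        · exact Or.inl (hIinf k h))
      have h2 : i ∉ I := fun h => (Finset.mem_filter.1 hi).2 (hIinf i h)
      rw [Finset.card_insert_of_notMem h2] at h1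
      omega
  -- three odd primes
  set L : Finset (Fin n) := J.filter fun i => q i ≠ 2 with hL
  have hL3 : 3 ≤ L.card := by
    have h1 := Finset.card_filter_add_card_filter_not (s := J) (fun i => q i ≠ 2)
    have h2 : (J.filter fun i => ¬ (q i ≠ 2)).card ≤ 1 := by
      rw [Finset.card_le_one]
      intro a ha b hb
      rw [Finset.mem_filter] at ha hb
      have h3 := not_not.1 ha.2
      have h4 := not_not.1 hb.2
      exact hinj a ha.1 b hb.1 (h3.trans h4.symm)
    have h5 : (J.filter fun i => q i ≠ 2).card = L.card := rfl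
    omega
  obtain ⟨L', hL', hL'3⟩ := Finset.exists_subset_card_eq hL3
  let i : Fin 3 → Fin n := L'.orderEmbOfFin hL'3
  have hi : Function.Injective i := (L'.orderEmbOfFin hL'3).injective
  have hiL : ∀ l, i l ∈ L := fun l => hL' (Finset.orderEmbOfFin_mem L' hL'3 l)
  let t : Fin I.card → Fin n := I.orderEmbOfFin rfl
  have ht : Function.Injective t := (I.orderEmbOfFin rfl).injective
  have htI : ∀ j, t j ∈ I := fun j => Finset.orderEmbOfFin_mem I rfl j
  have hiJ : ∀ l, i l ∈ J := fun l => (Finset.mem_filter.1 (hiL l)).1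
  obtain ⟨r, hr⟩ := reduce_Q G S hS I.card (by omega) t ht (fun j => hIinf _ (htI j)) i hi
    (fun l => hJfin _ (hiJ l)) (fun l => q (i l)) (fun l => hqp _) (fun l => hqd _ (hiJ l))
  exact core_Q I.card (fun l => q (i l)) (fun l => hqp _)
    (fun l => (hqp _).odd_of_ne_two (Finset.mem_filter.1 (hiL l)).2)
    (fun a b hab => hi (hinj _ (hiJ a) _ (hiJ b) hab)) r hr

end Pool.Agent.WFP
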