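import Pool.Agent.WFP.Defs

/-!
# WFP/GRD: algebra of the cubical cup product `J`
-/

set_option autoImplicit false

namespace Pool.Agent.WFP

variable {ι : Type} [DecidableEq ι]

/-- Addition of an element of `ZMod 2` to itself. -/
theorem z2_add_self (a : ZMod 2) : a + a = 0 := by
  revert a; decide

/-- A symmetric double sum over ordered pairs vanishes in characteristic two. -/
theorem sum_symm_pairs (D : Finset ι) (φ : ι → ι → ZMod 2) (h : ∀ a b, φ a b = φ b a) :
    ∑ d ∈ D, ∑ d' ∈ D.erase d, φ d d' = 0 := by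
  rw [Finset.sum_sigma' D (fun d => D.erase d) (fun d d' => φ d d')]
  refine Finset.sum_involution (fun a _ => ⟨a.2, a.1⟩) ?_ ?_ ?_ ?_
  · intro a _
    simp only
    rw [h a.2 a.1]
    exact z2_add_self _
  · intro a ha _ hEq
    simp only [Finset.mem_sigma, Finset.mem_erase] at ha
    apply ha.2.1
    have := congrArg Sigma.fst hEq
    simpa using this
  · intro a ha
    simp only [Finset.mem_sigma, Finset.mem_erase] at ha ⊢
    exact ⟨ha.2.2, fun he => ha.2.1 he.symm, ha.1⟩
  · intro a _
    rfl

/-- Unfolding of `J`. -/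
theorem J_cons (f : (ι → ℤ) → ZMod 2) (l : List ((ι → ℤ) → ZMod 2)) (D : Finset ι)
    (x : ι → ℤ) :
    J (f :: l) D x = ∑ d ∈ D, (f (x + st d) + f x) * J l (D.erase d) (x + st d) := rfl

/-- The cocycle property implies the coboundary formula. -/
theorem J_stokes_of_closed (f : (ι → ℤ) → ZMod 2) (l : List ((ι → ℤ) → ZMod 2)) (D : Finset ι)
    (x : ι → ℤ)
    (h : ∑ d ∈ D, (J l (D.erase d) (x + st d) + J l (D.erase d) x) = 0) :
    J (f :: l) D x =
      ∑ d ∈ D, (f (x + st d) * J l (D.erase d) (x + st d) + f x * J l (D.erase d) x) := by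
  rw [J_cons]
  have h2 : ∑ d ∈ D, (f (x + st d) * J l (D.erase d) (x + st d) + f x * J l (D.erase d) x)
      = ∑ d ∈ D, ((f (x + st d) + f x) * J l (D.erase d) (x + st d)
        + f x * (J l (D.erase d) (x + st d) + J l (D.erase d) x)) := by
    refine Finset.sum_congr rfl fun d _ => ?_
    have := z2_add_self (f x * J l (D.erase d) (x + st d))
    linear_combination (-1 : ZMod 2) * this
  rw [h2, Finset.sum_add_distrib, ← Finset.mul_sum, h, mul_zero, add_zero]

/-- `J l` is a cocycle. -/
theorem J_closed (l : List ((ι → ℤ) → ZMod 2)) (D : Finset ι) (x : ι → ℤ) :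
    ∑ d ∈ D, (J l (D.erase d) (x + st d) + J l (D.erase d) x) = 0 := by
  induction l generalizing D x with
  | nil =>
    refine Finset.sum_eq_zero fun d _ => ?_
    exact z2_add_self _
  | cons f l ih =>
    have key : ∀ d ∈ D, (J (f :: l) (D.erase d) (x + st d) + J (f :: l) (D.erase d) x)
        = ∑ d' ∈ D.erase d,
          ((f (x + st d + st d') * J l ((D.erase d).erase d') (x + st d + st d')
            + f (x + st d) * J l ((D.erase d).erase d') (x + st d))
          + (f (x + st d') * J l ((D.erase d).erase d') (x + st d')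
            + f x * J l ((D.erase d).erase d') x)) := by
      intro d _
      rw [J_stokes_of_closed f l _ _ (ih _ _), J_stokes_of_closed f l _ _ (ih _ _),
        ← Finset.sum_add_distrib]
    rw [Finset.sum_congr rfl key]
    refine sum_symm_pairs D (fun d d' =>
      ((f (x + st d + st d') * J l ((D.erase d).erase d') (x + st d + st d')
            + f (x + st d) * J l ((D.erase d).erase d') (x + st d))
          + (f (x + st d') * J l ((D.erase d).erase d') (x + st d')
            + f x * J l ((D.erase d).erase d') x))) ?_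
    intro a b
    rw [Finset.erase_right_comm, add_right_comm x (st a) (st b)]
    ring

/-- `J (f :: l)` is the coboundary of `f * J l`. -/
theorem J_stokes (f : (ι → ℤ) → ZMod 2) (l : List ((ι → ℤ) → ZMod 2)) (D : Finset ι)
    (x : ι → ℤ) :
    J (f :: l) D x =
      ∑ d ∈ D, (f (x + st d) * J l (D.erase d) (x + st d) + f x * J l (D.erase d) x) :=
  J_stokes_of_closed f l D x (J_closed l D x)

/-- Invariance under a translation which changes every function by a constant. -/
theorem J_shift (l : List ((ι → ℤ) → ZMod 2)) (D : Finset ι) (x v : ι → ℤ)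
    (h : ∀ f ∈ l, ∃ c : ZMod 2, ∀ y, f (y + v) = f y + c) :
    J l D (x + v) = J l D x := by
  induction l generalizing D x with
  | nil => rfl
  | cons f l ih =>
    rw [J_cons, J_cons]
    refine Finset.sum_congr rfl fun d _ => ?_
    rw [add_right_comm x v (st d), ih _ _ (fun g hg => h g (List.mem_cons_of_mem _ hg))]
    obtain ⟨c, hc⟩ := h f List.mem_cons_self
    rw [hc, hc]
    have := z2_add_self c
    linear_combination (J l (D.erase d) (x + st d)) * this

/-- `J` vanishes where the functions do not depend on one of the directions. -/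
theorem J_flat (l : List ((ι → ℤ) → ZMod 2)) (D : Finset ι) (x : ι → ℤ) (d₀ d₁ : ι) (c : ℤ)
    (h : ∀ f ∈ l, ∀ y : ι → ℤ, y d₀ = c → f (y + st d₁) = f y)
    (hx : x d₀ = c) (h0 : d₀ ∉ D) (h1 : d₁ ∈ D) :
    J l D x = 0 := by
  induction l generalizing D x with
  | nil =>
    have : D ≠ ∅ := Finset.ne_empty_of_mem h1
    simp [J, this]
  | cons f l ih =>
    rw [J_cons]
    refine Finset.sum_eq_zero fun d hd => ?_
    by_cases hdd : d = d₁
    · subst hdd
      rw [h f List.mem_cons_self x hx, z2_add_self, zero_mul]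
    · have hd0 : d ≠ d₀ := fun he => h0 (he ▸ hd)
      rw [ih (D.erase d) (x + st d) (fun g hg => h g (List.mem_cons_of_mem _ hg)) ?_ ?_ ?_,
        mul_zero]
      · simp [st, hd0.symm, hx]
      · exact fun hm => h0 (Finset.mem_of_mem_erase hm)
      · exact Finset.mem_erase.2 ⟨fun he => hdd he.symm, h1⟩

/-- `J` vanishes if the functions do not depend on one of the directions. -/
theorem J_flat_all (l : List ((ι → ℤ) → ZMod 2)) (D : Finset ι) (x : ι → ℤ) (d₁ : ι)
    (h : ∀ f ∈ l, ∀ y : ι → ℤ, f (y + st d₁) = f y) (h1 : d₁ ∈ D) :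
    J l D x = 0 := by
  induction l generalizing D x with
  | nil =>
    have : D ≠ ∅ := Finset.ne_empty_of_mem h1
    simp [J, this]
  | cons f l ih =>
    rw [J_cons]
    refine Finset.sum_eq_zero fun d hd => ?_
    by_cases hdd : d = d₁
    · subst hdd
      rw [h f List.mem_cons_self x, z2_add_self, zero_mul]
    · rw [ih (D.erase d) (x + st d) (fun g hg => h g (List.mem_cons_of_mem _ hg))
        (Finset.mem_erase.2 ⟨fun he => hdd he.symm, h1⟩), mul_zero]

/-- If `J` is nonzero on a cube then every function changes along an edge of the cube. -/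
theorem J_change (l : List ((ι → ℤ) → ZMod 2)) (D : Finset ι) (x : ι → ℤ) (h : J l D x ≠ 0) :
    ∀ f ∈ l, ∃ y : ι → ℤ, ∃ d ∈ D, f (y + st d) ≠ f y ∧ y d = x d ∧
      ∀ i, y i = x i ∨ (i ∈ D ∧ y i = x i + 1) := by
  induction l generalizing D x with
  | nil => intro f hf; simp at hf
  | cons g l ih =>
    rw [J_cons] at h
    obtain ⟨d, hd, hne⟩ := Finset.exists_ne_zero_of_sum_ne_zero h
    have h1 : g (x + st d) + g x ≠ 0 := left_ne_zero_of_mul hne
    have h2 : J l (D.erase d) (x + st d) ≠ 0 := right_ne_zero_of_mul hne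
    intro f hf
    rcases List.mem_cons.1 hf with rfl | hf
    · refine ⟨x, d, hd, ?_, rfl, fun i => Or.inl rfl⟩
      intro he
      apply h1
      rw [he]
      exact z2_add_self _
    · obtain ⟨y, d', hd', hy1, hy2, hy3⟩ := ih (D.erase d) (x + st d) h2 f hf
      obtain ⟨hne', hD'⟩ := Finset.mem_erase.1 hd'
      refine ⟨y, d', hD', hy1, ?_, ?_⟩
      · rw [hy2]; simp [st, hne']
      · intro i
        by_cases hi : i = d
        · subst hi
          rcases hy3 i with h3 | ⟨h3, _⟩
          · right
            refine ⟨hd, ?_⟩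
            rw [h3]; simp [st]
          · exact absurd rfl (Finset.mem_erase.1 h3).1
        · rcases hy3 i with h3 | ⟨h3, h4⟩
          · left; rw [h3]; simp [st, hi]
          · right
            refine ⟨Finset.mem_of_mem_erase h3, ?_⟩
            rw [h4]; simp [st, hi]

/-- `J` only depends on the values of the functions on the cube. -/
theorem J_congr (l l' : List ((ι → ℤ) → ZMod 2)) (D : Finset ι) (x : ι → ℤ)
    (h : List.Forall₂ (fun f g : (ι → ℤ) → ZMod 2 =>
      ∀ y : ι → ℤ, (∀ i, y i = x i ∨ (i ∈ D ∧ y i = x i + 1)) → f y = g y) l l') :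
    J l D x = J l' D x := by
  induction l generalizing l' D x with
  | nil =>
    cases h
    rfl
  | cons f l ih =>
    cases h with
    | cons h1 h2 =>
      rename_i g l''
      rw [J_cons, J_cons]
      refine Finset.sum_congr rfl fun d hd => ?_
      have e1 : f (x + st d) = g (x + st d) := by
        apply h1
        intro i
        by_cases hi : i = d
        · subst hi
          exact Or.inr ⟨hd, by simp [st]⟩
        · exact Or.inl (by simp [st, hi])
      have e2 : f x = g x := h1 x fun i => Or.inl rfl
      rw [e1, e2]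
      congr 1
      apply ih
      refine h2.imp ?_
      intro f' g' hfg y hy
      apply hfg
      intro i
      by_cases hi : i = d
      · subst hi
        rcases hy i with h3 | ⟨h3, _⟩
        · right
          refine ⟨hd, ?_⟩
          rw [h3]; simp [st]
        · exact absurd rfl (Finset.mem_erase.1 h3).1
      · rcases hy i with h3 | ⟨h3, h4⟩
        · left; rw [h3]; simp [st, hi]
        · right
          refine ⟨Finset.mem_of_mem_erase h3, ?_⟩
          rw [h4]; simp [st, hi]

/-- Product formula for functions which depend on disjoint sets of coordinates. -/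
theorem J_block (l₁ l₂ : List ((ι → ℤ) → ZMod 2)) (A₁ A₂ D₁ D₂ : Finset ι)
    (hA : Disjoint A₁ A₂) (hD₁ : D₁ ⊆ A₁) (hD₂ : D₂ ⊆ A₂)
    (h₁ : ∀ f ∈ l₁, ∀ d ∉ A₁, ∀ y, f (y + st d) = f y)
    (h₂ : ∀ f ∈ l₂, ∀ d ∉ A₂, ∀ y, f (y + st d) = f y) (x : ι → ℤ) :
    J (l₁ ++ l₂) (D₁ ∪ D₂) x = J l₁ D₁ x * J l₂ D₂ x := by
  induction l₁ generalizing D₁ x with
  | nil =>
    rw [List.nil_append]
    by_cases hD : D₁ = ∅
    · subst hD
      simp [J]
    · obtain ⟨d, hd⟩ := Finset.nonempty_iff_ne_empty.2 hD
      have hdA : d ∉ A₂ := fun h => Finset.disjoint_left.1 hA (hD₁ hd) h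
      rw [J_flat_all l₂ (D₁ ∪ D₂) x d (fun f hf y => h₂ f hf d hdA y)
        (Finset.mem_union_left _ hd)]
      simp [J, hD]
  | cons f l₁ ih =>
    rw [List.cons_append, J_cons, J_cons]
    have hdisj : Disjoint D₁ D₂ := Finset.disjoint_of_subset_left hD₁
      (Finset.disjoint_of_subset_right hD₂ hA)
    rw [Finset.sum_union hdisj]
    have hz : ∑ d ∈ D₂, (f (x + st d) + f x) * J (l₁ ++ l₂) ((D₁ ∪ D₂).erase d) (x + st d)
        = 0 := by
      refine Finset.sum_eq_zero fun d hd => ?_
      have hdA : d ∉ A₁ := fun h => Finset.disjoint_left.1 hA h (hD₂ hd)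
      rw [h₁ f List.mem_cons_self d hdA, z2_add_self, zero_mul]
    rw [hz, add_zero, Finset.sum_mul]
    refine Finset.sum_congr rfl fun d hd => ?_
    have hd2 : d ∉ D₂ := Finset.disjoint_left.1 hdisj hd
    have hdA2 : d ∉ A₂ := Finset.disjoint_left.1 hA (hD₁ hd)
    have he : (D₁ ∪ D₂).erase d = D₁.erase d ∪ D₂ := by
      rw [Finset.erase_union_distrib, Finset.erase_eq_of_notMem hd2]
    rw [he, ih (D₁.erase d) ((Finset.erase_subset _ _).trans hD₁)
      (fun g hg => h₁ g (List.mem_cons_of_mem _ hg)) (x + st d)]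
    have hs : J l₂ D₂ (x + st d) = J l₂ D₂ x := by
      apply J_shift
      intro g hg
      exact ⟨0, fun y => by rw [h₂ g hg d hdA2 y, add_zero]⟩
    rw [hs, mul_assoc]

/-- The step in a direction of the slice. -/
theorem consO_add_st (c : ℤ) (x : ι → ℤ) (d : ι) :
    consO c x + st (some d) = consO c (x + st d) := by
  funext o
  cases o with
  | none => simp [consO, st]
  | some i =>
    by_cases hi : i = d
    · subst hi; simp [consO, st]
    · simp [consO, st, hi]

/-- Slices. -/
theorem J_slice (l : List ((Option ι → ℤ) → ZMod 2)) (D : Finset ι) (c : ℤ) (x : ι → ℤ) :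
    J l (D.map Function.Embedding.some) (consO c x) = J (l.map (slice c)) D x := by
  induction l generalizing D x with
  | nil => simp [J]
  | cons f l ih =>
    rw [List.map_cons, J_cons, J_cons, Finset.sum_map]
    refine Finset.sum_congr rfl fun d _ => ?_
    have he : (D.map Function.Embedding.some).erase (Function.Embedding.some d)
        = (D.erase d).map Function.Embedding.some := (Finset.map_erase _ _ _).symm
    rw [he]
    have hc : consO c x + st (Function.Embedding.some d) = consO c (x + st d) :=
      consO_add_st c x d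
    rw [hc, ih]
    rfl

end Pool.Agent.WFP
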