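import Pool.Agent.WFP.Defs

/-!
# WFP/PAR: the lattice of angles, the involution and the antipodes; tie breaking functions
-/

set_option autoImplicit false

open Quaternion

namespace Pool.Agent.WFP

/-- Continuity of a quaternion given by components. -/
theorem continuous_quat {X : Type} [TopologicalSpace X] {f0 f1 f2 f3 : X → ℝ}
    (h0 : Continuous f0) (h1 : Continuous f1) (h2 : Continuous f2) (h3 : Continuous f3) :
    Continuous (Y := ℍ[ℝ]) (fun x => ⟨f0 x, f1 x, f2 x, f3 x⟩) := by
  have h : Continuous (fun x => Quaternion.linearIsometryEquivTuple.symm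
      (WithLp.toLp 2 ![f0 x, f1 x, f2 x, f3 x])) := by
    refine Quaternion.linearIsometryEquivTuple.symm.continuous.comp ?_
    refine (PiLp.continuous_toLp 2 _).comp ?_
    refine continuous_pi fun i => ?_
    fin_cases i
    · exact h0
    · exact h1
    · exact h2
    · exact h3
  exact h

theorem continuous_tauH : Continuous tauH :=
  continuous_quat (f0 := fun q : ℍ[ℝ] => q.re) (f1 := fun q : ℍ[ℝ] => q.imI)
    (f2 := fun q : ℍ[ℝ] => -q.imJ) (f3 := fun q : ℍ[ℝ] => -q.imK)
    Quaternion.continuous_re Quaternion.continuous_imI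
    Quaternion.continuous_imJ.neg Quaternion.continuous_imK.neg

theorem continuous_aH : Continuous (fun q : ℝ × ℝ => aH q.1 q.2) :=
  continuous_quat (f0 := fun _ : ℝ × ℝ => (0 : ℝ)) (f1 := fun q : ℝ × ℝ => Real.cos q.1)
    (f2 := fun q : ℝ × ℝ => Real.sin q.1 * Real.cos q.2)
    (f3 := fun q : ℝ × ℝ => Real.sin q.1 * Real.sin q.2)
    (by fun_prop) (by fun_prop) (by fun_prop) (by fun_prop)

theorem continuous_tH : Continuous (fun q : ℝ × ℝ × ℝ => tH q.1 q.2.1 q.2.2) :=
  continuous_quat (f0 := fun q : ℝ × ℝ × ℝ => Real.cos q.1 * Real.cos q.2.1)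
    (f1 := fun q : ℝ × ℝ × ℝ => Real.cos q.1 * Real.sin q.2.1)
    (f2 := fun q : ℝ × ℝ × ℝ => Real.sin q.1 * Real.cos q.2.2)
    (f3 := fun q : ℝ × ℝ × ℝ => Real.sin q.1 * Real.sin q.2.2)
    (by fun_prop) (by fun_prop) (by fun_prop) (by fun_prop)

/-- The parametrization is continuous. -/
theorem continuous_ang (m : ℕ) : Continuous (ang : (Dir m → ℝ) → Y m) := by
  unfold ang
  refine Continuous.prodMk ?_ ?_
  · refine Continuous.subtype_mk ?_ _
    exact continuous_aH.comp (Continuous.prodMk (continuous_apply _) (continuous_apply _))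
  · refine continuous_pi fun j => ?_
    refine Continuous.subtype_mk ?_ _
    exact continuous_tH.comp (Continuous.prodMk (continuous_apply _)
      (Continuous.prodMk (continuous_apply _) (continuous_apply _)))

theorem continuous_tauY (m : ℕ) : Continuous (tauY : Y m → Y m) := by
  unfold tauY
  refine Continuous.prodMk ?_ ?_
  · unfold tauS2
    exact Continuous.subtype_mk (continuous_tauH.comp (continuous_subtype_val.comp continuous_fst)) _
  · refine continuous_pi fun j => ?_
    unfold tauS3
    exact Continuous.subtype_mk (continuous_tauH.comp (continuous_subtype_val.comp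
      ((continuous_apply j).comp continuous_snd))) _

theorem isClosed_isFix (m : ℕ) : IsClosed {y : Y m | IsFix y} := by
  have ca : Continuous fun y : Y m => (y.1.1 : ℍ[ℝ]) :=
    continuous_subtype_val.comp continuous_fst
  have ct : ∀ j, Continuous fun y : Y m => ((y.2 j).1 : ℍ[ℝ]) := fun j =>
    continuous_subtype_val.comp ((continuous_apply j).comp continuous_snd)
  have e : {y : Y m | IsFix y} = ({y : Y m | y.1.1.imJ = 0} ∩ {y : Y m | y.1.1.imK = 0}) ∩
      ⋂ j : Fin m, (({y : Y m | (y.2 j).1.imJ = 0} ∩ {y : Y m | (y.2 j).1.imK = 0}) ∪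
        ({y : Y m | (y.2 j).1.re = 0} ∩ {y : Y m | (y.2 j).1.imI = 0})) := by
    ext y
    simp [IsFix]
  rw [e]
  refine IsClosed.inter (IsClosed.inter ?_ ?_) (isClosed_iInter fun j =>
    IsClosed.union (IsClosed.inter ?_ ?_) (IsClosed.inter ?_ ?_))
  · exact isClosed_eq (Quaternion.continuous_imJ.comp ca) continuous_const
  · exact isClosed_eq (Quaternion.continuous_imK.comp ca) continuous_const
  · exact isClosed_eq (Quaternion.continuous_imJ.comp (ct j)) continuous_const
  · exact isClosed_eq (Quaternion.continuous_imK.comp (ct j)) continuous_const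
  · exact isClosed_eq (Quaternion.continuous_re.comp (ct j)) continuous_const
  · exact isClosed_eq (Quaternion.continuous_imI.comp (ct j)) continuous_const

theorem isFix_tauY {m : ℕ} (y : Y m) : IsFix (tauY y) ↔ IsFix y := by
  simp [IsFix, tauY, tauS2, tauS3, tauH]

/-- Equality of points of `Y m`. -/
theorem Y_ext {m : ℕ} {y z : Y m} (h1 : (y.1.1 : ℍ[ℝ]) = z.1.1)
    (h2 : ∀ j, ((y.2 j).1 : ℍ[ℝ]) = (z.2 j).1) : y = z :=
  Prod.ext (Subtype.ext h1) (funext fun j => Subtype.ext (h2 j))

theorem P_fst {m : ℕ} (n : ℕ) (x : Dir m → ℤ) :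
    ((P n x).1.1 : ℍ[ℝ]) = aH (Real.pi / n * x (Sum.inl 0)) (Real.pi / n * x (Sum.inl 1)) := rfl

theorem P_snd {m : ℕ} (n : ℕ) (x : Dir m → ℤ) (j : Fin m) :
    (((P n x).2 j).1 : ℍ[ℝ]) = tH (Real.pi / (2 * n) * x (Sum.inr (j, 0)))
      (Real.pi / n * x (Sum.inr (j, 1))) (Real.pi / n * x (Sum.inr (j, 2))) := rfl

theorem step_n {n : ℕ} (hn : 0 < n) (a : ℤ) :
    Real.pi / n * ((a + n : ℤ) : ℝ) = Real.pi / n * a + Real.pi := by
  have : (n : ℝ) ≠ 0 := by positivity
  push_cast
  field_simp

theorem step_2n {n : ℕ} (hn : 0 < n) (a : ℤ) :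
    Real.pi / n * ((a + 2 * n : ℤ) : ℝ) = Real.pi / n * a + 2 * Real.pi := by
  have : (n : ℝ) ≠ 0 := by positivity
  push_cast
  field_simp

/-- The lattice map intertwines `vtau` and `tauY`. -/
theorem P_tau {m : ℕ} (n : ℕ) (hn : 0 < n) (x : Dir m → ℤ) :
    P n (fun d => x d + vtau n m (some d)) = tauY (P n x) := by
  apply Y_ext
  · change _ = tauH ((P n x).1.1)
    rw [P_fst, P_fst]
    have e0 : (vtau n m (some (Sum.inl 0)) : ℤ) = 0 := by simp [vtau]
    have e1 : (vtau n m (some (Sum.inl 1)) : ℤ) = n := by simp [vtau]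
    simp only [e0, e1, add_zero]
    rw [step_n hn]
    simp [aH, tauH, Real.cos_add_pi, Real.sin_add_pi]
  · intro j
    change _ = tauH (((P n x).2 j).1)
    rw [P_snd, P_snd]
    have e0 : (vtau n m (some (Sum.inr (j, 0))) : ℤ) = 0 := by simp [vtau]
    have e1 : (vtau n m (some (Sum.inr (j, 1))) : ℤ) = 0 := by simp [vtau]
    have e2 : (vtau n m (some (Sum.inr (j, 2))) : ℤ) = n := by simp [vtau]
    simp only [e0, e1, e2, add_zero]
    rw [step_n hn]
    simp [tH, tauH, Real.cos_add_pi, Real.sin_add_pi]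

/-- Values of `sfS` at points with the same slice and the same point of `Y m`. -/
theorem sfS_congr {m : ℕ} (n : ℕ) (G : ℝ → Y m → K m → ℝ)
    (ρ : ℤ → Y m → K m → ZMod 2) (k : K m) (x x' : Option (Dir m) → ℤ)
    (h0 : x none = x' none)
    (h1 : P n (fun d => x (some d)) = P n (fun d => x' (some d))) :
    sfS n G ρ k x = sfS n G ρ k x' := by
  simp only [sfS, h0, h1]

theorem sg_neg_add (r : ℝ) (b : ZMod 2) : sg (-r) (b + 1) = sg r b + 1 := by
  unfold sg
  rcases lt_trichotomy r 0 with h | h | h
  · rw [if_pos (by linarith), if_neg (by linarith), if_pos h]; simp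
  · subst h; simp
  · rw [if_neg (by linarith), if_pos (by linarith), if_pos h]; decide

theorem etaY_self {m : ℕ} (j : Fin m) (y : Y m) :
    (((etaY j y).2 j).1 : ℍ[ℝ]) = -((y.2 j).1) := by
  simp [etaY]

theorem etaY_ne {m : ℕ} {i j : Fin m} (h : i ≠ j) (y : Y m) : (etaY j y).2 i = y.2 i := by
  simp [etaY, h]

theorem etaY_fst {m : ℕ} (j : Fin m) (y : Y m) : (etaY j y).1 = y.1 := rfl

theorem st_some_self {m : ℕ} (d : Dir m) : (st (some d) : Option (Dir m) → ℤ) (some d) = 1 := by
  simp [st]

theorem st_some_ne {m : ℕ} {d i : Dir m} (h : i ≠ d) :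
    (st (some d) : Option (Dir m) → ℤ) (some i) = 0 := by
  simp [st, h]

theorem st_some_none {m : ℕ} (d : Dir m) : (st (some d) : Option (Dir m) → ℤ) none = 0 := by
  simp [st]

/-- The lattice sign functions of an equivariant homotopy are admissible. -/
theorem sfS_adm {m : ℕ} (n : ℕ) (hn : 0 < n) (G : ℝ → Y m → K m → ℝ)
    (ρ : ℤ → Y m → K m → ZMod 2) (hG : ∀ s, Geta (G s)) (hρ : ∀ c, Teta (ρ c)) (k : K m) :
    Adm n m (sfS n G ρ k) (fun j => if k.1 = some j then 1 else 0) where
  pole := by
    intro x hx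
    have hn' : (n : ℝ) ≠ 0 := by positivity
    apply sfS_congr
    · simp [st_some_none]
    · apply Y_ext
      · rw [P_fst, P_fst]
        have e0 : ((x + st (some (Sum.inl 1)) : Option (Dir m) → ℤ)) (some (Sum.inl 0)) = x (some (Sum.inl 0)) := by
          rw [Pi.add_apply, st_some_ne (by simp), add_zero]
        rw [e0]
        have hs : Real.sin (Real.pi / n * (x (some (Sum.inl 0)) : ℤ)) = 0 := by
          rcases hx with hx | hx
          · rw [hx]; simp
          · rw [hx]
            have : Real.pi / n * ((n : ℤ) : ℝ) = Real.pi := by push_cast; field_simp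
            rw [this, Real.sin_pi]
        simp [aH, hs]
      · intro j
        rw [P_snd, P_snd]
        have e : ∀ i : Fin 3, ((x + st (some (Sum.inl 1)) : Option (Dir m) → ℤ)) (some (Sum.inr (j, i)))
            = x (some (Sum.inr (j, i))) := by
          intro i
          rw [Pi.add_apply, st_some_ne (by simp), add_zero]
        rw [e, e, e]
  psi0 := by
    intro j x hx
    apply sfS_congr
    · simp [st_some_none]
    · apply Y_ext
      · rw [P_fst, P_fst]
        have e : ∀ i : Fin 2, ((x + st (some (Sum.inr (j, 2))) : Option (Dir m) → ℤ)) (some (Sum.inl i))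
            = x (some (Sum.inl i)) := by
          intro i
          rw [Pi.add_apply, st_some_ne (by simp), add_zero]
        rw [e, e]
      · intro i
        rw [P_snd, P_snd]
        have e0 : ((x + st (some (Sum.inr (j, 2))) : Option (Dir m) → ℤ)) (some (Sum.inr (i, 0)))
            = x (some (Sum.inr (i, 0))) := by
          rw [Pi.add_apply, st_some_ne (by simp), add_zero]
        have e1 : ((x + st (some (Sum.inr (j, 2))) : Option (Dir m) → ℤ)) (some (Sum.inr (i, 1)))
            = x (some (Sum.inr (i, 1))) := by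
          rw [Pi.add_apply, st_some_ne (by simp), add_zero]
        rw [e0, e1]
        by_cases hij : i = j
        · subst hij
          rw [hx]
          simp [tH]
        · have e2 : ((x + st (some (Sum.inr (j, 2))) : Option (Dir m) → ℤ)) (some (Sum.inr (i, 2)))
            = x (some (Sum.inr (i, 2))) := by
            rw [Pi.add_apply, st_some_ne (by simp [hij]), add_zero]
          rw [e2]
  psi1 := by
    intro j x hx
    have hn' : (n : ℝ) ≠ 0 := by positivity
    apply sfS_congr
    · simp [st_some_none]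
    · apply Y_ext
      · rw [P_fst, P_fst]
        have e : ∀ i : Fin 2, ((x + st (some (Sum.inr (j, 1))) : Option (Dir m) → ℤ)) (some (Sum.inl i))
            = x (some (Sum.inl i)) := by
          intro i
          rw [Pi.add_apply, st_some_ne (by simp), add_zero]
        rw [e, e]
      · intro i
        rw [P_snd, P_snd]
        have e0 : ((x + st (some (Sum.inr (j, 1))) : Option (Dir m) → ℤ)) (some (Sum.inr (i, 0)))
            = x (some (Sum.inr (i, 0))) := by
          rw [Pi.add_apply, st_some_ne (by simp), add_zero]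
        have e1 : ((x + st (some (Sum.inr (j, 1))) : Option (Dir m) → ℤ)) (some (Sum.inr (i, 2)))
            = x (some (Sum.inr (i, 2))) := by
          rw [Pi.add_apply, st_some_ne (by simp), add_zero]
        rw [e0, e1]
        by_cases hij : i = j
        · subst hij
          rw [hx]
          have : Real.pi / (2 * n) * ((n : ℤ) : ℝ) = Real.pi / 2 := by
            push_cast; field_simp
          rw [this]
          simp [tH]
        · have e2 : ((x + st (some (Sum.inr (j, 1))) : Option (Dir m) → ℤ)) (some (Sum.inr (i, 1)))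
            = x (some (Sum.inr (i, 1))) := by
            rw [Pi.add_apply, st_some_ne (by simp [hij]), add_zero]
          rw [e2]
  perphi := by
    intro x
    apply sfS_congr
    · simp [st_some_none]
    · apply Y_ext
      · rw [P_fst, P_fst]
        have e0 : ((x + (2 * n : ℤ) • st (some (Sum.inl 1)) : Option (Dir m) → ℤ)) (some (Sum.inl 0))
            = x (some (Sum.inl 0)) := by
          rw [Pi.add_apply, Pi.smul_apply, st_some_ne (by simp), smul_zero, add_zero]
        have e1 : ((x + (2 * n : ℤ) • st (some (Sum.inl 1)) : Option (Dir m) → ℤ)) (some (Sum.inl 1))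
            = x (some (Sum.inl 1)) + 2 * n := by
          rw [Pi.add_apply, Pi.smul_apply, st_some_self, smul_eq_mul, mul_one]
        rw [e0, e1, step_2n hn]
        simp [aH, Real.cos_add_two_pi, Real.sin_add_two_pi]
      · intro j
        rw [P_snd, P_snd]
        have e : ∀ i : Fin 3, ((x + (2 * n : ℤ) • st (some (Sum.inl 1)) : Option (Dir m) → ℤ)) (some (Sum.inr (j, i)))
            = x (some (Sum.inr (j, i))) := by
          intro i
          rw [Pi.add_apply, Pi.smul_apply, st_some_ne (by simp), smul_zero, add_zero]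
        rw [e, e, e]
  perbeta := by
    intro j x
    apply sfS_congr
    · simp [st_some_none]
    · apply Y_ext
      · rw [P_fst, P_fst]
        have e : ∀ i : Fin 2, ((x + (2 * n : ℤ) • st (some (Sum.inr (j, 2))) : Option (Dir m) → ℤ)) (some (Sum.inl i))
            = x (some (Sum.inl i)) := by
          intro i
          rw [Pi.add_apply, Pi.smul_apply, st_some_ne (by simp), smul_zero, add_zero]
        rw [e, e]
      · intro i
        rw [P_snd, P_snd]
        have e0 : ((x + (2 * n : ℤ) • st (some (Sum.inr (j, 2))) : Option (Dir m) → ℤ)) (some (Sum.inr (i, 0)))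
            = x (some (Sum.inr (i, 0))) := by
          rw [Pi.add_apply, Pi.smul_apply, st_some_ne (by simp), smul_zero, add_zero]
        have e1 : ((x + (2 * n : ℤ) • st (some (Sum.inr (j, 2))) : Option (Dir m) → ℤ)) (some (Sum.inr (i, 1)))
            = x (some (Sum.inr (i, 1))) := by
          rw [Pi.add_apply, Pi.smul_apply, st_some_ne (by simp), smul_zero, add_zero]
        rw [e0, e1]
        by_cases hij : i = j
        · subst hij
          have e2 : ((x + (2 * n : ℤ) • st (some (Sum.inr (i, 2))) : Option (Dir m) → ℤ)) (some (Sum.inr (i, 2)))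
              = x (some (Sum.inr (i, 2))) + 2 * n := by
            rw [Pi.add_apply, Pi.smul_apply, st_some_self, smul_eq_mul, mul_one]
          rw [e2, step_2n hn]
          simp [tH, Real.cos_add_two_pi, Real.sin_add_two_pi]
        · have e2 : ((x + (2 * n : ℤ) • st (some (Sum.inr (j, 2))) : Option (Dir m) → ℤ)) (some (Sum.inr (i, 2)))
              = x (some (Sum.inr (i, 2))) := by
            rw [Pi.add_apply, Pi.smul_apply, st_some_ne (by simp [hij]), smul_zero, add_zero]
          rw [e2]
  eta := by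
    intro j x
    have hP : P n (fun d => ((x + (n : ℤ) • st (some (Sum.inr (j, 1)))
        + (n : ℤ) • st (some (Sum.inr (j, 2))) : Option (Dir m) → ℤ)) (some d)) = etaY j (P n fun d => x (some d)) := by
      have e : ∀ d : Dir m, d ≠ Sum.inr (j, 1) → d ≠ Sum.inr (j, 2) →
          ((x + (n : ℤ) • st (some (Sum.inr (j, 1)))
            + (n : ℤ) • st (some (Sum.inr (j, 2))) : Option (Dir m) → ℤ)) (some d) = x (some d) := by
        intro d h1 h2
        rw [Pi.add_apply, Pi.add_apply, Pi.smul_apply, Pi.smul_apply, st_some_ne h1,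
          st_some_ne h2, smul_zero, add_zero, add_zero]
      have e1 : ((x + (n : ℤ) • st (some (Sum.inr (j, 1)))
            + (n : ℤ) • st (some (Sum.inr (j, 2))) : Option (Dir m) → ℤ)) (some (Sum.inr (j, 1)))
            = x (some (Sum.inr (j, 1))) + n := by
        rw [Pi.add_apply, Pi.add_apply, Pi.smul_apply, Pi.smul_apply, st_some_self,
          st_some_ne (by simp), smul_zero, add_zero, smul_eq_mul, mul_one]
      have e2 : ((x + (n : ℤ) • st (some (Sum.inr (j, 1)))
            + (n : ℤ) • st (some (Sum.inr (j, 2))) : Option (Dir m) → ℤ)) (some (Sum.inr (j, 2)))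
            = x (some (Sum.inr (j, 2))) + n := by
        rw [Pi.add_apply, Pi.add_apply, Pi.smul_apply, Pi.smul_apply, st_some_self,
          st_some_ne (by simp), smul_zero, add_zero, smul_eq_mul, mul_one]
      apply Y_ext
      · rw [etaY_fst, P_fst, P_fst, e _ (by simp) (by simp), e _ (by simp) (by simp)]
      · intro i
        by_cases hij : i = j
        · subst hij
          rw [etaY_self, P_snd, P_snd, e1, e2, e _ (by simp) (by simp), step_n hn, step_n hn]
          ext <;> simp [tH, Real.cos_add_pi, Real.sin_add_pi]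
        · rw [etaY_ne hij, P_snd, P_snd, e _ (by simp) (by simp), e _ (by simp [hij]) (by simp),
            e _ (by simp) (by simp [hij])]
    have h0 : ((x + (n : ℤ) • st (some (Sum.inr (j, 1)))
        + (n : ℤ) • st (some (Sum.inr (j, 2))) : Option (Dir m) → ℤ)) none = x none := by
      rw [Pi.add_apply, Pi.add_apply, Pi.smul_apply, Pi.smul_apply, st_some_none,
        st_some_none, smul_zero, add_zero, add_zero]
    simp only [sfS]
    rw [hP, h0, hG, hρ]
    by_cases hk : k.1 = some j
    · simp only [if_pos hk]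
      rw [neg_one_mul, sg_neg_add]
    · simp only [if_neg hk]
      rw [one_mul, add_zero, add_zero]

theorem slice_sfS {m : ℕ} (n : ℕ) (G : ℝ → Y m → K m → ℝ) (ρ : ℤ → Y m → K m → ZMod 2)
    (k : K m) (c : ℤ) : slice c (sfS n G ρ k) = sf n (G ((c : ℝ) / n)) (ρ c) k := by
  rfl

/-- Behaviour under the translation `vtau`, outside the fixed points. -/
theorem sfS_tau {m : ℕ} (n : ℕ) (hn : 0 < n) (G : ℝ → Y m → K m → ℝ)
    (ρ : ℤ → Y m → K m → ZMod 2) (hG : ∀ s, Gtau (G s)) (hρ : ∀ c, Ttau (ρ c)) (k : K m)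
    (x : Option (Dir m) → ℤ) (hx : ¬ IsFix (P n fun d => x (some d))) :
    sfS n G ρ k (x + vtau n m) = sfS n G ρ k x + (if k.2 = 0 then 0 else 1) := by
  have hP : P n (fun d => (x + vtau n m) (some d)) = tauY (P n fun d => x (some d)) :=
    P_tau n hn (fun d => x (some d))
  have h0 : (x + vtau n m) none = x none := by
    rw [Pi.add_apply]
    simp [vtau]
  simp only [sfS]
  rw [hP, h0, hG, hρ _ _ hx]
  by_cases hk : k.2 = 0
  · simp only [if_pos hk]
    rw [one_mul, add_zero, add_zero]
  · simp only [if_neg hk]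
    rw [neg_one_mul, sg_neg_add]

/-! ## tie breaking functions -/

open Classical in
/-- A chosen element of a set of indices. -/
noncomputable def sel {m : ℕ} (Q : Fin m → Prop) : Option (Fin m) :=
  if h : ∃ j, Q j then some h.choose else none

theorem sel_some {m : ℕ} {Q : Fin m → Prop} {j : Fin m} (h : sel Q = some j) : Q j := by
  unfold sel at h
  split_ifs at h with hQ
  · rw [← Option.some.inj h]
    exact hQ.choose_spec

theorem sel_none {m : ℕ} {Q : Fin m → Prop} (h : sel Q = none) : ∀ j, ¬ Q j := by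
  unfold sel at h
  split_ifs at h with hQ
  · exact fun j hj => hQ ⟨j, hj⟩

open Classical in
/-- The bit of a nonzero vector of the plane. -/
noncomputable def bt (x y : ℝ) : ZMod 2 := if 0 < x ∨ (x = 0 ∧ 0 < y) then 1 else 0

theorem bt_neg {x y : ℝ} (h : ¬ (x = 0 ∧ y = 0)) : bt (-x) (-y) = bt x y + 1 := by
  unfold bt
  rcases lt_trichotomy x 0 with hx | hx | hx
  · rw [if_pos (Or.inl (by linarith)), if_neg]
    · simp
    · rintro (h1 | ⟨h1, _⟩)
      · linarith
      · linarith
  · subst hx
    have hy : y ≠ 0 := fun hy => h ⟨rfl, hy⟩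
    rcases lt_or_gt_of_ne hy with hy | hy
    · rw [if_pos (Or.inr ⟨by simp, by linarith⟩), if_neg]
      · simp
      · rintro (h1 | ⟨_, h1⟩)
        · exact lt_irrefl _ h1
        · linarith
    · rw [if_neg, if_pos (Or.inr ⟨rfl, hy⟩)]
      · decide
      · rintro (h1 | ⟨_, h1⟩)
        · simp at h1
        · linarith
  · rw [if_neg, if_pos (Or.inl hx)]
    · decide
    · rintro (h1 | ⟨h1, _⟩)
      · linarith
      · linarith

/-- The indices with two nonzero halves. -/
def ZZ {m : ℕ} (y : Y m) (j : Fin m) : Prop :=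
  ¬ ((y.2 j).1.re = 0 ∧ (y.2 j).1.imI = 0) ∧ ¬ ((y.2 j).1.imJ = 0 ∧ (y.2 j).1.imK = 0)

open Classical in
/-- A bit which changes under the involution. -/
noncomputable def kt {m : ℕ} (y : Y m) : ZMod 2 :=
  if y.1.1.imJ = 0 ∧ y.1.1.imK = 0 then
    (sel (ZZ y)).elim 0 (fun j => bt (y.2 j).1.re (y.2 j).1.imI + bt (y.2 j).1.imJ (y.2 j).1.imK)
  else bt y.1.1.imJ y.1.1.imK

open Classical in
/-- A bit which changes under the antipode. -/
noncomputable def kj {m : ℕ} (y : Y m) (j : Fin m) : ZMod 2 :=
  if (y.2 j).1.re = 0 ∧ (y.2 j).1.imI = 0 then bt (y.2 j).1.imJ (y.2 j).1.imK + kt y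
  else bt (y.2 j).1.re (y.2 j).1.imI

theorem ZZ_eta {m : ℕ} (j : Fin m) (y : Y m) : ZZ (etaY j y) = ZZ y := by
  funext i
  unfold ZZ
  by_cases h : i = j
  · subst h
    rw [etaY_self]
    simp
  · rw [etaY_ne h]

theorem ZZ_tau {m : ℕ} (y : Y m) : ZZ (tauY y) = ZZ y := by
  funext i
  simp [ZZ, tauY, tauS3, tauH]

theorem not_both {m : ℕ} (y : Y m) (j : Fin m) (h : (y.2 j).1.re = 0 ∧ (y.2 j).1.imI = 0) :
    ¬ ((y.2 j).1.imJ = 0 ∧ (y.2 j).1.imK = 0) := by
  intro h'
  have h1 := (y.2 j).2
  rw [mem_sphere_zero_iff_norm] at h1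
  have h2 : ((y.2 j).1 : ℍ[ℝ]) = 0 := by
    ext
    · exact h.1
    · exact h.2
    · exact h'.1
    · exact h'.2
  rw [h2, norm_zero] at h1
  exact zero_ne_one h1

theorem kt_eta {m : ℕ} (j : Fin m) (y : Y m) : kt (etaY j y) = kt y := by
  unfold kt
  rw [ZZ_eta, etaY_fst]
  split_ifs with h
  · cases hs : sel (ZZ y) with
    | none => rfl
    | some i =>
      simp only [Option.elim]
      have hZ := sel_some hs
      by_cases hij : i = j
      · subst hij
        rw [etaY_self, Quaternion.re_neg, Quaternion.imI_neg, Quaternion.imJ_neg,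
          Quaternion.imK_neg, bt_neg hZ.1, bt_neg hZ.2]
        have : (1 : ZMod 2) + 1 = 0 := by decide
        linear_combination this
      · rw [etaY_ne hij]
  · rfl

theorem kt_tau {m : ℕ} (y : Y m) (hy : ¬ IsFix y) : kt (tauY y) = kt y + 1 := by
  have hJ : ((tauY y).1.1 : ℍ[ℝ]).imJ = -(y.1.1.imJ) := rfl
  have hK : ((tauY y).1.1 : ℍ[ℝ]).imK = -(y.1.1.imK) := rfl
  unfold kt
  rw [ZZ_tau, hJ, hK]
  by_cases h : y.1.1.imJ = 0 ∧ y.1.1.imK = 0
  · rw [if_pos (by simpa using h), if_pos h]
    cases hs : sel (ZZ y) with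
    | none =>
      exfalso
      apply hy
      refine ⟨h, fun j => ?_⟩
      have := sel_none hs j
      unfold ZZ at this
      tauto
    | some i =>
      have hZ := sel_some hs
      simp only [Option.elim]
      have e1 : (((tauY y).2 i).1 : ℍ[ℝ]).re = (y.2 i).1.re := rfl
      have e2 : (((tauY y).2 i).1 : ℍ[ℝ]).imI = (y.2 i).1.imI := rfl
      have e3 : (((tauY y).2 i).1 : ℍ[ℝ]).imJ = -(y.2 i).1.imJ := rfl
      have e4 : (((tauY y).2 i).1 : ℍ[ℝ]).imK = -(y.2 i).1.imK := rfl
      rw [e1, e2, e3, e4, bt_neg hZ.2]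
      ring
  · rw [if_neg (by simpa using h), if_neg h]
    exact bt_neg h

theorem kj_eta_self {m : ℕ} (j : Fin m) (y : Y m) : kj (etaY j y) j = kj y j + 1 := by
  unfold kj
  rw [kt_eta, etaY_self, Quaternion.re_neg, Quaternion.imI_neg, Quaternion.imJ_neg,
    Quaternion.imK_neg]
  by_cases h : (y.2 j).1.re = 0 ∧ (y.2 j).1.imI = 0
  · rw [if_pos (by simpa using h), if_pos h, bt_neg (not_both y j h)]
    ring
  · rw [if_neg (by simpa using h), if_neg h]
    exact bt_neg h

theorem kj_eta_ne {m : ℕ} {i j : Fin m} (hij : i ≠ j) (y : Y m) : kj (etaY j y) i = kj y i := by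
  unfold kj
  rw [kt_eta, etaY_ne hij]

theorem kj_tau {m : ℕ} (y : Y m) (hy : ¬ IsFix y) (j : Fin m) : kj (tauY y) j = kj y j := by
  unfold kj
  have e1 : (((tauY y).2 j).1 : ℍ[ℝ]).re = (y.2 j).1.re := rfl
  have e2 : (((tauY y).2 j).1 : ℍ[ℝ]).imI = (y.2 j).1.imI := rfl
  have e3 : (((tauY y).2 j).1 : ℍ[ℝ]).imJ = -(y.2 j).1.imJ := rfl
  have e4 : (((tauY y).2 j).1 : ℍ[ℝ]).imK = -(y.2 j).1.imK := rfl
  rw [e1, e2, e3, e4, kt_tau y hy]
  by_cases h : (y.2 j).1.re = 0 ∧ (y.2 j).1.imI = 0
  · rw [if_pos h, if_pos h, bt_neg (not_both y j h)]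
    have : (1 : ZMod 2) + 1 = 0 := by decide
    linear_combination this
  · rw [if_neg h, if_neg h]

/-- Existence of tie breaking functions with both equivariance properties. -/
theorem exists_tie (m : ℕ) : ∃ ρ : Y m → K m → ZMod 2, Teta ρ ∧ Ttau ρ := by
  refine ⟨fun y k => (match k.1 with | none => 0 | some j => kj y j)
    + (if k.2 = 0 then 0 else kt y), ?_, ?_⟩
  · rintro j y ⟨o, c⟩
    cases o with
    | none => simp [kt_eta]
    | some i =>
      by_cases hij : i = j
      · subst hij
        simp only [kj_eta_self, kt_eta, if_true]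
        ring
      · have : ¬ ((some i : Option (Fin m)) = some j) := by simpa using hij
        simp only [kj_eta_ne hij, kt_eta, if_neg this, add_zero]
  · rintro y hy ⟨o, c⟩
    by_cases hc : c = 0
    · cases o with
      | none => simp [hc]
      | some i => simp [hc, kj_tau y hy]
    · cases o with
      | none => simp [hc, kt_tau y hy]
      | some i =>
        simp only [kj_tau y hy, kt_tau y hy, if_neg hc]
        ring

end Pool.Agent.WFP
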