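import Pool.Agent.WFP.BOX
import Pool.Agent.WFP.PAR

/-!
# WFP/HOM: the two homotopy invariance theorems for the mod 2 degree
-/

set_option autoImplicit false

namespace Pool.Agent.WFP

/-- `y` is a vertex of the cube at `x` with set of directions `D` -/
def Vx {ι : Type} (D : Finset ι) (x y : ι → ℤ) : Prop :=
  ∀ i, y i = x i ∨ (i ∈ D ∧ y i = x i + 1)

/-- Invariance of `J` under a translation which changes every function by a constant on the cube. -/
theorem J_loc {ι : Type} [DecidableEq ι] (l : List ((ι → ℤ) → ZMod 2)) :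
    ∀ (D : Finset ι) (x v : ι → ℤ)
    (_ : ∀ f ∈ l, ∃ c : ZMod 2, ∀ y, Vx D x y → f (y + v) = f y + c),
    J l D (x + v) = J l D x := by
  induction l with
  | nil => intro D x v _; rfl
  | cons f l ih =>
    intro D x v h
    simp only [J]
    refine Finset.sum_congr rfl fun d hd => ?_
    obtain ⟨c, hc⟩ := h f (by simp)
    have e : x + v + st d = (x + st d) + v := by abel
    have v1 : Vx D x (x + st d) := by
      intro i
      by_cases hi : i = d
      · subst hi
        exact Or.inr ⟨hd, by simp [st]⟩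
      · exact Or.inl (by simp [st, hi])
    have v2 : Vx D x x := fun i => Or.inl rfl
    have e2 : J l (D.erase d) (x + st d + v) = J l (D.erase d) (x + st d) := by
      refine ih (D.erase d) (x + st d) v fun g hg => ?_
      obtain ⟨c', hc'⟩ := h g (List.mem_cons_of_mem _ hg)
      refine ⟨c', fun y hy => hc' y fun i => ?_⟩
      have hyi := hy i
      by_cases hi : i = d
      · subst hi
        rcases hyi with h1 | h1
        · exact Or.inr ⟨hd, by rw [h1]; simp [st]⟩
        · exact absurd h1.1 (by simp)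
      · have : (x + st d) i = x i := by simp [st, hi]
        rw [this] at hyi
        rcases hyi with h1 | h1
        · exact Or.inl h1
        · exact Or.inr ⟨Finset.mem_of_mem_erase h1.1, h1.2⟩
    rw [e, hc _ v1, hc _ v2, e2]
    have h2 : (2 : ZMod 2) = 0 := rfl
    linear_combination (c * J l (D.erase d) (x + st d)) * h2

/-- the real point of a lattice point -/
noncomputable def ptR (n : ℕ) {m : ℕ} (x : Option (Dir m) → ℤ) : ℝ × (Dir m → ℝ) :=
  ((x none : ℝ) / n, fun d => stepA n m d * (x (some d) : ℝ))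

/-- the homotopy in terms of angles -/
noncomputable def Gam {m : ℕ} (G : ℝ → Y m → K m → ℝ) (p : ℝ × (Dir m → ℝ)) : K m → ℝ :=
  G p.1 (ang p.2)

theorem stepA_nonneg (n m : ℕ) (d : Dir m) : 0 ≤ stepA n m d := by
  rcases d with i | q
  · simp only [stepA]; positivity
  · simp only [stepA]; split_ifs <;> positivity

theorem stepA_le (n m : ℕ) (hn : 0 < n) (d : Dir m) : stepA n m d ≤ Real.pi / n := by
  have hn' : (0 : ℝ) < n := by exact_mod_cast hn
  rcases d with i | q
  · simp only [stepA]; exact le_rfl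
  · simp only [stepA]
    split_ifs
    · refine div_le_div_of_nonneg_left Real.pi_pos.le hn' ?_
      linarith
    · exact le_rfl

theorem dist_ptR {n m : ℕ} (hn : 0 < n) (x y : Option (Dir m) → ℤ) (h : ∀ i, |x i - y i| ≤ 1) :
    dist (ptR n x) (ptR n y) ≤ 4 / n := by
  have hn' : (0 : ℝ) < n := by exact_mod_cast hn
  have hr : ∀ i, |(x i : ℝ) - (y i : ℝ)| ≤ 1 := by
    intro i
    have := h i
    exact_mod_cast this
  rw [Prod.dist_eq]
  refine max_le ?_ ?_
  · show dist ((x none : ℝ) / n) ((y none : ℝ) / n) ≤ 4 / n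
    rw [Real.dist_eq, ← sub_div, abs_div, abs_of_pos hn']
    refine div_le_div_of_nonneg_right ?_ hn'.le
    linarith [hr none]
  · rw [dist_pi_le_iff (by positivity)]
    intro d
    show dist (stepA n m d * (x (some d) : ℝ)) (stepA n m d * (y (some d) : ℝ)) ≤ 4 / n
    rw [Real.dist_eq, ← mul_sub, abs_mul, abs_of_nonneg (stepA_nonneg n m d)]
    calc stepA n m d * |(x (some d) : ℝ) - (y (some d) : ℝ)| ≤ (Real.pi / n) * 1 :=
          mul_le_mul (stepA_le n m hn d) (hr _) (abs_nonneg _) (by positivity)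
      _ ≤ 4 / n := by
          rw [mul_one]
          exact div_le_div_of_nonneg_right Real.pi_le_four hn'.le

/-- the compact box -/
def Kap (m : ℕ) : Set (ℝ × (Dir m → ℝ)) :=
  Set.Icc (0 : ℝ) 1 ×ˢ Set.pi Set.univ (fun _ => Set.Icc (0 : ℝ) (4 * Real.pi))

theorem isCompact_Kap (m : ℕ) : IsCompact (Kap m) :=
  isCompact_Icc.prod (isCompact_univ_pi fun _ => isCompact_Icc)

/-- lattice points in the range -/
def InR (n : ℕ) {m : ℕ} (x : Option (Dir m) → ℤ) : Prop :=
  0 ≤ x none ∧ x none < n ∧ ∀ d, 0 ≤ x (some d) ∧ x (some d) ≤ 3 * n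

theorem ptR_mem {n m : ℕ} (hn : 0 < n) {x y : Option (Dir m) → ℤ} (hx : InR n x)
    (hy : Vx Finset.univ x y) : ptR n y ∈ Kap m := by
  have hn' : (0 : ℝ) < n := by exact_mod_cast hn
  obtain ⟨h0, h1, h2⟩ := hx
  refine ⟨?_, ?_⟩
  · have ha : 0 ≤ y none := by
      rcases hy none with h | h
      · omega
      · omega
    have hb : y none ≤ n := by
      rcases hy none with h | h
      · omega
      · omega
    show (y none : ℝ) / n ∈ Set.Icc (0 : ℝ) 1
    have ha' : (0 : ℝ) ≤ y none := by exact_mod_cast ha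
    have hb' : (y none : ℝ) ≤ n := by exact_mod_cast hb
    exact ⟨div_nonneg ha' hn'.le, (div_le_one hn').2 hb'⟩
  · intro d _
    obtain ⟨h3, h4⟩ := h2 d
    have ha : 0 ≤ y (some d) := by
      rcases hy (some d) with h | h
      · omega
      · omega
    have hb : y (some d) ≤ 4 * n := by
      rcases hy (some d) with h | h
      · omega
      · omega
    show stepA n m d * (y (some d) : ℝ) ∈ Set.Icc (0 : ℝ) (4 * Real.pi)
    have ha' : (0 : ℝ) ≤ y (some d) := by exact_mod_cast ha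
    have hb' : (y (some d) : ℝ) ≤ 4 * n := by exact_mod_cast hb
    refine ⟨mul_nonneg (stepA_nonneg n m d) ha', ?_⟩
    calc stepA n m d * (y (some d) : ℝ) ≤ (Real.pi / n) * (4 * n) :=
          mul_le_mul (stepA_le n m hn d) hb' ha' (by positivity)
      _ = 4 * Real.pi := by field_simp

theorem sg_ne {a b : ℝ} {u v : ZMod 2} (h : sg a u ≠ sg b v) : |a| ≤ |a - b| := by
  by_contra hcon
  push Not at hcon
  apply h
  have h1 := abs_sub_comm a b
  rcases lt_trichotomy a 0 with ha | ha | ha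
  · have hb : b < 0 := by
      rw [abs_of_neg ha] at hcon
      have := (abs_lt.1 hcon).1
      linarith
    unfold sg
    rw [if_neg (not_lt.2 ha.le), if_pos ha, if_neg (not_lt.2 hb.le), if_pos hb]
  · rw [ha, abs_zero] at hcon
    exact absurd hcon (not_lt.2 (abs_nonneg _))
  · have hb : 0 < b := by
      rw [abs_of_pos ha] at hcon
      have := (abs_lt.1 hcon).2
      linarith
    unfold sg
    rw [if_pos ha, if_pos hb]

theorem mem_rest (m : ℕ) (k : K m) : k ∈ ((none, 0) :: rest m : List (K m)) := by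
  obtain ⟨o, c⟩ := k
  rcases o with _ | j
  · fin_cases c
    · simp
    · simp [rest]
    · simp [rest]
  · simp only [rest, List.mem_cons, List.mem_flatMap, List.mem_finRange, true_and]
    right; right; right
    refine ⟨j, ?_⟩
    fin_cases c <;> simp

/-- If `J` is nonzero on a cube then the homotopy is small on its vertices. -/
theorem hom_small {m : ℕ} (G : ℝ → Y m → K m → ℝ)
    (hG : Continuous fun q : ℝ × Y m => G q.1 q.2) {ε : ℝ} (hε : 0 < ε) :
    ∃ n₀ : ℕ, 1 ≤ n₀ ∧ ∀ n ≥ n₀, ∀ (ρ : ℤ → Y m → K m → ZMod 2) (x : Option (Dir m) → ℤ),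
      InR n x → J (sfS n G ρ (none, 0) :: (rest m).map (sfS n G ρ)) Finset.univ x ≠ 0 →
      ∀ y, Vx Finset.univ x y → ∀ k, |Gam G (ptR n y) k| < 3 * ε := by
  have hc : Continuous (Gam G) := hG.comp
    (continuous_fst.prodMk ((continuous_ang m).comp continuous_snd))
  have huc := (isCompact_Kap m).uniformContinuousOn_of_continuous hc.continuousOn
  rw [Metric.uniformContinuousOn_iff] at huc
  obtain ⟨δ, hδ, hδ'⟩ := huc ε hε
  obtain ⟨N, hN⟩ := exists_nat_gt (4 / δ)
  refine ⟨N + 1, by omega, fun n hn ρ x hx hJ y hy k => ?_⟩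
  have hn0 : 0 < n := by omega
  have hn' : (0 : ℝ) < n := by exact_mod_cast hn0
  have h4 : (4 : ℝ) / n < δ := by
    have h1 : (N : ℝ) ≤ n := by exact_mod_cast (by omega : N ≤ n)
    have h2 : 4 / δ < n := lt_of_lt_of_le hN h1
    rw [div_lt_iff₀ hδ] at h2
    rw [div_lt_iff₀ hn']
    linarith
  have hx0 : Vx Finset.univ x x := fun i => Or.inl rfl
  have hclose : ∀ u v, Vx Finset.univ x u → Vx Finset.univ x v →
      dist (Gam G (ptR n u) k) (Gam G (ptR n v) k) < ε := by
    intro u v hu hv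
    refine lt_of_le_of_lt (dist_le_pi_dist _ _ k) ?_
    refine hδ' _ (ptR_mem hn0 hx hu) _ (ptR_mem hn0 hx hv) ?_
    refine lt_of_le_of_lt (dist_ptR hn0 u v fun i => ?_) h4
    rw [abs_le]
    rcases hu i with h1 | h1 <;> rcases hv i with h2 | h2 <;> omega
  have hmem : sfS n G ρ k ∈ sfS n G ρ (none, 0) :: (rest m).map (sfS n G ρ) := by
    have : sfS n G ρ k ∈ (((none, 0) :: rest m : List (K m)).map (sfS n G ρ)) :=
      List.mem_map_of_mem (mem_rest m k)
    simpa using this
  obtain ⟨z, d, _, hz1, hz2, hz3⟩ := J_change _ _ _ hJ _ hmem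
  have vz : Vx Finset.univ x z := hz3
  have vz' : Vx Finset.univ x (z + st d) := by
    intro i
    by_cases hi : i = d
    · subst hi
      exact Or.inr ⟨Finset.mem_univ _, by simp [st, hz2]⟩
    · have : (z + st d) i = z i := by simp [st, hi]
      rw [this]
      exact hz3 i
  have h5 : |Gam G (ptR n (z + st d)) k| ≤
      |Gam G (ptR n (z + st d)) k - Gam G (ptR n z) k| := sg_ne hz1
  have h6 := hclose _ _ vz' vz
  rw [Real.dist_eq] at h6
  have h7 := hclose _ _ hy vz'
  rw [Real.dist_eq] at h7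
  have h8 : |Gam G (ptR n y) k| ≤ |Gam G (ptR n y) k - Gam G (ptR n (z + st d)) k| +
      |Gam G (ptR n (z + st d)) k| := by
    have := abs_add_le (Gam G (ptR n y) k - Gam G (ptR n (z + st d)) k) (Gam G (ptR n (z + st d)) k)
    simpa using this
  linarith

/-- a uniform lower bound on a closed set without zeros -/
theorem hom_bound {m : ℕ} (G : ℝ → Y m → K m → ℝ)
    (hG : Continuous fun q : ℝ × Y m => G q.1 q.2) (F : Set (Y m)) (hF : IsClosed F)
    (hne : ∀ s ∈ Set.Icc (0 : ℝ) 1, ∀ y ∈ F, ∃ k, G s y k ≠ 0) :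
    ∃ c : ℝ, 0 < c ∧ ∀ p ∈ Kap m, ang p.2 ∈ F → ∃ k, c ≤ |Gam G p k| := by
  have hc : Continuous (Gam G) := hG.comp
    (continuous_fst.prodMk ((continuous_ang m).comp continuous_snd))
  have hcl : IsClosed {p : ℝ × (Dir m → ℝ) | ang p.2 ∈ F} :=
    hF.preimage ((continuous_ang m).comp continuous_snd)
  have hcomp : IsCompact (Kap m ∩ {p : ℝ × (Dir m → ℝ) | ang p.2 ∈ F}) :=
    (isCompact_Kap m).inter_right hcl
  obtain ⟨c, hc0, hc1⟩ := hcomp.exists_forall_le' (f := fun p => ‖Gam G p‖) (a := 0)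
    hc.norm.continuousOn (by
      rintro p ⟨hp, hp'⟩
      obtain ⟨k, hk⟩ := hne p.1 hp.1 _ hp'
      rw [norm_pos_iff]
      intro h0
      exact hk (congrFun h0 k))
  refine ⟨c, hc0, fun p hp hp' => ?_⟩
  by_contra hcon
  push Not at hcon
  have h1 : ‖Gam G p‖ < c := (pi_norm_lt_iff hc0).2 fun k => by
    rw [Real.norm_eq_abs]
    exact hcon k
  exact absurd (hc1 p ⟨hp, hp'⟩) (not_le.2 h1)

theorem box_InR {n m : ℕ} {x : Option (Dir m) → ℤ} (hx : x ∈ box (NszS n m)) :
    0 ≤ x none ∧ x none < n ∧ ∀ d, 0 ≤ x (some d) ∧ x (some d) < 2 * n := by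
  unfold box at hx
  rw [Fintype.mem_piFinset] at hx
  have h0 := hx none
  rw [Finset.mem_Ico] at h0
  refine ⟨h0.1, h0.2, fun d => ?_⟩
  have h1 := hx (some d)
  rw [Finset.mem_Ico] at h1
  refine ⟨h1.1, lt_of_lt_of_le h1.2 ?_⟩
  have : Nsz n m d ≤ 2 * n := by
    rcases d with i | q
    · simp only [Nsz]; split_ifs <;> omega
    · simp only [Nsz]; split_ifs <;> omega
  have h2 : (NszS n m (some d) : ℤ) ≤ ((2 * n : ℕ) : ℤ) := by exact_mod_cast this
  simpa using h2

/-- reduction to the sum over the big box -/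
theorem hom_deg {m : ℕ} (G : ℝ → Y m → K m → ℝ) (hη : ∀ s, Geta (G s)) {n : ℕ} (hn : 0 < n)
    (ρ : ℤ → Y m → K m → ZMod 2) (hρ : ∀ c, Teta (ρ c))
    (h : ∑ x ∈ box (NszS n m), J (sfS n G ρ (none, 0) :: (rest m).map (sfS n G ρ))
      Finset.univ x = 0) :
    Deg n (G 0) (ρ 0) = Deg n (G 1) (ρ n) := by
  have hn' : (n : ℝ) ≠ 0 := by exact_mod_cast hn.ne'
  have h0 : Adm n m (sfS n G ρ (none, 0)) 0 := by
    have := sfS_adm n hn G ρ hη hρ (none, 0)
    have e : (fun j : Fin m => if ((none, 0) : K m).1 = some j then (1 : ZMod 2) else 0) = 0 := by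
      funext j
      simp
    rwa [e] at this
  have hl : ∀ f ∈ (rest m).map (sfS n G ρ), ∃ c, Adm n m f c := by
    intro f hf
    obtain ⟨k, _, rfl⟩ := List.mem_map.1 hf
    exact ⟨_, sfS_adm n hn G ρ hη hρ k⟩
  have hst := stokes_Adm n m _ _ h0 hl
  rw [h] at hst
  have hsl : ∀ c : ℤ, ∑ x ∈ box (Nsz n m), (slice c (sfS n G ρ (none, 0)) x *
      J (((rest m).map (sfS n G ρ)).map (slice c)) Finset.univ x) =
      Deg n (G ((c : ℝ) / n)) (ρ c) := by
    intro c
    unfold Deg
    have e : ((rest m).map (sfS n G ρ)).map (slice c) =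
        (rest m).map (sf n (G ((c : ℝ) / n)) (ρ c)) := by
      rw [List.map_map]
      refine List.map_congr_left fun k _ => ?_
      exact slice_sfS n G ρ k c
    rw [e, slice_sfS]
  rw [hsl, hsl] at hst
  have e1 : ((n : ℤ) : ℝ) / n = 1 := by
    rw [Int.cast_natCast, div_self hn']
  have e0 : ((0 : ℤ) : ℝ) / n = 0 := by simp
  rw [e1, e0] at hst
  have h2 : (2 : ZMod 2) = 0 := rfl
  linear_combination (-1 : ZMod 2) * hst - Deg n (G 1) (ρ n) * h2

/-- Homotopies without zeros do not change the degree (nor do the tie breaking functions). -/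
theorem homotopy_nonvanishing {m : ℕ} (G : ℝ → Y m → K m → ℝ)
    (hG : Continuous fun q : ℝ × Y m => G q.1 q.2) (hη : ∀ s, Geta (G s))
    (hne : ∀ s ∈ Set.Icc (0 : ℝ) 1, ∀ y, ∃ k, G s y k ≠ 0) :
    ∃ n₀ : ℕ, ∀ n ≥ n₀, ∀ ρ₀ ρ₁ : Y m → K m → ZMod 2, Teta ρ₀ → Teta ρ₁ →
      Deg n (G 0) ρ₀ = Deg n (G 1) ρ₁ := by
  obtain ⟨c, hc, hb⟩ := hom_bound G hG Set.univ isClosed_univ (fun s hs y _ => hne s hs y)
  obtain ⟨n₀, h1, hs⟩ := hom_small G hG (ε := c / 3) (by positivity)
  refine ⟨n₀, fun n hn ρ₀ ρ₁ hρ₀ hρ₁ => ?_⟩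
  have hn0 : 0 < n := by omega
  have hT : ∀ c : ℤ, Teta ((fun c : ℤ => if c ≤ 0 then ρ₀ else ρ₁) c) := by
    intro c
    show Teta (if c ≤ 0 then ρ₀ else ρ₁)
    split_ifs <;> assumption
  have := hom_deg G hη hn0 (fun c : ℤ => if c ≤ 0 then ρ₀ else ρ₁) hT (by
    refine Finset.sum_eq_zero fun x hx => ?_
    by_contra hJ
    obtain ⟨a0, a1, a2⟩ := box_InR hx
    have hin : InR n x := ⟨a0, a1, fun d => ⟨(a2 d).1, by have := (a2 d).2; omega⟩⟩
    have hxx : Vx Finset.univ x x := fun i => Or.inl rfl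
    obtain ⟨k, hk⟩ := hb _ (ptR_mem hn0 hin hxx) (Set.mem_univ _)
    have := hs n hn _ x hin hJ x hxx k
    linarith)
  simpa [hn0.ne'] using this

/-- Homotopies which are equivariant under the involution and have no zeros at fixed points do
not change the degree. -/
theorem homotopy_tau {m : ℕ} (G : ℝ → Y m → K m → ℝ)
    (hG : Continuous fun q : ℝ × Y m => G q.1 q.2) (hη : ∀ s, Geta (G s))
    (hτ : ∀ s, Gtau (G s))
    (hne : ∀ s ∈ Set.Icc (0 : ℝ) 1, ∀ y, IsFix y → ∃ k, G s y k ≠ 0)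
    (ρ : Y m → K m → ZMod 2) (hρ : Teta ρ) (hρτ : Ttau ρ) :
    ∃ n₀ : ℕ, ∀ n ≥ n₀, Deg n (G 0) ρ = Deg n (G 1) ρ := by
  obtain ⟨c, hc, hb⟩ := hom_bound G hG {y | IsFix y} (isClosed_isFix m) (fun s hs y hy => hne s hs y hy)
  obtain ⟨n₀, h1, hs⟩ := hom_small G hG (ε := c / 3) (by positivity)
  refine ⟨n₀, fun n hn => ?_⟩
  have hn0 : 0 < n := by omega
  refine hom_deg G hη hn0 (fun _ => ρ) (fun _ => hρ) ?_
  set f : K m → (Option (Dir m) → ℤ) → ZMod 2 := sfS n G (fun _ => ρ) with hf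
  have hform : ∀ g ∈ f (none, 0) :: (rest m).map f, ∃ k, g = f k := by
    intro g hg
    rcases List.mem_cons.1 hg with h2 | h2
    · exact ⟨_, h2⟩
    · obtain ⟨k, _, hk⟩ := List.mem_map.1 h2
      exact ⟨k, hk.symm⟩
  -- `J` vanishes near fixed points
  have hzero : ∀ x : Option (Dir m) → ℤ, InR n x → ∀ y, Vx Finset.univ x y →
      IsFix (P n fun d => y (some d)) →
      J (f (none, 0) :: (rest m).map f) Finset.univ x = 0 := by
    intro x hx y hy hfix
    by_contra hJ
    obtain ⟨k, hk⟩ := hb (ptR n y) (ptR_mem hn0 hx hy) hfix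
    have := hs n hn _ x hx hJ y hy k
    linarith
  have htau : ∀ y : Option (Dir m) → ℤ, IsFix (P n fun d => (y + vtau n m) (some d)) ↔
      IsFix (P n fun d => y (some d)) := by
    intro y
    have : (P n fun d => (y + vtau n m) (some d)) = tauY (P n fun d => y (some d)) :=
      P_tau n hn0 (fun d => y (some d))
    rw [this]
    exact isFix_tauY _
  refine pair_box n m _ (fun j x => ?_) (fun x hx => ?_)
  · refine J_shift _ _ _ _ fun g hg => ?_
    obtain ⟨k, rfl⟩ := hform g hg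
    refine ⟨0, fun y => ?_⟩
    rw [add_zero]
    exact (sfS_adm n hn0 G (fun _ => ρ) hη (fun _ => hρ) k).perbeta j y
  · obtain ⟨a0, a1, a2⟩ := box_InR hx
    have hin : InR n x := ⟨a0, a1, fun d => ⟨(a2 d).1, by have := (a2 d).2; omega⟩⟩
    have hv : ∀ d : Dir m, vtau n m (some d) = 0 ∨ vtau n m (some d) = n := by
      intro d
      rcases d with i | q
      · simp only [vtau]; split_ifs <;> simp
      · simp only [vtau]; split_ifs <;> simp
    have hin' : InR n (x + vtau n m) := by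
      refine ⟨?_, ?_, fun d => ?_⟩
      · show 0 ≤ x none + vtau n m none
        simpa [vtau] using a0
      · show x none + vtau n m none < n
        simpa [vtau] using a1
      · show 0 ≤ x (some d) + vtau n m (some d) ∧ x (some d) + vtau n m (some d) ≤ 3 * n
        have := a2 d
        rcases hv d with h2 | h2 <;> rw [h2] <;> omega
    by_cases hfix : ∃ y, Vx Finset.univ x y ∧ IsFix (P n fun d => y (some d))
    · obtain ⟨y, hy, hy'⟩ := hfix
      rw [hzero x hin y hy hy']
      refine hzero _ hin' (y + vtau n m) (fun i => ?_) ((htau y).2 hy')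
      rcases hy i with h2 | h2
      · exact Or.inl (by rw [Pi.add_apply, Pi.add_apply, h2])
      · exact Or.inr ⟨h2.1, by rw [Pi.add_apply, Pi.add_apply, h2.2]; ring⟩
    · push Not at hfix
      refine J_loc _ _ _ _ fun g hg => ?_
      obtain ⟨k, rfl⟩ := hform g hg
      refine ⟨if k.2 = 0 then 0 else 1, fun y hy => ?_⟩
      exact sfS_tau n hn0 G (fun _ => ρ) hτ (fun _ => hρτ) k y (hfix y hy)

end Pool.Agent.WFP
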