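import Pool.Agent.WFP.Defs

/-!
# WFP/QH: unit quaternions: exponentials, conjugation by i as a homomorphism, the circle, signs
-/

set_option autoImplicit false

open Quaternion

noncomputable section

namespace Pool.Agent.WFP

theorem S3_nrm (q : S3) : ‖(q : ℍ[ℝ])‖ = 1 := mem_sphere_zero_iff_norm.1 q.2

theorem S3_sqs (q : S3) : (q : ℍ[ℝ]).re ^ 2 + (q : ℍ[ℝ]).imI ^ 2 + (q : ℍ[ℝ]).imJ ^ 2
    + (q : ℍ[ℝ]).imK ^ 2 = 1 := by
  have h := Quaternion.normSq_eq_norm_mul_self (q : ℍ[ℝ])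
  rw [S3_nrm, Quaternion.normSq_def'] at h
  linarith

theorem S2_sqs (a : S2) : (a : ℍ[ℝ]).imI ^ 2 + (a : ℍ[ℝ]).imJ ^ 2
    + (a : ℍ[ℝ]).imK ^ 2 = 1 := by
  have h := Quaternion.normSq_eq_norm_mul_self (a : ℍ[ℝ])
  rw [a.2.1, Quaternion.normSq_def', a.2.2] at h
  linarith

theorem S3_ext {x y : S3} (h1 : (x : ℍ[ℝ]).re = (y : ℍ[ℝ]).re)
    (h2 : (x : ℍ[ℝ]).imI = (y : ℍ[ℝ]).imI) (h3 : (x : ℍ[ℝ]).imJ = (y : ℍ[ℝ]).imJ)
    (h4 : (x : ℍ[ℝ]).imK = (y : ℍ[ℝ]).imK) : x = y := by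
  apply Subtype.ext
  exact QuaternionAlgebra.ext h1 h2 h3 h4

theorem norm_eq_one_of_sq {q : ℍ[ℝ]} (h : q.re ^ 2 + q.imI ^ 2 + q.imJ ^ 2 + q.imK ^ 2 = 1) :
    ‖q‖ = 1 := by
  have h1 : ‖q‖ * ‖q‖ = 1 * 1 := by
    rw [← Quaternion.normSq_eq_norm_mul_self, Quaternion.normSq_def', h]; norm_num
  exact (mul_self_inj (norm_nonneg _) zero_le_one).1 h1

/-- cos α + sin α a. -/
def eS (α : ℝ) (a : S2) : S3 :=
  ⟨⟨Real.cos α, Real.sin α * (a : ℍ[ℝ]).imI, Real.sin α * (a : ℍ[ℝ]).imJ,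
    Real.sin α * (a : ℍ[ℝ]).imK⟩, by
    refine mem_sphere_zero_iff_norm.2 (norm_eq_one_of_sq ?_)
    have h := S2_sqs a
    have h2 := Real.sin_sq_add_cos_sq α
    linear_combination (Real.sin α) ^ 2 * h + h2⟩

theorem coe_mul_S3 (x y : S3) : ((x * y : S3) : ℍ[ℝ]) = (x : ℍ[ℝ]) * (y : ℍ[ℝ]) := rfl

theorem coe_one_S3 : ((1 : S3) : ℍ[ℝ]) = 1 := rfl

theorem coe_neg_S3 (x : S3) : ((-x : S3) : ℍ[ℝ]) = -(x : ℍ[ℝ]) := rfl

theorem eS_add (α β : ℝ) (a : S2) : eS (α + β) a = eS α a * eS β a := by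
  have h := S2_sqs a
  apply S3_ext
  · rw [coe_mul_S3, Quaternion.re_mul]
    simp only [eS, Real.cos_add]
    linear_combination (Real.sin α * Real.sin β) * h
  · rw [coe_mul_S3, Quaternion.imI_mul]
    simp only [eS, Real.sin_add]
    ring
  · rw [coe_mul_S3, Quaternion.imJ_mul]
    simp only [eS, Real.sin_add]
    ring
  · rw [coe_mul_S3, Quaternion.imK_mul]
    simp only [eS, Real.sin_add]
    ring

theorem eS_zero (a : S2) : eS 0 a = 1 := by
  apply S3_ext <;> simp [eS]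

theorem eS_pow (α : ℝ) (a : S2) (n : ℕ) : eS α a ^ n = eS (n * α) a := by
  induction n with
  | zero => simp [eS_zero]
  | succ n ih =>
    rw [pow_succ, ih, ← eS_add]
    congr 1
    push_cast
    ring

theorem eS_two_pi (k : ℕ) (a : S2) : eS (2 * Real.pi * k) a = 1 := by
  have h1 : Real.cos (2 * Real.pi * k) = 1 := by
    have := Real.cos_nat_mul_two_pi k
    rw [mul_comm]; exact this
  have h2 : Real.sin (2 * Real.pi * k) = 0 := by
    have := Real.sin_nat_mul_two_pi_sub 0 k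
    rw [mul_comm]; simpa using this
  apply S3_ext <;> simp [eS, h1, h2]

theorem continuous_eS (α : ℝ) : Continuous (eS α) := by
  unfold eS
  refine Continuous.subtype_mk ?_ _
  have hI : Continuous fun a : S2 => (a : ℍ[ℝ]).imI :=
    Quaternion.continuous_imI.comp continuous_subtype_val
  have hJ : Continuous fun a : S2 => (a : ℍ[ℝ]).imJ :=
    Quaternion.continuous_imJ.comp continuous_subtype_val
  have hK : Continuous fun a : S2 => (a : ℍ[ℝ]).imK :=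
    Quaternion.continuous_imK.comp continuous_subtype_val
  have : (fun a : S2 => (⟨Real.cos α, Real.sin α * (a : ℍ[ℝ]).imI,
      Real.sin α * (a : ℍ[ℝ]).imJ, Real.sin α * (a : ℍ[ℝ]).imK⟩ : ℍ[ℝ])) =
      fun a : S2 => ((Real.cos α : ℝ) : ℍ[ℝ]) + Real.sin α • (a : ℍ[ℝ]) := by
    funext a
    have ha := a.2.2
    ext <;> simp [ha]
  rw [this]
  have h2 : Continuous fun a : S2 => Real.sin α • (a : ℍ[ℝ]) := by fun_prop
  exact continuous_const.add h2

/-- Conjugation by i is a homomorphism. -/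
def tauHom : S3 →* S3 where
  toFun := tauS3
  map_one' := by
    apply S3_ext <;> simp [tauS3, tauH]
  map_mul' x y := by
    apply S3_ext
    · rw [coe_mul_S3, Quaternion.re_mul]
      simp only [tauS3, tauH]
      rw [coe_mul_S3, Quaternion.re_mul]; ring
    · rw [coe_mul_S3, Quaternion.imI_mul]
      simp only [tauS3, tauH]
      rw [coe_mul_S3, Quaternion.imI_mul]; ring
    · rw [coe_mul_S3, Quaternion.imJ_mul]
      simp only [tauS3, tauH]
      rw [coe_mul_S3, Quaternion.imJ_mul]; ring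
    · rw [coe_mul_S3, Quaternion.imK_mul]
      simp only [tauS3, tauH]
      rw [coe_mul_S3, Quaternion.imK_mul]; ring

theorem tauHom_eS (α : ℝ) (a : S2) : tauHom (eS α a) = eS α (tauS2 a) := by
  apply S3_ext <;> simp [tauHom, tauS3, tauS2, tauH, eS]

/-- The circle inside the unit quaternions. -/
def circ : Circle →* S3 where
  toFun z := ⟨⟨(z : ℂ).re, (z : ℂ).im, 0, 0⟩, by
    refine mem_sphere_zero_iff_norm.2 (norm_eq_one_of_sq ?_)
    have h := Circle.normSq_coe z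
    rw [Complex.normSq_apply] at h
    linear_combination h⟩
  map_one' := by
    apply S3_ext <;> simp
  map_mul' x y := by
    apply S3_ext
    · rw [coe_mul_S3, Quaternion.re_mul]; simp
    · rw [coe_mul_S3, Quaternion.imI_mul]; simp
    · rw [coe_mul_S3, Quaternion.imJ_mul]; simp
    · rw [coe_mul_S3, Quaternion.imK_mul]; simp

theorem exists_circ (x : S3) (h : (x : ℍ[ℝ]).imJ = 0 ∧ (x : ℍ[ℝ]).imK = 0) :
    ∃ z : Circle, circ z = x := by
  have h1 := S3_sqs x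
  rw [h.1, h.2] at h1
  have h2 : ‖(⟨(x : ℍ[ℝ]).re, (x : ℍ[ℝ]).imI⟩ : ℂ)‖ = 1 := by
    have : Complex.normSq (⟨(x : ℍ[ℝ]).re, (x : ℍ[ℝ]).imI⟩ : ℂ) = 1 := by
      rw [Complex.normSq_apply]; simp only; nlinarith
    rw [Complex.norm_def, this, Real.sqrt_one]
  refine ⟨⟨⟨(x : ℍ[ℝ]).re, (x : ℍ[ℝ]).imI⟩, by simpa [Submonoid.unitSphere] using h2⟩, ?_⟩
  apply S3_ext
  · rfl
  · rfl
  · exact h.1.symm
  · exact h.2.symm

theorem neg_one_mul_S3 (x : S3) : (-1 : S3) * x = -x := by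
  apply Subtype.ext
  rw [coe_mul_S3, coe_neg_S3, coe_neg_S3, coe_one_S3]
  simp

theorem mul_neg_one_S3 (x : S3) : x * (-1 : S3) = -x := by
  apply Subtype.ext
  rw [coe_mul_S3, coe_neg_S3, coe_neg_S3, coe_one_S3]
  simp

theorem neg_neg_S3 (x : S3) : -(-x) = x := by
  apply Subtype.ext
  rw [coe_neg_S3, coe_neg_S3]
  simp

/-- The signs inside the unit quaternions. -/
def sgnS : ℤˣ →* S3 where
  toFun u := if u = 1 then 1 else -1
  map_one' := by simp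
  map_mul' x y := by
    rcases Int.units_eq_one_or x with rfl | rfl <;> rcases Int.units_eq_one_or y with rfl | rfl <;>
      simp [neg_one_mul_S3]

theorem sgnS_comm (u : ℤˣ) (x : S3) : sgnS u * x = x * sgnS u := by
  rcases Int.units_eq_one_or u with rfl | rfl <;> simp [sgnS, neg_one_mul_S3, mul_neg_one_S3]

theorem sgnS_neg_one (x : S3) : sgnS (-1) * x = -x := by
  simp [sgnS, neg_one_mul_S3]

/-- Unit quaternions which are real are central. -/
theorem mem_center_of_real (x : S3) (h : (x : ℍ[ℝ]).imI = 0 ∧ (x : ℍ[ℝ]).imJ = 0 ∧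
    (x : ℍ[ℝ]).imK = 0) : x ∈ Subgroup.center S3 := by
  rw [Subgroup.mem_center_iff]
  intro y
  apply S3_ext
  · rw [coe_mul_S3, coe_mul_S3, Quaternion.re_mul, Quaternion.re_mul, h.1, h.2.1, h.2.2]; ring
  · rw [coe_mul_S3, coe_mul_S3, Quaternion.imI_mul, Quaternion.imI_mul, h.1, h.2.1, h.2.2]; ring
  · rw [coe_mul_S3, coe_mul_S3, Quaternion.imJ_mul, Quaternion.imJ_mul, h.1, h.2.1, h.2.2]; ring
  · rw [coe_mul_S3, coe_mul_S3, Quaternion.imK_mul, Quaternion.imK_mul, h.1, h.2.1, h.2.2]; ring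

/-- Nontrivial exponentials are not central. -/
theorem eS_not_mem_center (α : ℝ) (hα : Real.sin α ≠ 0) (a : S2) :
    eS α a ∉ Subgroup.center S3 := by
  intro h
  rw [Subgroup.mem_center_iff] at h
  obtain ⟨qi, hqi⟩ : ∃ q : S3, (q : ℍ[ℝ]) = ⟨0, 1, 0, 0⟩ :=
    ⟨⟨⟨0, 1, 0, 0⟩, mem_sphere_zero_iff_norm.2 (norm_eq_one_of_sq (by norm_num))⟩, rfl⟩
  obtain ⟨qj, hqj⟩ : ∃ q : S3, (q : ℍ[ℝ]) = ⟨0, 0, 1, 0⟩ :=
    ⟨⟨⟨0, 0, 1, 0⟩, mem_sphere_zero_iff_norm.2 (norm_eq_one_of_sq (by norm_num))⟩, rfl⟩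
  have hi := h qi
  have hj := h qj
  have e1 := congrArg (fun q : S3 => (q : ℍ[ℝ]).imK) hi
  have e2 := congrArg (fun q : S3 => (q : ℍ[ℝ]).imJ) hi
  have e3 := congrArg (fun q : S3 => (q : ℍ[ℝ]).imK) hj
  simp only [coe_mul_S3] at e1 e2 e3
  rw [Quaternion.imK_mul, Quaternion.imK_mul, hqi] at e1
  rw [Quaternion.imJ_mul, Quaternion.imJ_mul, hqi] at e2
  rw [Quaternion.imK_mul, Quaternion.imK_mul, hqj] at e3
  simp only [eS] at e1 e2 e3
  have f1 : Real.sin α * (a : ℍ[ℝ]).imJ = 0 := by linarith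
  have f2 : Real.sin α * (a : ℍ[ℝ]).imK = 0 := by linarith
  have f3 : Real.sin α * (a : ℍ[ℝ]).imI = 0 := by linarith
  have g1 := (mul_eq_zero.1 f1).resolve_left hα
  have g2 := (mul_eq_zero.1 f2).resolve_left hα
  have g3 := (mul_eq_zero.1 f3).resolve_left hα
  have := S2_sqs a
  rw [g1, g2, g3] at this
  norm_num at this

end Pool.Agent.WFP
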