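import Pool.Agent.WFP.HOM
import Pool.Agent.WFP.EVL

/-!
# WFP/TOP: the topological core
-/

set_option autoImplicit false

open Quaternion

namespace Pool.Agent.WFP

/-- Linear homotopies, equivariant under the involution. -/
theorem lin_tau {m : ℕ} (G₀ G₁ : Y m → K m → ℝ) (c₀ : Continuous G₀) (c₁ : Continuous G₁)
    (e₀ : Geta G₀) (e₁ : Geta G₁) (t₀ : Gtau G₀) (t₁ : Gtau G₁)
    (hne : ∀ s ∈ Set.Icc (0 : ℝ) 1, ∀ y, IsFix y → ∃ k, (1 - s) * G₀ y k + s * G₁ y k ≠ 0)
    (ρ : Y m → K m → ZMod 2) (hρ : Teta ρ) (hρτ : Ttau ρ) :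
    ∃ n₀ : ℕ, ∀ n ≥ n₀, Deg n G₀ ρ = Deg n G₁ ρ := by
  have hc : Continuous fun q : ℝ × Y m => (fun k => (1 - q.1) * G₀ q.2 k + q.1 * G₁ q.2 k) := by
    refine continuous_pi fun k => ?_
    have h0 : Continuous fun q : ℝ × Y m => G₀ q.2 k := ((continuous_apply k).comp c₀).comp continuous_snd
    have h1 : Continuous fun q : ℝ × Y m => G₁ q.2 k := ((continuous_apply k).comp c₁).comp continuous_snd
    exact ((continuous_const.sub continuous_fst).mul h0).add (continuous_fst.mul h1)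
  obtain ⟨n₀, hn₀⟩ := homotopy_tau (fun s y k => (1 - s) * G₀ y k + s * G₁ y k) hc
    (fun s j y k => by
      show (1 - s) * G₀ (etaY j y) k + s * G₁ (etaY j y) k = _ * ((1 - s) * G₀ y k + s * G₁ y k)
      rw [e₀ j y k, e₁ j y k]; ring)
    (fun s y k => by
      show (1 - s) * G₀ (tauY y) k + s * G₁ (tauY y) k = _ * ((1 - s) * G₀ y k + s * G₁ y k)
      rw [t₀ y k, t₁ y k]; ring)
    hne ρ hρ hρτ
  refine ⟨n₀, fun n hn => ?_⟩
  have := hn₀ n hn
  simpa using this

/-- changing the coordinate `(none, 0)` -/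
noncomputable def upd {m : ℕ} (G : Y m → K m → ℝ) (e : Y m → ℝ) (y : Y m) (k : K m) : ℝ :=
  if k = (none, 0) then e y else G y k

theorem upd_cont {m : ℕ} {G : Y m → K m → ℝ} {e : Y m → ℝ} (hG : Continuous G)
    (he : Continuous e) : Continuous (upd G e) := by
  refine continuous_pi fun k => ?_
  by_cases hk : k = (none, 0)
  · simpa [upd, hk] using he
  · simp only [upd, if_neg hk]
    exact (continuous_apply k).comp hG

theorem upd_eta {m : ℕ} {G : Y m → K m → ℝ} {e : Y m → ℝ} (hG : Geta G)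
    (he : ∀ j y, e (etaY j y) = e y) : Geta (upd G e) := by
  intro j y k
  by_cases hk : k = (none, 0)
  · subst hk
    simp [upd, he]
  · simp only [upd, if_neg hk]
    exact hG j y k

theorem upd_tau {m : ℕ} {G : Y m → K m → ℝ} {e : Y m → ℝ} (hG : Gtau G)
    (he : ∀ y, e (tauY y) = e y) : Gtau (upd G e) := by
  intro y k
  by_cases hk : k = (none, 0)
  · subst hk
    simp [upd, he]
  · simp only [upd, if_neg hk]
    exact hG y k

/-- the function `B` -/
noncomputable def BB {m : ℕ} (y : Y m) : ℝ := ∑ j, ((y.2 j).1.imJ ^ 2 + (y.2 j).1.imK ^ 2)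

theorem cont_re {m : ℕ} (j : Fin m) : Continuous fun y : Y m => (y.2 j).1.re :=
  Quaternion.continuous_re.comp (continuous_subtype_val.comp ((continuous_apply j).comp continuous_snd))

theorem cont_imI {m : ℕ} (j : Fin m) : Continuous fun y : Y m => (y.2 j).1.imI :=
  Quaternion.continuous_imI.comp (continuous_subtype_val.comp ((continuous_apply j).comp continuous_snd))

theorem cont_imJ {m : ℕ} (j : Fin m) : Continuous fun y : Y m => (y.2 j).1.imJ :=
  Quaternion.continuous_imJ.comp (continuous_subtype_val.comp ((continuous_apply j).comp continuous_snd))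

theorem cont_imK {m : ℕ} (j : Fin m) : Continuous fun y : Y m => (y.2 j).1.imK :=
  Quaternion.continuous_imK.comp (continuous_subtype_val.comp ((continuous_apply j).comp continuous_snd))

theorem BB_cont (m : ℕ) : Continuous (BB : Y m → ℝ) :=
  continuous_finsetSum _ fun j _ => ((cont_imJ j).pow 2).add ((cont_imK j).pow 2)

theorem BB_eta {m : ℕ} (j : Fin m) (y : Y m) : BB (etaY j y) = BB y := by
  unfold BB
  refine Finset.sum_congr rfl fun i _ => ?_
  by_cases hi : i = j
  · subst hi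
    simp [etaY]
  · simp [etaY, hi]

theorem BB_tau {m : ℕ} (y : Y m) : BB (tauY y) = BB y := by
  unfold BB
  refine Finset.sum_congr rfl fun i _ => ?_
  simp [tauY, tauS3, tauH]

theorem BB_nonneg {m : ℕ} (y : Y m) : 0 ≤ BB y :=
  Finset.sum_nonneg fun j _ => by positivity

theorem S3_sq {m : ℕ} (y : Y m) (j : Fin m) : (y.2 j).1.re ^ 2 + (y.2 j).1.imI ^ 2 +
    (y.2 j).1.imJ ^ 2 + (y.2 j).1.imK ^ 2 = 1 := by
  have h := (y.2 j).2
  rw [mem_sphere_zero_iff_norm] at h
  have h2 := Quaternion.normSq_eq_norm_mul_self (y.2 j).1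
  rw [h, Quaternion.normSq_def'] at h2
  linarith

theorem S2_sq {m : ℕ} (y : Y m) : y.1.1.imI ^ 2 + y.1.1.imJ ^ 2 + y.1.1.imK ^ 2 = 1 := by
  have h2 := Quaternion.normSq_eq_norm_mul_self y.1.1
  rw [y.1.2.1, Quaternion.normSq_def', y.1.2.2] at h2
  linarith

theorem BB_ge {m : ℕ} (y : Y m) (j : Fin m) (h : (y.2 j).1.re = 0 ∧ (y.2 j).1.imI = 0) :
    1 ≤ BB y := by
  have h1 := S3_sq y j
  rw [h.1, h.2] at h1
  have h2 : (y.2 j).1.imJ ^ 2 + (y.2 j).1.imK ^ 2 ≤ BB y :=
    Finset.single_le_sum (f := fun j => (y.2 j).1.imJ ^ 2 + (y.2 j).1.imK ^ 2)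
      (fun j _ => by positivity) (Finset.mem_univ j)
  linarith

theorem std_cont {m : ℕ} {E : Y m → ℝ} (hE : Continuous E) : Continuous (stdG E) := by
  refine continuous_pi fun k => ?_
  obtain ⟨o, c⟩ := k
  have hJ : Continuous fun y : Y m => y.1.1.imJ :=
    Quaternion.continuous_imJ.comp (continuous_subtype_val.comp continuous_fst)
  have hK : Continuous fun y : Y m => y.1.1.imK :=
    Quaternion.continuous_imK.comp (continuous_subtype_val.comp continuous_fst)
  rcases o with _ | j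
  · fin_cases c
    · simpa [stdG] using hE
    · simpa [stdG] using hJ
    · simpa [stdG] using hK
  · fin_cases c
    · simpa [stdG] using cont_imI j
    · simpa [stdG] using cont_imJ j
    · simpa [stdG] using cont_imK j

theorem std_eta {m : ℕ} {E : Y m → ℝ} (hE : ∀ j y, E (etaY j y) = E y) : Geta (stdG E) := by
  intro j y k
  obtain ⟨o, c⟩ := k
  rcases o with _ | i
  · fin_cases c
    · simp [stdG, hE]
    · simp [stdG, etaY]
    · simp [stdG, etaY]
  · by_cases hi : i = j
    · subst hi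
      fin_cases c
      · simp [stdG, etaY]
      · simp [stdG, etaY]
      · simp [stdG, etaY]
    · fin_cases c
      · simp [stdG, etaY, hi]
      · simp [stdG, etaY, hi]
      · simp [stdG, etaY, hi]

theorem std_tau {m : ℕ} {E : Y m → ℝ} (hE : ∀ y, E (tauY y) = E y) : Gtau (stdG E) := by
  intro y k
  obtain ⟨o, c⟩ := k
  rcases o with _ | i
  · fin_cases c
    · simp [stdG, hE]
    · simp [stdG, tauY, tauS2, tauH]
    · simp [stdG, tauY, tauS2, tauH]
  · fin_cases c
    · simp [stdG, tauY, tauS3, tauH]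
    · simp [stdG, tauY, tauS3, tauH]
    · simp [stdG, tauY, tauS3, tauH]

/-- Behaviour at one end. -/
theorem top_end {m : ℕ} (Φ : Y m → K m → ℝ) (hc : Continuous Φ) (hη : Geta Φ) (hτ : Gtau Φ)
    (E : Y m → ℝ) (hE : Continuous E) (hEη : ∀ j y, E (etaY j y) = E y)
    (hEτ : ∀ y, E (tauY y) = E y) (hbd : ∀ y, |Φ y (none, 0)| ≤ 1)
    (hs : ∀ y : Y m, (y.1.1.imJ = 0 ∧ y.1.1.imK = 0) →
      (∀ j, (y.2 j).1.imJ = 0 ∧ (y.2 j).1.imK = 0) → 0 < E y * Φ y (none, 0))
    (hJ : ∀ y : Y m, IsFix y → ∀ j, ((y.2 j).1.re = 0 ∧ (y.2 j).1.imI = 0) →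
        (Φ y (some j, 1) ≠ 0 ∨ Φ y (some j, 2) ≠ 0))
    (ρ : Y m → K m → ZMod 2) (hρ : Teta ρ) (hρτ : Ttau ρ) :
    ∃ n₀ : ℕ, ∀ n ≥ n₀, Deg n Φ ρ = Deg n (stdG E) ρ := by
  set e : Y m → ℝ := fun y => Φ y (none, 0) + 2 * BB y with he
  have ec : Continuous e := ((continuous_apply _).comp hc).add (continuous_const.mul (BB_cont m))
  have eη : ∀ j y, e (etaY j y) = e y := by
    intro j y
    have := hη j y (none, 0)
    simp only [he, BB_eta, this]
    simp
  have eτ : ∀ y, e (tauY y) = e y := by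
    intro y
    have := hτ y (none, 0)
    simp only [he, BB_tau, this]
    simp
  -- the alternative at fixed points
  have alt : ∀ y : Y m, IsFix y → (∃ j, (y.2 j).1.re = 0 ∧ (y.2 j).1.imI = 0) ∨
      (BB y = 0 ∧ 0 < E y * Φ y (none, 0)) := by
    intro y hy
    by_cases h : ∃ j, (y.2 j).1.re = 0 ∧ (y.2 j).1.imI = 0
    · exact Or.inl h
    · right
      have h1 : ∀ j, (y.2 j).1.imJ = 0 ∧ (y.2 j).1.imK = 0 := by
        intro j
        rcases hy.2 j with h2 | h2
        · exact h2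
        · exact absurd ⟨j, h2⟩ h
      refine ⟨?_, hs y hy.1 h1⟩
      unfold BB
      refine Finset.sum_eq_zero fun j _ => ?_
      rw [(h1 j).1, (h1 j).2]
      ring
  -- first homotopy
  obtain ⟨n₁, h₁⟩ := lin_tau Φ (upd Φ e) hc (upd_cont hc ec) hη (upd_eta hη eη) hτ (upd_tau hτ eτ)
    (by
      intro s hs' y hy
      rcases alt y hy with ⟨j, hj⟩ | ⟨hB, hpos⟩
      · rcases hJ y hy j hj with h2 | h2
        · refine ⟨(some j, 1), ?_⟩
          simp only [upd]
          rw [if_neg (by simp)]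
          intro h3
          apply h2
          linarith
        · refine ⟨(some j, 2), ?_⟩
          simp only [upd]
          rw [if_neg (by simp)]
          intro h3
          apply h2
          linarith
      · refine ⟨(none, 0), ?_⟩
        simp only [upd, if_true, he, hB]
        intro h3
        have : Φ y (none, 0) = 0 := by linarith
        rw [this, mul_zero] at hpos
        exact lt_irrefl _ hpos) ρ hρ hρτ
  -- second homotopy
  have sc := std_cont hE
  have sη := std_eta hEη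
  have sτ := std_tau hEτ
  obtain ⟨n₂, h₂⟩ := lin_tau (upd Φ e) (upd (stdG E) e) (upd_cont hc ec) (upd_cont sc ec)
    (upd_eta hη eη) (upd_eta sη eη) (upd_tau hτ eτ) (upd_tau sτ eτ)
    (by
      intro s hs' y hy
      refine ⟨(none, 0), ?_⟩
      simp only [upd, if_true]
      intro h3
      have h4 : e y = 0 := by linarith
      rcases alt y hy with ⟨j, hj⟩ | ⟨hB, hpos⟩
      · have h5 := BB_ge y j hj
        have h6 := (abs_le.1 (hbd y)).1
        simp only [he] at h4
        linarith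
      · simp only [he, hB] at h4
        have : Φ y (none, 0) = 0 := by linarith
        rw [this, mul_zero] at hpos
        exact lt_irrefl _ hpos) ρ hρ hρτ
  -- third homotopy
  obtain ⟨n₃, h₃⟩ := lin_tau (upd (stdG E) e) (stdG E) (upd_cont sc ec) sc
    (upd_eta sη eη) sη (upd_tau sτ eτ) sτ
    (by
      intro s hs' y hy
      rcases alt y hy with ⟨j, hj⟩ | ⟨hB, hpos⟩
      · have h1 := S3_sq y j
        rw [hj.1, hj.2] at h1
        by_cases h2 : (y.2 j).1.imJ = 0
        · refine ⟨(some j, 2), ?_⟩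
          simp only [upd]
          rw [if_neg (by simp)]
          simp only [stdG]
          intro h3
          rw [if_neg (by decide), if_neg (by decide)] at h3
          have : (y.2 j).1.imK = 0 := by linarith
          rw [h2, this] at h1
          norm_num at h1
        · refine ⟨(some j, 1), ?_⟩
          simp only [upd]
          rw [if_neg (by simp)]
          simp only [stdG]
          intro h3
          apply h2
          rw [if_neg (by decide), if_pos trivial] at h3
          linarith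
      · refine ⟨(none, 0), ?_⟩
        simp only [upd, if_true, stdG, he, hB]
        intro h3
        have hE0 : E y ≠ 0 := by
          intro h0
          rw [h0, zero_mul] at hpos
          exact lt_irrefl _ hpos
        have hE2 : 0 < E y * E y := mul_self_pos.2 hE0
        have h5 : (1 - s) * (E y * Φ y (none, 0)) + s * (E y * E y) = 0 := by
          linear_combination (E y) * h3
        rcases eq_or_lt_of_le hs'.1 with h6 | h6
        · rw [← h6] at h5
          linarith
        · have h7 : 0 ≤ (1 - s) * (E y * Φ y (none, 0)) :=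
            mul_nonneg (by linarith [hs'.2]) hpos.le
          have h8 : 0 < s * (E y * E y) := mul_pos h6 hE2
          linarith) ρ hρ hρτ
  refine ⟨max n₁ (max n₂ n₃), fun n hn => ?_⟩
  have a1 : n₁ ≤ n := le_trans (le_max_left _ _) hn
  have a2 : n₂ ≤ n := le_trans (le_trans (le_max_left _ _) (le_max_right _ _)) hn
  have a3 : n₃ ≤ n := le_trans (le_trans (le_max_right _ _) (le_max_right _ _)) hn
  rw [h₁ n a1, h₂ n a2, h₃ n a3]

/-- The topological core: a family of maps with the equivariance properties and the values at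
fixed points of our word maps has a zero. -/
theorem top_core (m : ℕ) (F : ℝ → Y m → K m → ℝ)
    (hcont : Continuous fun q : ℝ × Y m => F q.1 q.2)
    (hη : ∀ s, Geta (F s)) (hτ0 : Gtau (F 0)) (hτ1 : Gtau (F 1))
    (hbd : ∀ s y, |F s y (none, 0)| ≤ 1)
    (hT : ∀ s : ℝ, (s = 0 ∨ s = 1) → ∀ y : Y m, (y.1.1.imJ = 0 ∧ y.1.1.imK = 0) →
      (∀ j, (y.2 j).1.imJ = 0 ∧ (y.2 j).1.imK = 0) → ∀ j, F s y (some j, 0) = (y.2 j).1.imI)
    (hs0 : ∀ y : Y m, (y.1.1.imJ = 0 ∧ y.1.1.imK = 0) →
      (∀ j, (y.2 j).1.imJ = 0 ∧ (y.2 j).1.imK = 0) → 0 < F 0 y (none, 0))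
    (hs1 : ∀ y : Y m, (y.1.1.imJ = 0 ∧ y.1.1.imK = 0) →
      (∀ j, (y.2 j).1.imJ = 0 ∧ (y.2 j).1.imK = 0) → 0 < y.1.1.imI * F 1 y (none, 0))
    (hJ : ∀ s : ℝ, (s = 0 ∨ s = 1) → ∀ y : Y m, IsFix y →
      ∀ j, ((y.2 j).1.re = 0 ∧ (y.2 j).1.imI = 0) →
        (F s y (some j, 1) ≠ 0 ∨ F s y (some j, 2) ≠ 0)) :
    ∃ s ∈ Set.Icc (0 : ℝ) 1, ∃ y : Y m, ∀ k, F s y k = 0 := by
  by_contra hcon
  push Not at hcon
  obtain ⟨ρ, hρ, hρτ⟩ := exists_tie m
  obtain ⟨n₁, h₁⟩ := homotopy_nonvanishing F hcont hη hcon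
  have hcF : ∀ s, Continuous (F s) := fun s => hcont.comp (continuous_const.prodMk continuous_id)
  have iI : Continuous fun y : Y m => y.1.1.imI :=
    Quaternion.continuous_imI.comp (continuous_subtype_val.comp continuous_fst)
  obtain ⟨n₂, h₂⟩ := top_end (F 0) (hcF 0) (hη 0) hτ0 (fun _ => (1 : ℝ)) continuous_const
    (fun _ _ => rfl) (fun _ => rfl) (hbd 0) (fun y h h' => by rw [one_mul]; exact hs0 y h h')
    (fun y hy j hj => hJ 0 (Or.inl rfl) y hy j hj) ρ hρ hρτ
  obtain ⟨n₃, h₃⟩ := top_end (F 1) (hcF 1) (hη 1) hτ1 (fun y => y.1.1.imI) iI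
    (fun _ _ => rfl) (fun _ => rfl) (hbd 1) (fun y h h' => hs1 y h h')
    (fun y hy j hj => hJ 1 (Or.inr rfl) y hy j hj) ρ hρ hρτ
  obtain ⟨ρ', hρ', hev⟩ := std_eval m
  have std0 : Continuous (stdG fun _ : Y m => (1 : ℝ)) := std_cont continuous_const
  have std1 : Continuous (stdG fun y : Y m => y.1.1.imI) := std_cont iI
  obtain ⟨n₄, h₄⟩ := homotopy_nonvanishing (fun _ => stdG fun _ : Y m => (1 : ℝ))
    (std0.comp continuous_snd) (fun _ => std_eta fun _ _ => rfl)
    (fun s _ y => ⟨(none, 0), by simp [stdG]⟩)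
  obtain ⟨n₅, h₅⟩ := homotopy_nonvanishing (fun _ => stdG fun y : Y m => y.1.1.imI)
    (std1.comp continuous_snd) (fun _ => std_eta fun _ _ => rfl)
    (fun s _ y => by
      by_contra hall
      push Not at hall
      have a0 : y.1.1.imI = 0 := by simpa [stdG] using hall (none, 0)
      have a1 : y.1.1.imJ = 0 := by simpa [stdG] using hall (none, 1)
      have a2 : y.1.1.imK = 0 := by simpa [stdG] using hall (none, 2)
      have := S2_sq y
      rw [a0, a1, a2] at this
      norm_num at this)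
  obtain ⟨n, hn, hev2⟩ : ∃ n, n₁ + n₂ + n₃ + n₄ + n₅ + 4 ≤ n ∧ Even n :=
    ⟨2 * (n₁ + n₂ + n₃ + n₄ + n₅ + 4), by omega, ⟨_, two_mul _⟩⟩
  obtain ⟨d0, d1⟩ := hev n hev2 (by omega)
  have q1 := h₁ n (by omega) ρ ρ hρ hρ
  have q2 := h₂ n (by omega)
  have q3 := h₃ n (by omega)
  have q4 : Deg n (stdG fun _ : Y m => (1 : ℝ)) ρ = Deg n (stdG fun _ : Y m => (1 : ℝ)) ρ' :=
    h₄ n (by omega) ρ ρ' hρ hρ'
  have q5 : Deg n (stdG fun y : Y m => y.1.1.imI) ρ = Deg n (stdG fun y : Y m => y.1.1.imI) ρ' :=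
    h₅ n (by omega) ρ ρ' hρ hρ'
  rw [q2, q3, q4, q5, d0, d1] at q1
  exact zero_ne_one q1

end Pool.Agent.WFP
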